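import Pool.Agent.Work.MP_0ea01d_co.Defs

/-!
# Complementation: `S(n,l) = S(n,n-l-1)`
-/

set_option autoImplicit false

namespace Pool.Agent.Work.MP_0ea01d_co.Det

open Finset

private theorem dual_sub {n l : ℕ} (h : l + 1 ≤ n) : S n l ⊆ S n (n - l - 1) := by
  rintro m ⟨A, hA1, hA2, rfl⟩
  let e : (flip (· ⊆ ·) : Finset (Fin n) → Finset (Fin n) → Prop) ≃r
      ((· ⊆ ·) : Finset (Fin n) → Finset (Fin n) → Prop) :=
    { toEquiv := (compl_involutive (α := Finset (Fin n))).toPerm
      map_rel_iff' := by
        intro a b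
        exact compl_subset_compl }
  refine ⟨A.compls, ?_, ?_, card_compls _⟩
  · intro X hX
    rw [mem_compls] at hX
    have h1 := hA1 _ hX
    rw [card_compl, Fintype.card_fin] at h1
    have h2 := card_le_univ X
    rw [Fintype.card_fin] at h2
    omega
  · have h1 := (hA2.symm).image e
    have h2 : (e '' (A : Set (Finset (Fin n)))) = (A.compls : Set (Finset (Fin n))) := by
      rw [coe_compls]
      rfl
    rwa [h2] at h1

theorem S_dual {n l : ℕ} (h : l + 1 ≤ n) : S n l = S n (n - l - 1) := by
  apply Set.Subset.antisymm (dual_sub h)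
  have h1 := dual_sub (n := n) (l := n - l - 1) (by omega)
  have h2 : n - (n - l - 1) - 1 = l := by omega
  rwa [h2] at h1

end Pool.Agent.Work.MP_0ea01d_co.Det
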