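import Pool.Agent.Work.MP_0ea01d_co.Det.ValBasic

/-!
# The levels 0 and 1

For `l = 2` and `n = 3, 4` and for `l = 3`, `n = 5` complementation leads to the levels
`k = 0` and `k = 1`. There `S(n,0) = {1, n}` and `S(n,1) = {n - u + C(u,2) : u ≠ 1}`.
-/

set_option autoImplicit false

namespace Pool.Agent.Work.MP_0ea01d_co.Det

open Finset

theorem S_zero {n m : ℕ} (hn : 1 ≤ n) : m ∈ S n 0 ↔ m = 1 ∨ m = n := by
  have hfull : Clo 0 (powersetCard 1 (univ : Finset (Fin n))) :=
    ⟨fun T hT => (mem_powersetCard.1 hT).2, fun T hT _ =>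
      mem_powersetCard.2 ⟨subset_univ _, hT⟩⟩
  have hGr : (Gr 0 (powersetCard 1 (univ : Finset (Fin n)))).card = 1 := by
    have : Gr 0 (powersetCard 1 (univ : Finset (Fin n))) = {∅} := by
      ext Y
      rw [mem_Gr, mem_singleton]
      constructor
      · rintro ⟨_, _, _, h⟩
        exact card_eq_zero.1 h
      · rintro rfl
        exact ⟨{⟨0, by omega⟩}, mem_powersetCard.2 ⟨subset_univ _, card_singleton _⟩,
          empty_subset _, card_empty⟩
    rw [this, card_singleton]
  constructor
  · intro h
    obtain ⟨F, hF, hm⟩ := exists_clo_of_mem_S (by omega) h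
    rw [Nat.choose_zero_right] at hm
    rcases F.eq_empty_or_nonempty with rfl | ⟨T₀, hT₀⟩
    · rw [NN_empty] at hm
      left
      push_cast at hm
      omega
    · have hFe : F = powersetCard 1 univ := by
        ext T
        rw [mem_powersetCard]
        constructor
        · intro hT
          exact ⟨subset_univ _, hF.card T hT⟩
        · rintro ⟨_, hT⟩
          refine hF.closed T hT fun Y _ hYc => ⟨T₀, hT₀, ?_⟩
          rw [card_eq_zero.1 hYc]
          exact empty_subset _
      right
      unfold NN at hm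
      rw [hFe, hGr, card_powersetCard, card_univ, Fintype.card_fin, Nat.choose_one_right] at hm
      push_cast at hm
      omega
  · rintro (rfl | rfl)
    · obtain ⟨m, hm, he⟩ := (Clo.empty : Clo 0 (∅ : Finset (Finset (Fin n)))).mem_S (by omega)
      rw [NN_empty, Nat.choose_zero_right] at he
      have : m = 1 := by
        push_cast at he
        omega
      rwa [this] at hm
    · obtain ⟨m', hm, he⟩ := hfull.mem_S (by omega)
      unfold NN at he
      rw [hGr, card_powersetCard, card_univ, Fintype.card_fin, Nat.choose_one_right,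
        Nat.choose_zero_right] at he
      have : m' = m := by
        push_cast at he
        omega
      rwa [this] at hm

theorem S_one {n m : ℕ} (hn : 2 ≤ n) :
    m ∈ S n 1 ↔ ∃ u, u ≤ n ∧ u ≠ 1 ∧ m + u = n + u.choose 2 := by
  have hGr : ∀ U : Finset (Fin n), U.card ≠ 1 → Gr 1 (powersetCard 2 U) = powersetCard 1 U := by
    intro U hU
    ext Y
    rw [mem_Gr, mem_powersetCard]
    constructor
    · rintro ⟨T, hT, hY, hc⟩
      exact ⟨hY.trans (mem_powersetCard.1 hT).1, hc⟩
    · rintro ⟨hY, hc⟩
      have h1 := card_le_card hY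
      obtain ⟨T, h2, h3, h4⟩ := exists_subsuperset_card_eq hY (n := 2) (by omega) (by omega)
      exact ⟨T, mem_powersetCard.2 ⟨h3, h4⟩, h2, hc⟩
  constructor
  · intro h
    obtain ⟨F, hF, hm⟩ := exists_clo_of_mem_S (by omega) h
    set U : Finset (Fin n) := F.biUnion id with hU
    have hsub : ∀ T ∈ F, T ⊆ U := fun T hT => subset_biUnion_of_mem id hT
    have hFe : F = powersetCard 2 U := by
      ext T
      rw [mem_powersetCard]
      constructor
      · intro hT
        exact ⟨hsub T hT, hF.card T hT⟩
      · rintro ⟨hTU, hT⟩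
        refine hF.closed T hT fun Y hY hYc => ?_
        obtain ⟨y, rfl⟩ := card_eq_one.1 hYc
        obtain ⟨T', hT', hy⟩ := mem_biUnion.1 (hTU (singleton_subset_iff.1 hY))
        exact ⟨T', hT', singleton_subset_iff.2 hy⟩
    have hU1 : U.card ≠ 1 := by
      intro h1
      obtain ⟨x, hx⟩ := card_eq_one.1 h1
      have hxU : x ∈ U := by rw [hx]; simp
      obtain ⟨T', hT', _⟩ := mem_biUnion.1 hxU
      have h2 := card_le_card (hsub T' hT')
      rw [hF.card T' hT', h1] at h2
      omega
    refine ⟨U.card, card_finset_fin_le U, hU1, ?_⟩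
    unfold NN at hm
    rw [hFe, hGr U hU1, card_powersetCard, card_powersetCard, Nat.choose_one_right,
      Nat.choose_one_right] at hm
    omega
  · rintro ⟨u, h1, h2, h3⟩
    obtain ⟨U, -, hU⟩ := exists_subset_card_eq (s := (univ : Finset (Fin n))) (n := u)
      (by rw [card_univ, Fintype.card_fin]; exact h1)
    obtain ⟨m', hm, he⟩ := (clo_full (l := 1) le_rfl U).mem_S (by omega)
    have e : (1 + 1 : ℕ) = 2 := rfl
    unfold NN at he
    rw [e, hGr U (by omega), card_powersetCard, card_powersetCard, hU, Nat.choose_one_right,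
      Nat.choose_one_right] at he
    have : m' = m := by omega
    rwa [this] at hm

theorem rep_le {t x : ℕ} (ht : t ≤ 5) (h : Rep t x) : x ≤ t.choose 2 := by
  obtain ⟨a, b, c, h1, h2, h3, h4, rfl⟩ := h
  have key : ∀ t < 6, ∀ a < 6, ∀ b < 6, (1 ≤ a ∧ b ≤ a ∧ a + b ≤ t) →
      a.choose 2 + b.choose 2 + b ≤ t.choose 2 := by decide +kernel
  have := key t (by omega) a (by omega) b (by omega) ⟨h3, h2, h4⟩
  omega

/-- The description in the three cases with `k ≤ 1`. -/
theorem tiny_all {l d : ℕ} (h : (l = 0 ∧ d = 3) ∨ (l = 1 ∧ d = 3) ∨ (l = 1 ∧ d = 4)) :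
    ∃ μ : ℕ, IsLeast (S (l + d) l) μ ∧ ∀ m : ℕ, μ ≤ m → (m ∈ S (l + d) l ↔
      (m : ℤ) ≤ (l + d).choose (l + 1) - cc d ∨
      (m < (l + d).choose (l + 1) ∧ ∃ t x : ℕ, 1 ≤ t ∧ t ≤ d + 1 ∧ Rep t x ∧
        (m : ℤ) = (l + d).choose (l + 1) - t * ((d : ℤ) - 1) + x) ∨
      m = (l + d).choose (l + 1)) := by
  have c1 : Nat.choose 1 2 = 0 := by decide
  have c2 : Nat.choose 2 2 = 1 := by decide
  have c3 : Nat.choose 3 2 = 3 := by decide
  have c4 : Nat.choose 4 2 = 6 := by decide
  have c5 : Nat.choose 5 2 = 10 := by decide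
  have r1 : Rep 1 0 := ⟨1, 0, 0, le_rfl, by norm_num, by norm_num, by norm_num, by decide⟩
  have r2 : Rep 2 1 := ⟨2, 0, 0, le_rfl, by norm_num, by norm_num, by norm_num, by decide⟩
  have r3 : Rep 2 0 := ⟨1, 0, 0, le_rfl, by norm_num, by norm_num, by norm_num, by decide⟩
  rcases h with ⟨rfl, rfl⟩ | ⟨rfl, rfl⟩ | ⟨rfl, rfl⟩
  · have k1 : (0 + 3).choose (0 + 1) = 3 := by decide
    have k2 : cc 3 = 4 := by decide +kernel
    rw [k1, k2]
    refine ⟨1, ⟨(S_zero (by norm_num)).2 (Or.inl rfl), fun a ha => ?_⟩, fun m hm => ?_⟩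
    · rcases (S_zero (by norm_num)).1 ha with rfl | rfl <;> norm_num
    · rw [S_zero (by norm_num)]
      constructor
      · rintro (rfl | rfl)
        · right; left
          exact ⟨by norm_num, 1, 0, by norm_num, by norm_num, r1, by norm_num⟩
        · right; right; rfl
      · rintro (h | ⟨h1, t, x, h2, h3, h4, h5⟩ | rfl)
        · push_cast at h
          omega
        · left
          by_contra hne
          have hm2 : m = 2 := by omega
          subst hm2
          have h6 := rep_le (by omega) h4
          push_cast at h5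
          have ht : t = 1 ∨ t = 2 ∨ t = 3 ∨ t = 4 := by omega
          rcases ht with rfl | rfl | rfl | rfl
          · rw [c1] at h6; omega
          · rw [c2] at h6; omega
          · rw [c3] at h6; omega
          · rw [c4] at h6; omega
        · right; rfl
  · have k1 : (1 + 3).choose (1 + 1) = 6 := by decide
    have k2 : cc 3 = 4 := by decide +kernel
    have hS : ∀ m, m ∈ S (1 + 3) 1 ↔ m = 3 ∨ m = 4 ∨ m = 6 := by
      intro m
      rw [S_one (by norm_num)]
      constructor
      · rintro ⟨u, h1, h2, h3⟩
        have hu : u = 0 ∨ u = 2 ∨ u = 3 ∨ u = 4 := by omega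
        rcases hu with rfl | rfl | rfl | rfl
        · have : Nat.choose 0 2 = 0 := by decide
          rw [this] at h3; omega
        · rw [c2] at h3; omega
        · rw [c3] at h3; omega
        · rw [c4] at h3; omega
      · rintro (rfl | rfl | rfl)
        · exact ⟨2, by norm_num, by norm_num, by rw [c2]⟩
        · exact ⟨3, by norm_num, by norm_num, by rw [c3]⟩
        · exact ⟨4, by norm_num, by norm_num, by rw [c4]⟩
    rw [k1, k2]
    refine ⟨3, ⟨(hS 3).2 (Or.inl rfl), fun a ha => ?_⟩, fun m hm => ?_⟩
    · rcases (hS a).1 ha with rfl | rfl | rfl <;> norm_num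
    · rw [hS]
      constructor
      · rintro (rfl | rfl | rfl)
        · right; left
          exact ⟨by norm_num, 2, 1, by norm_num, by norm_num, r2, by norm_num⟩
        · right; left
          exact ⟨by norm_num, 1, 0, by norm_num, by norm_num, r1, by norm_num⟩
        · right; right; rfl
      · rintro (h | ⟨h1, t, x, h2, h3, h4, h5⟩ | rfl)
        · push_cast at h
          omega
        · have h6 := rep_le (by omega) h4
          push_cast at h5
          have ht : t = 1 ∨ t = 2 ∨ t = 3 ∨ t = 4 := by omega
          rcases ht with rfl | rfl | rfl | rfl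
          · rw [c1] at h6; omega
          · rw [c2] at h6; omega
          · rw [c3] at h6; omega
          · rw [c4] at h6; omega
        · right; right; rfl
  · have k1 : (1 + 4).choose (1 + 1) = 10 := by decide
    have k2 : cc 4 = 6 := by decide +kernel
    have hS : ∀ m, m ∈ S (1 + 4) 1 ↔ m = 4 ∨ m = 5 ∨ m = 7 ∨ m = 10 := by
      intro m
      rw [S_one (by norm_num)]
      constructor
      · rintro ⟨u, h1, h2, h3⟩
        have hu : u = 0 ∨ u = 2 ∨ u = 3 ∨ u = 4 ∨ u = 5 := by omega
        rcases hu with rfl | rfl | rfl | rfl | rfl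
        · have : Nat.choose 0 2 = 0 := by decide
          rw [this] at h3; omega
        · rw [c2] at h3; omega
        · rw [c3] at h3; omega
        · rw [c4] at h3; omega
        · rw [c5] at h3; omega
      · rintro (rfl | rfl | rfl | rfl)
        · exact ⟨2, by norm_num, by norm_num, by rw [c2]⟩
        · exact ⟨3, by norm_num, by norm_num, by rw [c3]⟩
        · exact ⟨4, by norm_num, by norm_num, by rw [c4]⟩
        · exact ⟨5, by norm_num, by norm_num, by rw [c5]⟩
    rw [k1, k2]
    refine ⟨4, ⟨(hS 4).2 (Or.inl rfl), fun a ha => ?_⟩, fun m hm => ?_⟩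
    · rcases (hS a).1 ha with rfl | rfl | rfl | rfl <;> norm_num
    · rw [hS]
      constructor
      · rintro (rfl | rfl | rfl | rfl)
        · left; norm_num
        · right; left
          exact ⟨by norm_num, 2, 1, by norm_num, by norm_num, r2, by norm_num⟩
        · right; left
          exact ⟨by norm_num, 1, 0, by norm_num, by norm_num, r1, by norm_num⟩
        · right; right; rfl
      · rintro (h | ⟨h1, t, x, h2, h3, h4, h5⟩ | rfl)
        · push_cast at h
          omega
        · have h6 := rep_le (by omega) h4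
          push_cast at h5
          have ht : t = 1 ∨ t = 2 ∨ t = 3 ∨ t = 4 ∨ t = 5 := by omega
          rcases ht with rfl | rfl | rfl | rfl | rfl
          · rw [c1] at h6; omega
          · rw [c2] at h6; omega
          · rw [c3] at h6; omega
          · rw [c4] at h6; omega
          · rw [c5] at h6; omega
        · right; right; right; rfl

end Pool.Agent.Work.MP_0ea01d_co.Det
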