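import Pool.Agent.Work.MP_0ea01d_co.Det.Interval

/-!
# Level 2: the constructions below `C(n,2)`

Let `p` disjoint edges `e i` and `q` further points be given. The triples `e i ∪ {j}` form a
`Good` family, so all subfamilies are closed; a subfamily with `k` members in which every `e i`
occurs has gain `p + k`. This gives all gains from `2 p` to `p (1 + q)`.
-/

set_option autoImplicit false

namespace Pool.Agent.Work.MP_0ea01d_co.Det

open Finset

section

variable {p q : ℕ}

/-- `p` pairs of points and `q` further points. -/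
abbrev PV (p q : ℕ) : Type := (Fin p × Bool) ⊕ Fin q

/-- The triple of the pair `u.1` and the further point `u.2`. -/
def tr (u : Fin p × Fin q) : Finset (PV p q) :=
  {Sum.inl (u.1, false), Sum.inl (u.1, true), Sum.inr u.2}

theorem inl_mem_tr {u : Fin p × Fin q} {i : Fin p} {b : Bool} :
    (Sum.inl (i, b) : PV p q) ∈ tr u ↔ i = u.1 := by
  cases b <;> simp [tr]

theorem inr_mem_tr {u : Fin p × Fin q} {j : Fin q} :
    (Sum.inr j : PV p q) ∈ tr u ↔ j = u.2 := by
  simp [tr]

theorem card_tr (u : Fin p × Fin q) : (tr u).card = 3 := by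
  unfold tr
  rw [card_eq_three]
  exact ⟨_, _, _, by simp, by simp, by simp, rfl⟩

theorem tr_inj : Function.Injective (tr : Fin p × Fin q → Finset (PV p q)) := by
  intro u v h
  have h1 : (Sum.inl (u.1, false) : PV p q) ∈ tr v := by
    rw [← h, inl_mem_tr]
  have h2 : (Sum.inr u.2 : PV p q) ∈ tr v := by
    rw [← h, inr_mem_tr]
  exact Prod.ext (inl_mem_tr.1 h1) (inr_mem_tr.1 h2)

theorem good_tr : Good 2 (univ.image (tr : Fin p × Fin q → Finset (PV p q))) := by
  refine ⟨?_, ?_, ?_⟩
  · intro T hT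
    obtain ⟨u, -, rfl⟩ := mem_image.1 hT
    exact card_tr u
  · intro T hT
    obtain ⟨u, -, rfl⟩ := mem_image.1 hT
    refine ⟨{Sum.inl (u.1, false), Sum.inr u.2}, ?_, card_pair (by simp), ?_⟩
    · intro a ha
      rw [mem_insert, mem_singleton] at ha
      rcases ha with rfl | rfl
      · exact inl_mem_tr.2 rfl
      · exact inr_mem_tr.2 rfl
    · intro T' hT' hsub
      obtain ⟨v, -, rfl⟩ := mem_image.1 hT'
      have h1 := inl_mem_tr.1 (hsub (show (Sum.inl (u.1, false) : PV p q) ∈ _ by simp))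
      have h2 := inr_mem_tr.1 (hsub (show (Sum.inr u.2 : PV p q) ∈ _ by simp))
      rw [Prod.ext h1 h2]
  · intro T hT hall
    have key : ∀ a ∈ T, ∀ b ∈ T, a ≠ b → ∃ u : Fin p × Fin q, a ∈ tr u ∧ b ∈ tr u := by
      intro a ha b hb hab
      obtain ⟨T', hT', hs⟩ := hall {a, b} (by
        intro c hc
        rw [mem_insert, mem_singleton] at hc
        rcases hc with rfl | rfl <;> assumption) (card_pair hab)
      obtain ⟨u, -, rfl⟩ := mem_image.1 hT'
      exact ⟨u, hs (by simp), hs (by simp)⟩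
    have key1 : ∀ i b i' b', (Sum.inl (i, b) : PV p q) ∈ T → (Sum.inl (i', b') : PV p q) ∈ T →
        i = i' := by
      intro i b i' b' h h'
      by_cases he : (Sum.inl (i, b) : PV p q) = Sum.inl (i', b')
      · rw [Sum.inl.injEq, Prod.mk.injEq] at he
        exact he.1
      · obtain ⟨u, h1, h2⟩ := key _ h _ h' he
        rw [inl_mem_tr.1 h1, inl_mem_tr.1 h2]
    have key2 : ∀ j j', (Sum.inr j : PV p q) ∈ T → (Sum.inr j' : PV p q) ∈ T → j = j' := by
      intro j j' h h'
      by_contra hne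
      obtain ⟨u, h1, h2⟩ := key _ h _ h' (by simpa using hne)
      exact hne ((inr_mem_tr.1 h1).trans (inr_mem_tr.1 h2).symm)
    -- a pair in `T`
    obtain ⟨i, b, hib⟩ : ∃ i b, (Sum.inl (i, b) : PV p q) ∈ T := by
      by_contra hcon
      push Not at hcon
      obtain ⟨x, y, hx, hy, hxy⟩ : ∃ x y, x ∈ T ∧ y ∈ T ∧ x ≠ y := by
        obtain ⟨x, hx, y, hy, hne⟩ := one_lt_card.1 (show 1 < T.card by omega)
        exact ⟨x, y, hx, hy, hne⟩
      rcases x with ⟨i, b⟩ | j
      · exact hcon i b hx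
      · rcases y with ⟨i, b⟩ | j'
        · exact hcon i b hy
        · exact hxy (by rw [key2 j j' hx hy])
    obtain ⟨j, hj⟩ : ∃ j, (Sum.inr j : PV p q) ∈ T := by
      by_contra hcon
      push Not at hcon
      have hsub : T ⊆ {Sum.inl (i, false), Sum.inl (i, true)} := by
        intro x hx
        rcases x with ⟨i', b'⟩ | j
        · rw [← key1 i b i' b' hib hx]
          cases b' <;> simp
        · exact absurd hx (hcon j)
      have h1 := card_le_card hsub
      have h2 := card_le_two (a := (Sum.inl (i, false) : PV p q)) (b := Sum.inl (i, true))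
      omega
    have hsub : T ⊆ tr (i, j) := by
      intro x hx
      rcases x with ⟨i', b'⟩ | j'
      · exact inl_mem_tr.2 (key1 _ _ _ _ hx hib)
      · exact inr_mem_tr.2 (key2 _ _ hx hj)
    have heq : T = tr (i, j) := eq_of_subset_of_card_le hsub (by rw [card_tr, hT])
    rw [heq]
    exact mem_image_of_mem _ (mem_univ _)

theorem Gr_tr {s : Finset (Fin p × Fin q)} (hs : ∀ i, ∃ j, (i, j) ∈ s) :
    Gr 2 (s.image tr) =
      univ.image (fun i : Fin p => ({Sum.inl (i, false), Sum.inl (i, true)} : Finset (PV p q))) ∪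
      (s ×ˢ (univ : Finset Bool)).image (fun v : (Fin p × Fin q) × Bool =>
        ({Sum.inl (v.1.1, v.2), Sum.inr v.1.2} : Finset (PV p q))) := by
  ext Y
  rw [mem_Gr, mem_union, mem_image, mem_image]
  constructor
  · rintro ⟨T, hT, hY, hc⟩
    obtain ⟨u, hu, rfl⟩ := mem_image.1 hT
    obtain ⟨a, b, hab, rfl⟩ := card_eq_two.1 hc
    have ha := hY (mem_insert_self a _)
    have hb := hY (show b ∈ ({a, b} : Finset (PV p q)) by simp)
    rcases a with ⟨i, x⟩ | j <;> rcases b with ⟨i', x'⟩ | j'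
    · left
      rw [inl_mem_tr] at ha hb
      subst ha hb
      refine ⟨u.1, mem_univ _, ?_⟩
      cases x <;> cases x'
      · exact absurd rfl hab
      · rfl
      · exact pair_comm _ _
      · exact absurd rfl hab
    · right
      rw [inl_mem_tr] at ha
      rw [inr_mem_tr] at hb
      subst ha hb
      exact ⟨(u, x), by simp [hu], rfl⟩
    · right
      rw [inr_mem_tr] at ha
      rw [inl_mem_tr] at hb
      subst ha hb
      exact ⟨(u, x'), by simp [hu], pair_comm _ _⟩
    · exfalso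
      rw [inr_mem_tr] at ha hb
      exact hab (by rw [ha, hb])
  · rintro (⟨i, -, rfl⟩ | ⟨v, hv, rfl⟩)
    · obtain ⟨j, hj⟩ := hs i
      refine ⟨tr (i, j), mem_image_of_mem _ hj, ?_, card_pair (by simp)⟩
      intro a ha
      rw [mem_insert, mem_singleton] at ha
      rcases ha with rfl | rfl <;> exact inl_mem_tr.2 rfl
    · rw [mem_product] at hv
      refine ⟨tr v.1, mem_image_of_mem _ hv.1, ?_, card_pair (by simp)⟩
      intro a ha
      rw [mem_insert, mem_singleton] at ha
      rcases ha with rfl | rfl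
      · exact inl_mem_tr.2 rfl
      · exact inr_mem_tr.2 rfl

theorem NN_tr {s : Finset (Fin p × Fin q)} (hs : ∀ i, ∃ j, (i, j) ∈ s) :
    NN 2 (s.image tr) = (p : ℤ) + s.card := by
  unfold NN
  rw [Gr_tr hs, card_union_of_disjoint, card_image_of_injective, card_image_of_injective,
    card_image_of_injective _ tr_inj, card_univ, Fintype.card_fin, card_product, card_univ,
    Fintype.card_bool]
  · push_cast
    ring
  · rintro ⟨u, x⟩ ⟨v, y⟩ h
    have h1 : (Sum.inl (u.1, x) : PV p q) ∈ ({Sum.inl (v.1, y), Sum.inr v.2} : Finset (PV p q)) := by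
      have h' : ({Sum.inl (u.1, x), Sum.inr u.2} : Finset (PV p q)) = {Sum.inl (v.1, y), Sum.inr v.2} := h
      rw [← h']
      simp
    have h2 : (Sum.inr u.2 : PV p q) ∈ ({Sum.inl (v.1, y), Sum.inr v.2} : Finset (PV p q)) := by
      have h' : ({Sum.inl (u.1, x), Sum.inr u.2} : Finset (PV p q)) = {Sum.inl (v.1, y), Sum.inr v.2} := h
      rw [← h']
      simp
    simp at h1 h2
    exact Prod.ext (Prod.ext h1.1 h2) h1.2
  · intro i i' h
    have h1 : (Sum.inl (i, false) : PV p q) ∈
        ({Sum.inl (i', false), Sum.inl (i', true)} : Finset (PV p q)) := by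
      have h' : ({Sum.inl (i, false), Sum.inl (i, true)} : Finset (PV p q)) =
        {Sum.inl (i', false), Sum.inl (i', true)} := h
      rw [← h']
      simp
    simpa using h1
  · rw [disjoint_left]
    intro Y hY hY'
    obtain ⟨i, -, rfl⟩ := mem_image.1 hY
    obtain ⟨v, -, h⟩ := mem_image.1 hY'
    have h1 : (Sum.inr v.1.2 : PV p q) ∈
        ({Sum.inl (i, false), Sum.inl (i, true)} : Finset (PV p q)) := by
      rw [← h]
      simp
    simp at h1

theorem val_neg {p q v : ℕ} (hq : 1 ≤ q) (h1 : 2 * p ≤ v) (h2 : v ≤ p * (1 + q)) :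
    Val (2 * p + q) 2 (-(v : ℤ)) := by
  let z : Fin q := ⟨0, by omega⟩
  obtain ⟨s, hs1, -, hs2⟩ := exists_subsuperset_card_eq
    (subset_univ ((univ : Finset (Fin p)).image fun i => (i, z))) (n := v - p) (by
      rw [card_image_of_injective _ (fun i j h => (Prod.ext_iff.1 h).1), card_univ,
        Fintype.card_fin]
      omega) (by
      rw [card_univ, Fintype.card_prod, Fintype.card_fin, Fintype.card_fin]
      have : p * (1 + q) = p + p * q := by ring
      omega)
  have hs : ∀ i, ∃ j, (i, j) ∈ s := fun i => ⟨z, hs1 (mem_image_of_mem _ (mem_univ i))⟩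
  have hcard : Fintype.card (PV p q) = 2 * p + q := by
    rw [Fintype.card_sum, Fintype.card_prod, Fintype.card_fin, Fintype.card_fin,
      Fintype.card_bool]
    ring
  refine ⟨mapF (Fintype.equivFinOfCardEq hcard).toEmbedding (s.image tr),
    (good_tr.sub (image_subset_image (subset_univ s))).map (by norm_num) _, ?_⟩
  rw [NN_mapF, NN_tr hs, hs2]
  have : p ≤ v := by omega
  push_cast [this]
  ring

end

/-- All gains from `2` to `⌊(n+1)²/8⌋`. -/
theorem con_two {n v : ℕ} (hn : 5 ≤ n) (h2 : 2 ≤ v) (hv : 8 * v ≤ (n + 1) ^ 2) :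
    Val n 2 (-(v : ℤ)) := by
  classical
  have hex : ∃ r : ℕ, 4 * r ≤ n + 2 ∧ v ≤ r * (n + 1 - 2 * r) := by
    refine ⟨(n + 2) / 4, Nat.mul_div_le _ _, ?_⟩
    obtain ⟨r, hr⟩ : ∃ r, r = (n + 2) / 4 := ⟨_, rfl⟩
    rw [← hr]
    have e1 : 4 * r ≤ n + 2 := by omega
    have e2 : n + 2 ≤ 4 * r + 3 := by omega
    obtain ⟨k, hk⟩ : ∃ k, n + 1 = 2 * r + k := ⟨n + 1 - 2 * r, by omega⟩
    have e3 : n + 1 - 2 * r = k := by omega
    rw [e3]
    rw [hk] at hv
    by_contra hcon
    push Not at hcon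
    have e4 : 2 * r ≤ k + 1 := by omega
    have e5 : k ≤ 2 * r + 2 := by omega
    have e6 : (2 * (r : ℤ)) ≤ k + 1 := by exact_mod_cast e4
    have e7 : (k : ℤ) ≤ 2 * r + 2 := by exact_mod_cast e5
    have e8 : (r : ℤ) * k + 1 ≤ v := by exact_mod_cast hcon
    have e9 : 8 * (v : ℤ) ≤ (2 * r + k) ^ 2 := by exact_mod_cast hv
    nlinarith
  set r := Nat.find hex with hr
  have hspec := Nat.find_spec hex
  rw [← hr] at hspec
  obtain ⟨h4, h5⟩ := hspec
  have h0 : 1 ≤ r := by
    by_contra h
    have : r = 0 := by omega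
    rw [this] at h5
    omega
  have h6 : 2 * r ≤ v := by
    rcases Nat.lt_or_ge r 2 with h | h
    · omega
    · have hmin := Nat.find_min hex (m := r - 1) (by omega)
      rw [not_and] at hmin
      have h7 := hmin (by omega)
      push Not at h7
      obtain ⟨a, ha⟩ : ∃ a, r = a + 2 := ⟨r - 2, by omega⟩
      have e1 : r - 1 = a + 1 := by omega
      rw [e1] at h7
      rw [ha] at h4 ⊢
      have e2 : 2 * a + 5 ≤ n + 1 - 2 * (a + 1) := by omega
      have e3 : (a + 1) * (2 * a + 5) ≤ (a + 1) * (n + 1 - 2 * (a + 1)) :=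
        Nat.mul_le_mul_left _ e2
      nlinarith
  have h7 := val_neg (p := r) (q := n - 2 * r) (v := v) (by omega) h6 (by
    have : 1 + (n - 2 * r) = n + 1 - 2 * r := by omega
    rw [this]
    exact h5)
  have e : 2 * r + (n - 2 * r) = n := by omega
  rwa [e] at h7

/-- Gain one. -/
theorem con_one {n : ℕ} (hn : 6 ≤ n) : Val n 2 (-1) := by
  have h : Val (1 + 4) 1 (-1) := by
    refine ⟨powersetCard 2 {0, 1}, clo_full le_rfl _, ?_⟩
    decide +kernel
  have h2 := cone_one (l := 1) (d := 4) le_rfl (by norm_num) h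
  have e : f (1 + 1) (4 - 1) + (-1) = -1 := by decide +kernel
  rw [e] at h2
  exact h2.mono (by norm_num) hn

/-- The least element of `S(n,2)`, attained. -/
theorem min_two {d m : ℕ} (hd : 3 ≤ d) (hm : m + (2 + d + 1) ^ 2 / 8 = (2 + d).choose 2) :
    m ∈ S (2 + d) 2 := by
  rw [val_iff (by omega)]
  have e : (m : ℤ) - (2 + d).choose 2 = -(((2 + d + 1) ^ 2 / 8 : ℕ) : ℤ) := by
    rw [← hm, Nat.cast_add]
    ring
  rw [e]
  refine con_two (by omega) ?_ (Nat.mul_div_le _ _)
  rw [Nat.le_div_iff_mul_le (by norm_num)]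
  nlinarith

/-- For `l = 2` there are no gaps from the minimum to `T(n,2)`. -/
theorem int_two {d m : ℕ} (hd : 3 ≤ d) (h1 : (2 + d).choose 2 ≤ m + (2 + d + 1) ^ 2 / 8)
    (h2 : (m : ℤ) ≤ (2 + d).choose (2 + 1) - cc d) : m ∈ S (2 + d) 2 := by
  rw [val_iff (by omega)]
  by_cases c1 : (2 + d).choose 2 ≤ m
  · have : ((2 + d).choose 2 : ℤ) ≤ m := by exact_mod_cast c1
    exact interval 2 le_rfl d (by omega) _ (by linarith) (by unfold f; linarith)
  · push Not at c1
    obtain ⟨v, hv⟩ : ∃ v, (2 + d).choose 2 = m + v := ⟨(2 + d).choose 2 - m, by omega⟩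
    have e : (m : ℤ) - (2 + d).choose 2 = -(v : ℤ) := by
      rw [hv]
      push_cast
      ring
    rw [e]
    rcases Nat.lt_or_ge v 2 with h | h
    · have hv1 : v = 1 := by omega
      subst hv1
      rcases Nat.lt_or_ge d 4 with h3 | h3
      · have : d = 3 := by omega
        subst this
        exfalso
        have e1 : (2 + 3).choose 2 = 10 := by decide
        have e2 : (((2 + 3).choose (2 + 1) : ℕ) : ℤ) - cc 3 = 6 := by decide +kernel
        rw [e1] at hv
        rw [e2] at h2
        omega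
      · exact con_one (by omega)
    · refine con_two (by omega) h ?_
      have : v ≤ (2 + d + 1) ^ 2 / 8 := by omega
      calc 8 * v ≤ 8 * ((2 + d + 1) ^ 2 / 8) := Nat.mul_le_mul_left _ this
        _ ≤ (2 + d + 1) ^ 2 := Nat.mul_div_le _ _

end Pool.Agent.Work.MP_0ea01d_co.Det
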