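import Pool.Agent.Work.MP_0ea01d_co.Det.Defs

/-!
# Level 2: the lower bound for the sizes

Let `F` be a closed family of triples on `n` points, `E = |Gr 2 F|`, `t = |F|`. Then
`8 (E - t) ≤ (n + 1)²`. Proof: let `d x` be the degree of `x` in the graph `Gr 2 F` and `w e ≥ 1`
the number of members containing the edge `e`. For a member with edges `e₁, e₂, e₃` and degree sums
`D₁, D₂, D₃` one has `D i ≤ n + w i` and `D₁ + D₂ + D₃ ≤ 2 (n + w₁ + w₂ + w₃)`, hence
`∑ (D i - 2) / w i ≤ 2 n` (`tri_ineq`). Summing over the members, `∑ d² - 2 E ≤ 2 n t`, and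
`4 E² ≤ n ∑ d²`.
-/

set_option autoImplicit false

namespace Pool.Agent.Work.MP_0ea01d_co.Det

open Finset

/-- one large edge, two edges of weight one -/
private theorem tri_a {n a D₁ D₂ D₃ : ℚ} (ha : 1 ≤ a) (h2 : D₂ ≤ n + 1) (h3 : D₃ ≤ n + 1)
    (hs : D₁ + D₂ + D₃ ≤ 2 * (n + a + 1 + 1)) :
    (D₁ - 2) / a + (D₂ - 2) + (D₃ - 2) ≤ 2 * n := by
  have h0 : 0 < a := by linarith
  have h1 : D₁ - 2 ≤ (2 * n - (D₂ - 2) - (D₃ - 2)) * a := by
    nlinarith [mul_nonneg (show (0 : ℚ) ≤ a - 1 by linarith)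
      (show (0 : ℚ) ≤ 2 * n + 2 - D₂ - D₃ by linarith)]
  have h4 : (D₁ - 2) / a ≤ 2 * n - (D₂ - 2) - (D₃ - 2) := (div_le_iff₀ h0).2 h1
  linarith

private theorem part_one {n a D : ℚ} (hn : 2 ≤ n) (ha : 1 ≤ a) (h : D ≤ n + a) :
    (D - 2) / a ≤ n - 1 := by
  rw [div_le_iff₀ (by linarith)]
  nlinarith [mul_nonneg (show (0 : ℚ) ≤ a - 1 by linarith) (show (0 : ℚ) ≤ n - 2 by linarith)]

private theorem part_two {n a D : ℚ} (hn : 2 ≤ n) (ha : 2 ≤ a) (h : D ≤ n + a) :
    (D - 2) / a ≤ n / 2 := by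
  rw [div_le_iff₀ (by linarith)]
  nlinarith [mul_nonneg (show (0 : ℚ) ≤ a - 2 by linarith) (show (0 : ℚ) ≤ n - 2 by linarith)]

theorem tri_ineq {n a b c D₁ D₂ D₃ : ℕ} (hn : 2 ≤ n) (ha : 1 ≤ a) (hb : 1 ≤ b) (hc : 1 ≤ c)
    (h1 : D₁ ≤ n + a) (h2 : D₂ ≤ n + b) (h3 : D₃ ≤ n + c)
    (hs : D₁ + D₂ + D₃ ≤ 2 * (n + a + b + c)) :
    ((D₁ : ℚ) - 2) / a + ((D₂ : ℚ) - 2) / b + ((D₃ : ℚ) - 2) / c ≤ 2 * n := by
  have hn' : (2 : ℚ) ≤ n := by exact_mod_cast hn
  have h1' : (D₁ : ℚ) ≤ n + a := by exact_mod_cast h1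
  have h2' : (D₂ : ℚ) ≤ n + b := by exact_mod_cast h2
  have h3' : (D₃ : ℚ) ≤ n + c := by exact_mod_cast h3
  have ha' : (1 : ℚ) ≤ a := by exact_mod_cast ha
  have hb' : (1 : ℚ) ≤ b := by exact_mod_cast hb
  have hc' : (1 : ℚ) ≤ c := by exact_mod_cast hc
  have hs' : (D₁ : ℚ) + D₂ + D₃ ≤ 2 * (n + a + b + c) := by exact_mod_cast hs
  have c2 : ∀ w : ℕ, 1 ≤ w → w ≠ 1 → (2 : ℚ) ≤ w := by
    intro w hw hw1
    have : 2 ≤ w := by omega
    exact_mod_cast this
  by_cases ha1 : a = 1
  · subst ha1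
    by_cases hb1 : b = 1
    · subst hb1
      have h := tri_a (n := n) (a := c) (D₁ := D₃) (D₂ := D₁) (D₃ := D₂) hc' (by simpa using h1')
        (by simpa using h2') (by push_cast at hs'; linarith)
      simp only [Nat.cast_one, div_one]
      linarith
    · by_cases hc1 : c = 1
      · subst hc1
        have h := tri_a (n := n) (a := b) (D₁ := D₂) (D₂ := D₁) (D₃ := D₃) hb'
          (by simpa using h1') (by simpa using h3') (by push_cast at hs'; linarith)
        simp only [Nat.cast_one, div_one]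
        linarith
      · have e1 := part_one hn' ha' h1'
        have e2 := part_two hn' (c2 b hb hb1) h2'
        have e3 := part_two hn' (c2 c hc hc1) h3'
        linarith
  · by_cases hb1 : b = 1
    · subst hb1
      by_cases hc1 : c = 1
      · subst hc1
        have h := tri_a (n := n) (a := a) (D₁ := D₁) (D₂ := D₂) (D₃ := D₃) ha'
          (by simpa using h2') (by simpa using h3') (by push_cast at hs'; linarith)
        simp only [Nat.cast_one, div_one]
        linarith
      · have e1 := part_two hn' (c2 a ha ha1) h1'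
        have e2 := part_one hn' hb' h2'
        have e3 := part_two hn' (c2 c hc hc1) h3'
        linarith
    · have e1 := part_two hn' (c2 a ha ha1) h1'
      have e2 := part_two hn' (c2 b hb hb1) h2'
      have e3 := part_one hn' hc' h3'
      linarith

variable {n : ℕ}

/-- The points `y` such that `{x, y}` lies in a member of `F`. -/
def Nb (F : Finset (Finset (Fin n))) (x : Fin n) : Finset (Fin n) :=
  univ.filter fun y => {x, y} ∈ Gr 2 F

/-- The number of members containing `e`. -/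
def wt (F : Finset (Finset (Fin n))) (e : Finset (Fin n)) : ℕ := (F.filter fun T => e ⊆ T).card

theorem mem_Nb {F : Finset (Finset (Fin n))} {x y : Fin n} :
    y ∈ Nb F x ↔ {x, y} ∈ Gr 2 F := by
  simp [Nb]

theorem ne_of_mem {F : Finset (Finset (Fin n))} {x y : Fin n} (h : {x, y} ∈ Gr 2 F) : x ≠ y := by
  rintro rfl
  obtain ⟨T, -, -, hc⟩ := mem_Gr.1 h
  simp at hc

theorem card_star (F : Finset (Finset (Fin n))) (x : Fin n) :
    ((Gr 2 F).filter fun e => x ∈ e).card = (Nb F x).card := by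
  symm
  refine card_bij (fun y _ => {x, y}) ?_ ?_ ?_
  · intro y hy
    rw [mem_filter]
    exact ⟨mem_Nb.1 hy, by simp⟩
  · intro y hy z hz h
    have h1 := ne_of_mem (mem_Nb.1 hy)
    have h2 : y ∈ ({x, z} : Finset (Fin n)) := by
      rw [← h]
      simp
    rw [mem_insert, mem_singleton] at h2
    rcases h2 with h2 | h2
    · exact absurd h2.symm h1
    · exact h2
  · intro e he
    rw [mem_filter] at he
    obtain ⟨he, hx⟩ := he
    obtain ⟨T, -, -, hc⟩ := mem_Gr.1 he
    obtain ⟨a, b, hab, rfl⟩ := card_eq_two.1 hc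
    rw [mem_insert, mem_singleton] at hx
    rcases hx with rfl | rfl
    · exact ⟨b, mem_Nb.2 he, rfl⟩
    · exact ⟨a, mem_Nb.2 (by rwa [pair_comm]), by rw [pair_comm]⟩

theorem wt_eq {F : Finset (Finset (Fin n))} (hF : Clo 2 F) {x y : Fin n}
    (h : {x, y} ∈ Gr 2 F) : wt F {x, y} = (Nb F x ∩ Nb F y).card := by
  have hxy := ne_of_mem h
  unfold wt
  symm
  refine card_bij (fun z _ => {x, y, z}) ?_ ?_ ?_
  · intro z hz
    rw [mem_inter, mem_Nb, mem_Nb] at hz
    have hxz := ne_of_mem hz.1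
    have hyz := ne_of_mem hz.2
    have hc : ({x, y, z} : Finset (Fin n)).card = 3 := card_eq_three.2 ⟨x, y, z, hxy, hxz, hyz, rfl⟩
    rw [mem_filter]
    refine ⟨hF.closed _ hc fun Y hY hYc => ?_, ?_⟩
    · obtain ⟨a, b, hab, rfl⟩ := card_eq_two.1 hYc
      have ha : a = x ∨ a = y ∨ a = z := by
        have := hY (mem_insert_self a _)
        simpa using this
      have hb : b = x ∨ b = y ∨ b = z := by
        have := hY (show b ∈ ({a, b} : Finset (Fin n)) by simp)
        simpa using this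
      have key : ({a, b} : Finset (Fin n)) ∈ Gr 2 F := by
        rcases ha with rfl | rfl | rfl <;> rcases hb with rfl | rfl | rfl
        · exact absurd rfl hab
        · exact h
        · exact hz.1
        · rw [pair_comm]; exact h
        · exact absurd rfl hab
        · exact hz.2
        · rw [pair_comm]; exact hz.1
        · rw [pair_comm]; exact hz.2
        · exact absurd rfl hab
      obtain ⟨T, hT, hsub, -⟩ := mem_Gr.1 key
      exact ⟨T, hT, hsub⟩
    · intro u hu
      rw [mem_insert, mem_singleton] at hu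
      rcases hu with rfl | rfl <;> simp
  · intro z hz z' hz' he
    rw [mem_inter, mem_Nb, mem_Nb] at hz
    have hxz := ne_of_mem hz.1
    have hyz := ne_of_mem hz.2
    have h2 : z ∈ ({x, y, z'} : Finset (Fin n)) := by
      rw [← he]
      simp
    simp only [mem_insert, mem_singleton] at h2
    rcases h2 with h2 | h2 | h2
    · exact absurd h2.symm hxz
    · exact absurd h2.symm hyz
    · exact h2
  · intro T hT
    rw [mem_filter] at hT
    obtain ⟨hT, hsub⟩ := hT
    have hc := hF.card T hT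
    have hcard : (T \ {x, y}).card = 1 := by
      rw [card_sdiff_of_subset hsub, hc, card_pair hxy]
    obtain ⟨z, hz⟩ := card_eq_one.1 hcard
    have hzT : z ∈ T \ {x, y} := by rw [hz]; simp
    rw [mem_sdiff, mem_insert, mem_singleton, not_or] at hzT
    have hxT : x ∈ T := hsub (by simp)
    have hyT : y ∈ T := hsub (by simp)
    refine ⟨z, ?_, ?_⟩
    · rw [mem_inter, mem_Nb, mem_Nb]
      refine ⟨mem_Gr.2 ⟨T, hT, ?_, card_pair (Ne.symm hzT.2.1)⟩,
        mem_Gr.2 ⟨T, hT, ?_, card_pair (Ne.symm hzT.2.2)⟩⟩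
      · intro u hu
        rw [mem_insert, mem_singleton] at hu
        rcases hu with rfl | rfl
        · exact hxT
        · exact hzT.1
      · intro u hu
        rw [mem_insert, mem_singleton] at hu
        rcases hu with rfl | rfl
        · exact hyT
        · exact hzT.1
    · have e : T = {x, y} ∪ (T \ {x, y}) := (union_sdiff_of_subset hsub).symm
      rw [e, hz]
      ext u
      simp only [mem_insert, mem_singleton, mem_union]
      tauto

/-- The term of an edge. -/
private noncomputable def g (F : Finset (Finset (Fin n))) (e : Finset (Fin n)) : ℚ :=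
  (((∑ x ∈ e, (Nb F x).card : ℕ) : ℚ) - 2) / wt F e

private theorem sum_member {F : Finset (Finset (Fin n))} (hF : Clo 2 F) {T : Finset (Fin n)}
    (hT : T ∈ F) : ∑ e ∈ powersetCard 2 T, g F e ≤ 2 * n := by
  obtain ⟨x, y, z, hxy, hxz, hyz, rfl⟩ := card_eq_three.1 (hF.card T hT)
  have hp : powersetCard 2 ({x, y, z} : Finset (Fin n)) = {{x, y}, {x, z}, {y, z}} := by
    ext e
    rw [mem_powersetCard]
    simp only [mem_insert, mem_singleton]
    constructor
    · rintro ⟨hs, hc⟩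
      obtain ⟨a, b, hab, rfl⟩ := card_eq_two.1 hc
      have ha : a = x ∨ a = y ∨ a = z := by
        have := hs (mem_insert_self a _)
        simpa using this
      have hb : b = x ∨ b = y ∨ b = z := by
        have := hs (show b ∈ ({a, b} : Finset (Fin n)) by simp)
        simpa using this
      rcases ha with rfl | rfl | rfl <;> rcases hb with rfl | rfl | rfl
      · exact absurd rfl hab
      · exact Or.inl rfl
      · exact Or.inr (Or.inl rfl)
      · exact Or.inl (pair_comm _ _)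
      · exact absurd rfl hab
      · exact Or.inr (Or.inr rfl)
      · exact Or.inr (Or.inl (pair_comm _ _))
      · exact Or.inr (Or.inr (pair_comm _ _))
      · exact absurd rfl hab
    · rintro (rfl | rfl | rfl)
      · exact ⟨by intro u hu; simp only [mem_insert, mem_singleton] at hu ⊢; tauto, card_pair hxy⟩
      · exact ⟨by intro u hu; simp only [mem_insert, mem_singleton] at hu ⊢; tauto, card_pair hxz⟩
      · exact ⟨by intro u hu; simp only [mem_insert, mem_singleton] at hu ⊢; tauto, card_pair hyz⟩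
  have hmem : ∀ e ∈ powersetCard 2 ({x, y, z} : Finset (Fin n)), e ∈ Gr 2 F := by
    intro e he
    rw [mem_powersetCard] at he
    exact mem_Gr.2 ⟨_, hT, he.1, he.2⟩
  have m1 : ({x, y} : Finset (Fin n)) ∈ Gr 2 F := hmem _ (by rw [hp]; simp)
  have m2 : ({x, z} : Finset (Fin n)) ∈ Gr 2 F := hmem _ (by rw [hp]; simp)
  have m3 : ({y, z} : Finset (Fin n)) ∈ Gr 2 F := hmem _ (by rw [hp]; simp)
  have n1 : ({x, y} : Finset (Fin n)) ≠ {x, z} := by
    intro h
    have : y ∈ ({x, z} : Finset (Fin n)) := by rw [← h]; simp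
    rw [mem_insert, mem_singleton] at this
    rcases this with h | h
    · exact hxy h.symm
    · exact hyz h
  have n2 : ({x, y} : Finset (Fin n)) ≠ {y, z} := by
    intro h
    have : x ∈ ({y, z} : Finset (Fin n)) := by rw [← h]; simp
    rw [mem_insert, mem_singleton] at this
    rcases this with h | h
    · exact hxy h
    · exact hxz h
  have n3 : ({x, z} : Finset (Fin n)) ≠ {y, z} := by
    intro h
    have : x ∈ ({y, z} : Finset (Fin n)) := by rw [← h]; simp
    rw [mem_insert, mem_singleton] at this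
    rcases this with h | h
    · exact hxy h
    · exact hxz h
  rw [hp, sum_insert (by simp [n1, n2]), sum_insert (by simp [n3]), sum_singleton]
  unfold g
  rw [sum_pair hxy, sum_pair hxz, sum_pair hyz]
  have hw : ∀ {a b : Fin n}, ({a, b} : Finset (Fin n)) ∈ Gr 2 F →
      ({a, b} : Finset (Fin n)) ⊆ {x, y, z} → 1 ≤ wt F {a, b} := by
    intro a b _ hs
    unfold wt
    exact card_pos.2 ⟨_, mem_filter.2 ⟨hT, hs⟩⟩
  have w1 := hw m1 (by intro u hu; simp only [mem_insert, mem_singleton] at hu ⊢; tauto)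
  have w2 := hw m2 (by intro u hu; simp only [mem_insert, mem_singleton] at hu ⊢; tauto)
  have w3 := hw m3 (by intro u hu; simp only [mem_insert, mem_singleton] at hu ⊢; tauto)
  have e1 := wt_eq hF m1
  have e2 := wt_eq hF m2
  have e3 := wt_eq hF m3
  have hu : ∀ s : Finset (Fin n), s.card ≤ n := fun s => card_finset_fin_le s
  have c1 := card_union_add_card_inter (Nb F x) (Nb F y)
  have c2 := card_union_add_card_inter (Nb F x) (Nb F z)
  have c3 := card_union_add_card_inter (Nb F y) (Nb F z)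
  have u1 := hu (Nb F x ∪ Nb F y)
  have u2 := hu (Nb F x ∪ Nb F z)
  have u3 := hu (Nb F y ∪ Nb F z)
  have c4 := card_union_add_card_inter (Nb F x ∪ Nb F y) (Nb F z)
  have u4 := hu (Nb F x ∪ Nb F y ∪ Nb F z)
  have c5 : ((Nb F x ∪ Nb F y) ∩ Nb F z).card ≤ (Nb F x ∩ Nb F z).card + (Nb F y ∩ Nb F z).card := by
    rw [union_inter_distrib_right]
    exact card_union_le _ _
  have hn2 : 2 ≤ n := by
    have := hu {x, y}
    rwa [card_pair hxy] at this
  have h := tri_ineq (D₁ := (Nb F x).card + (Nb F y).card) (D₂ := (Nb F x).card + (Nb F z).card)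
    (D₃ := (Nb F y).card + (Nb F z).card) hn2 w1 w2 w3 (by omega) (by omega) (by omega) (by omega)
  linarith

/-- `∑ d² ≤ 2 n |F| + 2 |Gr 2 F|`. -/
theorem sum_sq_le {F : Finset (Finset (Fin n))} (hF : Clo 2 F) :
    ∑ x, (Nb F x).card * (Nb F x).card ≤ 2 * n * F.card + 2 * (Gr 2 F).card := by
  have h1 : ∑ T ∈ F, ∑ e ∈ powersetCard 2 T, g F e ≤ ∑ T ∈ F, (2 * n : ℚ) :=
    sum_le_sum fun T hT => sum_member hF hT
  have h2 : ∑ T ∈ F, ∑ e ∈ powersetCard 2 T, g F e =
      ∑ e ∈ Gr 2 F, ∑ T ∈ F.filter (fun T => e ⊆ T), g F e := by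
    apply sum_comm'
    intro T e
    rw [mem_powersetCard, mem_filter, mem_Gr]
    constructor
    · rintro ⟨a, b, c⟩
      exact ⟨⟨a, b⟩, T, a, b, c⟩
    · rintro ⟨⟨a, b⟩, T', _, _, c⟩
      exact ⟨a, b, c⟩
  have h3 : ∀ e ∈ Gr 2 F, ∑ T ∈ F.filter (fun T => e ⊆ T), g F e =
      ((∑ x ∈ e, (Nb F x).card : ℕ) : ℚ) - 2 := by
    intro e he
    rw [sum_const, nsmul_eq_mul]
    have hw : (wt F e : ℚ) ≠ 0 := by
      obtain ⟨T, hT, hs, _⟩ := mem_Gr.1 he
      have : 0 < wt F e := card_pos.2 ⟨T, mem_filter.2 ⟨hT, hs⟩⟩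
      positivity
    change (wt F e : ℚ) * ((((∑ x ∈ e, (Nb F x).card : ℕ) : ℚ) - 2) / wt F e) = _
    field_simp
  have h4 : ∑ e ∈ Gr 2 F, ∑ x ∈ e, (Nb F x).card = ∑ x, (Nb F x).card * (Nb F x).card := by
    have h5 : ∑ e ∈ Gr 2 F, ∑ x ∈ e, (Nb F x).card =
        ∑ x, ∑ e ∈ (Gr 2 F).filter (fun e => x ∈ e), (Nb F x).card := by
      apply sum_comm'
      intro e x
      rw [mem_filter]
      simp
    rw [h5]
    refine sum_congr rfl fun x _ => ?_
    rw [sum_const, smul_eq_mul, card_star]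
  rw [h2, sum_congr rfl h3, sum_sub_distrib, sum_const, sum_const, nsmul_eq_mul, nsmul_eq_mul,
    ← Nat.cast_sum, h4] at h1
  have h6 : ((∑ x, (Nb F x).card * (Nb F x).card : ℕ) : ℚ) ≤
      ((2 * n * F.card + 2 * (Gr 2 F).card : ℕ) : ℚ) := by
    push_cast at h1 ⊢
    linarith
  exact_mod_cast h6

theorem sum_deg {F : Finset (Finset (Fin n))} :
    ∑ x, (Nb F x).card = 2 * (Gr 2 F).card := by
  have h5 : ∑ e ∈ Gr 2 F, ∑ _x ∈ e, 1 =
      ∑ x, ∑ _e ∈ (Gr 2 F).filter (fun e => x ∈ e), 1 := by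
    apply sum_comm'
    intro e x
    rw [mem_filter]
    simp
  have h6 : ∑ e ∈ Gr 2 F, ∑ _x ∈ e, 1 = ∑ e ∈ Gr 2 F, 2 := by
    refine sum_congr rfl fun e he => ?_
    obtain ⟨_, _, _, hc⟩ := mem_Gr.1 he
    rw [sum_const, smul_eq_mul, hc]
  rw [h6, sum_const, smul_eq_mul] at h5
  rw [mul_comm, h5]
  refine sum_congr rfl fun x _ => ?_
  rw [sum_const, smul_eq_mul, mul_one, card_star]

/-- The gain of a closed family of triples. -/
theorem NN_two_le {F : Finset (Finset (Fin n))} (hF : Clo 2 F) :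
    8 * NN 2 F ≤ ((n : ℤ) + 1) ^ 2 := by
  have h1 := sum_sq_le hF
  have h2 := sum_deg (F := F)
  have h3 : (∑ x, ((Nb F x).card : ℤ)) ^ 2 ≤
      (n : ℤ) * ∑ x, ((Nb F x).card : ℤ) ^ 2 := by
    have := sq_sum_le_card_mul_sum_sq (s := (univ : Finset (Fin n)))
      (f := fun x => ((Nb F x).card : ℤ))
    rwa [card_univ, Fintype.card_fin] at this
  have h1' : ∑ x, ((Nb F x).card : ℤ) ^ 2 ≤ 2 * n * F.card + 2 * (Gr 2 F).card := by
    have : ((∑ x, (Nb F x).card * (Nb F x).card : ℕ) : ℤ) ≤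
        ((2 * n * F.card + 2 * (Gr 2 F).card : ℕ) : ℤ) := by exact_mod_cast h1
    push_cast at this
    simpa only [sq] using this
  have h2' : ∑ x, ((Nb F x).card : ℤ) = 2 * (Gr 2 F).card := by exact_mod_cast h2
  rw [h2'] at h3
  unfold NN
  generalize ((Gr 2 F).card : ℤ) = E at *
  generalize hs : ∑ x, ((Nb F x).card : ℤ) ^ 2 = s at *
  rcases Nat.eq_zero_or_pos n with hn | hn
  · subst hn
    have : (0 : ℤ) ≤ F.card := by positivity
    have hE : E ^ 2 ≤ 0 := by
      push_cast at h3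
      nlinarith
    have hE0 : E = 0 := by
      have := sq_nonneg E
      have : E ^ 2 = 0 := le_antisymm hE this
      exact pow_eq_zero_iff (two_ne_zero) |>.1 this
    rw [hE0]
    push_cast
    linarith
  · have hn' : (0 : ℤ) < n := by exact_mod_cast hn
    have h4 : (2 * E) ^ 2 ≤ (n : ℤ) * (2 * n * F.card + 2 * E) :=
      h3.trans (mul_le_mul_of_nonneg_left h1' hn'.le)
    have h5 : (n : ℤ) ^ 2 * (8 * (E - F.card)) ≤ (n : ℤ) ^ 2 * ((n : ℤ) + 1) ^ 2 := by
      nlinarith [sq_nonneg ((n : ℤ) * (n + 1) - 4 * E)]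
    exact le_of_mul_le_mul_left h5 (by positivity)

/-- The lower bound for the elements of `S(n,2)`. -/
theorem low_two {m : ℕ} (hn : 3 ≤ n) (hm : m ∈ S n 2) :
    n.choose 2 ≤ m + (n + 1) ^ 2 / 8 := by
  obtain ⟨F, hF, hm⟩ := exists_clo_of_mem_S (by omega) hm
  have h := NN_two_le hF
  have h1 : NN 2 F ≤ (((n + 1) ^ 2 / 8 : ℕ) : ℤ) := by
    push_cast
    rw [Int.le_ediv_iff_mul_le (by norm_num)]
    linarith
  have h2 : (n.choose 2 : ℤ) ≤ m + (((n + 1) ^ 2 / 8 : ℕ) : ℤ) := by linarith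
  exact_mod_cast h2

end Pool.Agent.Work.MP_0ea01d_co.Det
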