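import Pool.Agent.Work.MP_0ea01d_co.Det.UpHalf

/-!
# The part above `T(n,l)`: necessity in the small cases

`upper_half` needs `n - l ≥ 5`. The pairs `(n, l) = (5, 2), (6, 2), (7, 3)` remain.
-/

set_option autoImplicit false

namespace Pool.Agent.Work.MP_0ea01d_co.Det

open Finset

/-- Few pairs carry few triples. -/
private theorem few {D : Finset (Finset (Fin (3 + 4)))} (hD : ∀ X ∈ D, X.card = 3)
    (h9 : (shadow D).card ≤ 9) : D.card ≤ (shadow D).card := by
  rcases Nat.lt_or_ge D.card 5 with h | h
  · have h1 := small_shadow hD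
    have h2 : D.card = 0 ∨ D.card = 1 ∨ D.card = 2 ∨ D.card = 3 ∨ D.card = 4 := by omega
    have c0 : Nat.choose 0 2 = 0 := by decide
    have c1 : Nat.choose 1 2 = 0 := by decide
    have c2 : Nat.choose 2 2 = 1 := by decide
    have c3 : Nat.choose 3 2 = 3 := by decide
    have c4 : Nat.choose 4 2 = 6 := by decide
    rcases h2 with h2 | h2 | h2 | h2 | h2 <;> rw [h2] at h1 ⊢ <;> omega
  · have h1 := kk_core (l := 4) (d := 3) (by norm_num) (A := D) hD (by omega)
    have k0 : (4 + 3).choose (4 + 1) = 21 := by decide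
    rw [k0] at h1
    rcases h1 with ⟨h2, h3⟩ | ⟨i, D', h1, h4, -, h5, h6, h7⟩
    · have : (21 : ℤ) ≤ 9 := h3.trans (by exact_mod_cast h9)
      norm_num at this
    · have h9' : ((shadow D).card : ℤ) ≤ 9 := by exact_mod_cast h9
      have hi : i = 1 ∨ i = 2 ∨ i = 3 := by omega
      rcases hi with rfl | rfl | rfl
      · have k1 : f 1 3 = 2 := by decide +kernel
        have k2 : (1 + 3).choose 1 = 4 := by decide
        rw [k1] at h6
        rw [k2] at h5
        push_cast at h5
        omega
      · have k1 : f 2 3 = 0 := by decide +kernel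
        have k2 : (2 + 3).choose 2 = 10 := by decide
        rw [k1] at h6
        rw [k2] at h5
        push_cast at h5
        omega
      · have k1 : f 3 3 = -5 := by decide +kernel
        have k2 : (3 + 3).choose 3 = 20 := by decide
        rw [k1] at h6
        rw [k2] at h5
        push_cast at h5
        omega

private theorem five_three {A : Finset (Finset (Fin (3 + 4)))} (hA : ∀ X ∈ A, X.card = 4)
    (ht : 6 ≤ A.card) (hs : (shadow A).card ≤ 29) : A.card + 5 ≤ (shadow A).card := by
  have h1 := kk_core (l := 3) (d := 4) (by norm_num) hA (by omega)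
  have k0 : (3 + 4).choose (3 + 1) = 35 := by decide
  rw [k0] at h1
  have hs' : ((shadow A).card : ℤ) ≤ 29 := by exact_mod_cast hs
  rcases h1 with ⟨h2, h3⟩ | ⟨i, D, h1, h4, h8, h5, h6, h7⟩
  · push_cast at h3
    linarith
  · have hi : i = 1 ∨ i = 2 := by omega
    rcases hi with rfl | rfl
    · have k1 : f 1 4 = 5 := by decide +kernel
      rw [k1] at h6
      omega
    · have k1 : f 2 4 = 5 := by decide +kernel
      have k2 : (2 + 4).choose 2 = 15 := by decide
      rw [k1] at h6
      rw [k2] at h5
      push_cast at h5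
      have h9 := few (D := D) h8 (by omega)
      omega

private theorem five_two {A : Finset (Finset (Fin (2 + 4)))} (hA : ∀ X ∈ A, X.card = 4)
    (ht : 6 ≤ A.card) : A.card + 5 ≤ (shadow A).card := by
  have h1 := kk_core (l := 2) (d := 4) (by norm_num) hA (by omega)
  have k0 : (2 + 4).choose (2 + 1) = 20 := by decide
  have k1 : (2 + 4).choose 2 = 15 := by decide
  rw [k0, k1] at h1
  rcases h1 with ⟨h2, h3⟩ | ⟨i, D, h1, h4, h8, h5, h6, h7⟩
  · push_cast at h3
    omega
  · have hi : i = 1 := by omega
    subst hi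
    have k1 : f 1 4 = 5 := by decide +kernel
    rw [k1] at h6
    omega

private theorem compls_card {n l k : ℕ} (h : l + k = n) {G : Finset (Finset (Fin n))}
    (hG : ∀ X ∈ G, X.card = l) : ∀ X ∈ G.compls, X.card = k := by
  intro X hX
  rw [mem_compls] at hX
  have h4 := hG _ hX
  rw [card_compl, Fintype.card_fin] at h4
  have h5 := card_le_univ X
  rw [Fintype.card_fin] at h5
  omega

/-- The small cases. -/
private theorem up_small {l d m : ℕ} (h : (l = 2 ∧ d = 3) ∨ (l = 2 ∧ d = 4) ∨ (l = 3 ∧ d = 4))
    (hm : m ∈ S (l + d) l) :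
    (m : ℤ) ≤ (l + d).choose (l + 1) - cc d ∨
    (m < (l + d).choose (l + 1) ∧ ∃ t x : ℕ, 1 ≤ t ∧ t ≤ d + 1 ∧ Rep t x ∧
      (m : ℤ) = (l + d).choose (l + 1) - t * ((d : ℤ) - 1) + x) ∨
    m = (l + d).choose (l + 1) := by
  by_cases c1 : (m : ℤ) ≤ (l + d).choose (l + 1) - cc d
  · exact Or.inl c1
  right
  push Not at c1
  by_cases c2 : m = (l + d).choose (l + 1)
  · exact Or.inr c2
  left
  -- a family of at most `d + 1` sets gives the form
  have hform : ∀ G : Finset (Finset (Fin (l + d))), (∀ X ∈ G, X.card = l) → G.card ≤ d + 1 →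
      (m : ℤ) = (l + d).choose (l + 1) - ((upShadow G).card - G.card) →
      ∃ t x : ℕ, 1 ≤ t ∧ t ≤ d + 1 ∧ Rep t x ∧
        (m : ℤ) = (l + d).choose (l + 1) - t * ((d : ℤ) - 1) + x := by
    intro G hG hc hmG
    have hne : G.Nonempty := by
      rw [nonempty_iff_ne_empty]
      rintro rfl
      apply c2
      have : (m : ℤ) = (l + d).choose (l + 1) := by
        rw [hmG]
        simp
      exact_mod_cast this
    obtain ⟨t, x, h1, h2, h3, h4⟩ := small_form (by omega) hG hne hc
    exact ⟨t, x, h1, h2, h3, by rw [hmG]; linarith⟩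
  have hlt : ∀ G : Finset (Finset (Fin (l + d))), (∀ X ∈ G, X.card = l) →
      (m : ℤ) = (l + d).choose (l + 1) - ((upShadow G).card - G.card) →
      m < (l + d).choose (l + 1) := by
    intro G hG hmG
    have hlym := up_lym (by omega) hG
    have hlym' : (G.card : ℤ) ≤ (upShadow G).card := by exact_mod_cast hlym
    have : (m : ℤ) ≤ (l + d).choose (l + 1) := by linarith
    have : m ≤ (l + d).choose (l + 1) := by exact_mod_cast this
    omega
  -- the form of `t = 2`, `x = 1`
  have hrep : Rep 2 1 := ⟨2, 0, 0, le_rfl, by norm_num, by norm_num, by norm_num, by decide⟩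
  rcases h with ⟨rfl, rfl⟩ | ⟨rfl, rfl⟩ | ⟨rfl, rfl⟩
  · obtain ⟨G, H, hG, hH, hm1, hH1, hH2⟩ := exists_family_mid (by norm_num) rfl hm
    have hl := hlt G hG hm1
    refine ⟨hl, ?_⟩
    have k1 : (2 + 3).choose (2 + 1) = 10 := by decide
    have k2 : (2 + 3).choose 2 = 10 := by decide
    by_cases c3 : G.card ≤ 3 + 1
    · exact hform G hG c3 hm1
    · push Not at c3
      refine hform H hH ?_ ?_
      · rw [k1] at hm1 hl hH1
        push_cast at hm1 hH1
        omega
      · rw [hm1, hH1, hH2, k1, k2]
        push_cast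
        ring
  · obtain ⟨G, hG, hm1⟩ := exists_family (by norm_num) (by norm_num) hm
    refine ⟨hlt G hG hm1, ?_⟩
    by_cases c3 : G.card ≤ 4 + 1
    · exact hform G hG c3 hm1
    · push Not at c3
      have h1 := five_two (A := G.compls) (compls_card (by norm_num) hG) (by rwa [card_compls])
      rw [shadow_compls, card_compls, card_compls] at h1
      refine ⟨2, 1, by norm_num, by norm_num, hrep, ?_⟩
      have k1 : (2 + 4).choose (2 + 1) = 20 := by decide
      have k2 : cc 4 = 6 := by decide +kernel
      rw [k1, k2] at c1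
      rw [k1] at hm1 ⊢
      push_cast at c1 hm1 ⊢
      omega
  · obtain ⟨G, H, hG, hH, hm1, hH1, hH2⟩ := exists_family_mid (by norm_num) rfl hm
    refine ⟨hlt G hG hm1, ?_⟩
    have k1 : (3 + 4).choose (3 + 1) = 35 := by decide
    have k3 : (3 + 4).choose 3 = 35 := by decide
    by_cases c3 : G.card ≤ 4 + 1
    · exact hform G hG c3 hm1
    · push Not at c3
      by_cases c4 : H.card ≤ 4 + 1
      · refine hform H hH c4 ?_
        rw [hm1, hH1, hH2, k1, k3]
        push_cast
        ring
      · push Not at c4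
        have hs : (upShadow G).card ≤ 29 := by
          rw [k1] at hH1
          push_cast at hH1
          omega
        have h1 := five_three (A := G.compls) (compls_card (by norm_num) hG) (by rwa [card_compls])
          (by rwa [shadow_compls, card_compls])
        rw [shadow_compls, card_compls, card_compls] at h1
        refine ⟨2, 1, by norm_num, by norm_num, hrep, ?_⟩
        have k2 : cc 4 = 6 := by decide +kernel
        rw [k1, k2] at c1
        rw [k1] at hm1 ⊢
        push_cast at c1 hm1 ⊢
        omega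

/-- Every element of `S(n,l)` is at most `T(n,l)`, or of the special form, or `C(n,l+1)`
(all `l ≥ 2`, `n ≥ 2 l + 1`). -/
theorem upper_all_half {l d m : ℕ} (hl : 2 ≤ l) (hd : l + 1 ≤ d) (hm : m ∈ S (l + d) l) :
    (m : ℤ) ≤ (l + d).choose (l + 1) - cc d ∨
    (m < (l + d).choose (l + 1) ∧ ∃ t x : ℕ, 1 ≤ t ∧ t ≤ d + 1 ∧ Rep t x ∧
      (m : ℤ) = (l + d).choose (l + 1) - t * ((d : ℤ) - 1) + x) ∨
    m = (l + d).choose (l + 1) := by
  by_cases h5 : 5 ≤ d
  · exact upper_half (by omega) hd h5 hm
  · exact up_small (by omega) hm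

end Pool.Agent.Work.MP_0ea01d_co.Det
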