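import Pool.Agent.Work.MP_0ea01d_co.Det.Final
import Pool.Agent.Work.MP_0ea01d_co.Det.UpAll
import Pool.Agent.Work.MP_0ea01d_co.Det.TwoLow
import Pool.Agent.Work.MP_0ea01d_co.Det.TwoCon
import Pool.Agent.Work.MP_0ea01d_co.Det.Tiny

/-!
# Determination of S(n,l) outside a window, for `n ≥ 2 l + 1`
-/

set_option autoImplicit false

namespace Pool.Agent.Work.MP_0ea01d_co.Det

open Finset

/-- The least element of `S(n,2)`. -/
theorem least_two {d μ : ℕ} (hd : 3 ≤ d) (hμ : IsLeast (S (2 + d) 2) μ) :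
    μ + (2 + d + 1) ^ 2 / 8 = (2 + d).choose 2 := by
  have h1 := low_two (by omega) hμ.1
  have h2 : (2 + d + 1) ^ 2 / 8 ≤ (2 + d).choose 2 := by
    rw [Nat.choose_two_right]
    obtain ⟨e, rfl⟩ : ∃ e, d = e + 3 := ⟨d - 3, by omega⟩
    have e1 : 2 + (e + 3) - 1 = e + 4 := by omega
    rw [e1]
    have h3 : (2 + (e + 3) + 1) ^ 2 ≤ 4 * ((2 + (e + 3)) * (e + 4)) := by nlinarith
    omega
  obtain ⟨m, hm⟩ : ∃ m, m + (2 + d + 1) ^ 2 / 8 = (2 + d).choose 2 :=
    ⟨(2 + d).choose 2 - (2 + d + 1) ^ 2 / 8, by omega⟩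
  have h3 := hμ.2 (min_two hd hm)
  omega

theorem all_det {l d μ m : ℕ} (hl : 2 ≤ l) (hd : l + 1 ≤ d) (hμ : IsLeast (S (l + d) l) μ)
    (hm : μ ≤ m) (h : l = 2 ∨ μ + 4 * l ^ 6 * (l + d) ≤ m ∨ (l + d).choose l ≤ m ∨
      ((l + d).choose (l + 1) : ℤ) - cc d < m) :
    m ∈ S (l + d) l ↔
      (m : ℤ) ≤ (l + d).choose (l + 1) - cc d ∨
      (m < (l + d).choose (l + 1) ∧ ∃ t x : ℕ, 1 ≤ t ∧ t ≤ d + 1 ∧ Rep t x ∧
        (m : ℤ) = (l + d).choose (l + 1) - t * ((d : ℤ) - 1) + x) ∨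
      m = (l + d).choose (l + 1) := by
  have hlow : (m : ℤ) ≤ (l + d).choose (l + 1) - cc d → m ∈ S (l + d) l := by
    intro hT
    by_cases hl2 : l = 2
    · subst hl2
      have h1 := least_two (by omega) hμ
      exact int_two (by omega) (by omega) hT
    · rcases h with h | h | h | h
      · exact absurd h hl2
      · exact lower_half (by omega) hd hμ.1 h hT
      · rw [val_iff (by omega)]
        have : ((l + d).choose l : ℤ) ≤ m := by exact_mod_cast h
        exact interval l hl d hd _ (by linarith) (by unfold f; linarith)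
      · exact absurd hT (not_le.2 h)
  constructor
  · exact upper_all_half hl hd
  · rintro (h1 | ⟨-, t, x, -, ht2, hx, hme⟩ | rfl)
    · exact hlow h1
    · by_cases hT : (m : ℤ) ≤ (l + d).choose (l + 1) - cc d
      · exact hlow hT
      · push Not at hT
        exact form_mem hl (by omega) ht2 hx hme hT
    · exact top_mem (by omega) (by omega)

end Pool.Agent.Work.MP_0ea01d_co.Det
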