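import Pool.Agent.Work.MP_0ea01d_co.Det.Defs

/-!
# Representations `x = C(a,2) + C(b,2) + c`

`split_choose`: if `y ≤ C(e+1,2)`, let `b` be the largest `b ≤ e` with `C(b,2) ≤ y`
(`Nat.findGreatest`) and `c = y - C(b,2)`. If `b < e` then `y < C(b+1,2) = C(b,2) + b`, so `c ≤ b`;
if `b = e` then `c ≤ C(e+1,2) - C(e,2) = e`.

`rep_of_star`: apply `split_choose` to `y = x - C(a,2)` and `e = t - a < a`.

`rep_of_sq`: let `k = Nat.sqrt x`, so `k² ≤ x < (k+1)²`.
* If `x = k²`: if `k = 0` take `a = 1, b = c = 0`. If `k ≥ 1`: `a = k`; `2k ≤ t` (as `4 k² ≤ t²`);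
  `x - C(k,2) = C(k+1,2)`, so `split_choose` with `e = k` gives `b ≤ k`, `a + b ≤ 2k ≤ t`.
* If `k² < x`: `a = k + 1`. `C(k+1,2) ≤ k² + 1 ≤ x`. If `2(k+1) ≤ t`: `x ≤ (k+1)²`, so
  `x - C(k+1,2) ≤ C(k+2,2)`, `split_choose` with `e = k + 1`. If `t ≤ 2k + 1`: then `4x ≤ t²`
  and `x > k²` force `t = 2k+1` and `x ≤ k² + k`, so `x - C(k+1,2) ≤ C(k+1,2)`, `split_choose` with
  `e = k`, `a + b ≤ 2k + 1 = t`.
-/

set_option autoImplicit false

namespace Pool.Agent.Work.MP_0ea01d_co.Det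

private theorem ch_succ (k : ℕ) : (k + 1).choose 2 = k + k.choose 2 := by
  rw [Nat.choose_succ_succ' k 1, Nat.choose_one_right]

private theorem ch_sq (k : ℕ) : 2 * k.choose 2 + k = k * k := by
  induction k with
  | zero => rfl
  | succ k ih =>
    rw [ch_succ]
    nlinarith

theorem split_choose (y e : ℕ) (h : y ≤ (e + 1).choose 2) :
    ∃ b c : ℕ, c ≤ b ∧ b ≤ e ∧ y = b.choose 2 + c ∧ ∀ i, i ≤ e → i.choose 2 ≤ y → i ≤ b := by
  have h0 : (0 : ℕ).choose 2 ≤ y := Nat.zero_le _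
  have h1 : (Nat.findGreatest (fun b => b.choose 2 ≤ y) e).choose 2 ≤ y :=
    Nat.findGreatest_spec (P := fun b => b.choose 2 ≤ y) (Nat.zero_le e) h0
  have h2 : Nat.findGreatest (fun b => b.choose 2 ≤ y) e ≤ e := Nat.findGreatest_le e
  have h3 : ∀ i, i ≤ e → i.choose 2 ≤ y → i ≤ Nat.findGreatest (fun b => b.choose 2 ≤ y) e :=
    fun i hi hy => Nat.le_findGreatest hi hy
  set b := Nat.findGreatest (fun b => b.choose 2 ≤ y) e with hb
  refine ⟨b, y - b.choose 2, ?_, h2, by omega, h3⟩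
  rcases Nat.lt_or_ge b e with h4 | h4
  · have h5 : ¬ (b + 1).choose 2 ≤ y := fun h6 => by
      have := h3 (b + 1) h4 h6
      omega
    rw [ch_succ] at h5
    omega
  · have h5 : b = e := le_antisymm h2 h4
    rw [h5]
    rw [ch_succ] at h
    omega

theorem rep_of_star {t a x : ℕ} (ha : 1 ≤ a) (hat : a ≤ t) (h2 : t < 2 * a)
    (h3 : a.choose 2 ≤ x) (h4 : x ≤ a.choose 2 + (t - a + 1).choose 2) : Rep t x := by
  obtain ⟨b, c, hc, hb, hy, -⟩ := split_choose (x - a.choose 2) (t - a) (by omega)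
  exact ⟨a, b, c, hc, by omega, ha, by omega, by omega⟩

theorem rep_of_sq {t x : ℕ} (ht : 1 ≤ t) (h : 4 * x ≤ t ^ 2) : Rep t x := by
  have hk1 : Nat.sqrt x * Nat.sqrt x ≤ x := Nat.sqrt_le x
  have hk2 : x < (Nat.sqrt x + 1) * (Nat.sqrt x + 1) := Nat.lt_succ_sqrt x
  set k := Nat.sqrt x with hk
  have e1 := ch_sq k
  have e2 := ch_succ k
  have e3 := ch_succ (k + 1)
  have e4 : (k + 1) * (k + 1) = k * k + 2 * k + 1 := by ring
  rw [e4] at hk2
  rcases Nat.eq_or_lt_of_le hk1 with h1 | h1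
  · rcases Nat.eq_zero_or_pos k with h0 | h0
    · have hx : x = 0 := by
        rw [h0] at h1
        omega
      exact ⟨1, 0, 0, le_rfl, by omega, le_rfl, by omega, by rw [hx]; rfl⟩
    · have h2k : 2 * k ≤ t := by
        by_contra hc
        push Not at hc
        have : t ^ 2 < (2 * k) ^ 2 := Nat.pow_lt_pow_left hc (by norm_num)
        have e5 : (2 * k) ^ 2 = 4 * (k * k) := by ring
        omega
      obtain ⟨b, c, hc, hb, hy, -⟩ := split_choose (x - k.choose 2) k (by omega)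
      exact ⟨k, b, c, hc, hb, h0, by omega, by omega⟩
  · have hkk : k ≤ k * k + 1 := by nlinarith
    have h5 : (k + 1).choose 2 ≤ x := by omega
    rcases Nat.lt_or_ge t (2 * (k + 1)) with h6 | h6
    · have h7 : t ≤ 2 * k + 1 := by omega
      have h8 : t ^ 2 ≤ (2 * k + 1) ^ 2 := Nat.pow_le_pow_left h7 2
      have e5 : (2 * k + 1) ^ 2 = 4 * (k * k) + 4 * k + 1 := by ring
      have h9 : x ≤ k * k + k := by omega
      have h10 : 2 * k < t := by
        by_contra hc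
        push Not at hc
        have : t ^ 2 ≤ (2 * k) ^ 2 := Nat.pow_le_pow_left hc 2
        have e6 : (2 * k) ^ 2 = 4 * (k * k) := by ring
        omega
      obtain ⟨b, c, hc, hb, hy, -⟩ := split_choose (x - (k + 1).choose 2) k (by omega)
      exact ⟨k + 1, b, c, hc, by omega, by omega, by omega, by omega⟩
    · obtain ⟨b, c, hc, hb, hy, -⟩ := split_choose (x - (k + 1).choose 2) (k + 1) (by omega)
      exact ⟨k + 1, b, c, hc, hb, by omega, by omega, by omega⟩

end Pool.Agent.Work.MP_0ea01d_co.Det
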