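import Pool.Agent.Work.MP_0ea01d_co.Det.ValBasic

/-!
# The values of two stars and a matching (level 2)

This is `good_mem` (Upper) with `n = N + 2`, in the language of `Val`.
-/

set_option autoImplicit false

namespace Pool.Agent.Work.MP_0ea01d_co.Det

open Finset

theorem val_good {N a b c s : ℕ} (hN : 5 ≤ N) (hba : b ≤ a) (hcb : c ≤ b) (ha : 1 ≤ a)
    (h1 : a + b + 2 * s ≤ N + c) (h2 : a + b + 1 ≤ N + c) :
    Val (2 + N) 2 (f 2 N - ((a : ℤ) + b + s) * ((N : ℤ) - 1) + a.choose 2 + b.choose 2 + c) := by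
  obtain ⟨m, hm, hme⟩ := good_mem (n := 2 + N) (a := a) (b := b) (c := c) (s := s) (by omega) hba
    hcb ha (by omega) (by omega) (by omega) (by omega) (by omega) (by omega)
  have h := (val_iff (l := 2) (d := N) (by omega)).1 hm
  have e : (m : ℤ) - (2 + N).choose 2 =
      f 2 N - ((a : ℤ) + b + s) * ((N : ℤ) - 1) + a.choose 2 + b.choose 2 + c := by
    rw [hme]
    unfold f
    push_cast
    ring
  rwa [e] at h

end Pool.Agent.Work.MP_0ea01d_co.Det
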