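import Pool.Agent.Work.MP_0ea01d_co.Det.Defs

/-!
# Numerical facts about `f` and `cc`

All by Pascal's rule.
* `f_succ`: Pascal for the three binomials `(l+d+2).choose _`.
* `f_diag`: `C(2l+1,l+1) = C(2l+1,l)`.
* `f_low`: `C(2l+2,l+2) = C(2l+2,l)`.
* `f_nonneg`: induction on `d` from `f_diag`, with `f_succ` (and `f 0 d = d - 1`), by induction
  on `l` outside.
* `f_mono`: `f (l+1) d = f (l+1) (d-1) + f l d` and `f (l+1) (d-1) ≥ 0` as `l + 2 ≤ d - 1`.
* `f_mono'`: induction from `f_mono`.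
* `f_one`, `f_two`: induction on `d` with `f_succ`, `f 0 d = d - 1`.
* `cc_le`: `2 cc d ≤ (d-1)(d+1)`, `cc_ge`: `d (d-1) ≤ 2 cc d`.
* `num_cone`: if `d ≥ 7`: `f l d ≥ f 2 d` by `f_mono'`, and
  `6 f 2 d = (d+2)(d+1)(d-3) ≥ 6 (d-1)(d+1)` for `d ≥ 7` (`(d+2)(d-3) ≥ 6(d-1)` iff `d ≥ 7`),
  `2 cc d ≤ (d-1)(d+1)`. If `d ≤ 6` then `l ≥ 3`, so `d = 6`, `l = 3`: `f 3 6 = 42`, `cc 6 = 15`.
* `num_up`: `f l d ≥ f 2 d` and `(d+2)(d+1)(d-3) ≥ 3 (d-1)(d+1)` for `d ≥ 5`.
-/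

set_option autoImplicit false

namespace Pool.Agent.Work.MP_0ea01d_co.Det

theorem f_succ (l d : ℕ) : f (l + 1) (d + 1) = f (l + 1) d + f l (d + 1) := by
  unfold f
  have e1 : l + 1 + (d + 1) = (l + d + 1) + 1 := by ring
  have e2 : l + 1 + d = l + d + 1 := by ring
  have e3 : l + (d + 1) = l + d + 1 := by ring
  rw [e1, e2, e3]
  have h1 : (l + d + 1 + 1).choose (l + 1 + 1) =
      (l + d + 1).choose (l + 1) + (l + d + 1).choose (l + 1 + 1) := Nat.choose_succ_succ' _ _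
  have h2 : (l + d + 1 + 1).choose (l + 1) =
      (l + d + 1).choose l + (l + d + 1).choose (l + 1) := Nat.choose_succ_succ' _ _
  rw [h1, h2]
  push_cast
  ring

theorem f_zero (d : ℕ) : f 0 d = d - 1 := by
  unfold f
  simp

theorem f_diag (l : ℕ) : f l (l + 1) = 0 := by
  unfold f
  have h : (l + (l + 1)).choose (l + 1) = (l + (l + 1)).choose l :=
    Nat.choose_symm_of_eq_add (by ring)
  rw [h]
  ring

theorem f_low (l : ℕ) : f (l + 1) (l + 1) = - f l (l + 2) := by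
  unfold f
  have e1 : l + 1 + (l + 1) = 2 * l + 2 := by ring
  have e2 : l + (l + 2) = 2 * l + 2 := by ring
  have h : (2 * l + 2).choose (l + 1 + 1) = (2 * l + 2).choose l :=
    Nat.choose_symm_of_eq_add (by ring)
  rw [e1, e2, h]
  ring

theorem f_nonneg {l d : ℕ} (h : l + 1 ≤ d) : 0 ≤ f l d := by
  induction l generalizing d with
  | zero =>
    rw [f_zero]
    have : (1 : ℤ) ≤ d := by exact_mod_cast h
    linarith
  | succ l ih =>
    induction d, h using Nat.le_induction with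
    | base => rw [f_diag]
    | succ d hd ihd =>
      rw [f_succ]
      exact add_nonneg ihd (ih (by omega))

theorem f_mono {l d : ℕ} (h : l + 3 ≤ d) : f l d ≤ f (l + 1) d := by
  obtain ⟨e, rfl⟩ : ∃ e, d = e + 1 := ⟨d - 1, by omega⟩
  rw [f_succ]
  have h1 : 0 ≤ f (l + 1) e := f_nonneg (by omega)
  linarith

theorem f_mono' {i l d : ℕ} (h : i ≤ l) (hd : l + 2 ≤ d) : f i d ≤ f l d := by
  induction l, h using Nat.le_induction with
  | base => exact le_rfl
  | succ l hl ih => exact (ih (by omega)).trans (f_mono (by omega))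

theorem f_one (d : ℕ) : 2 * f 1 d = ((d : ℤ) + 1) * (d - 2) := by
  induction d with
  | zero => simp [f]
  | succ d ih =>
    rw [f_succ 0 d, mul_add, ih, f_zero]
    push_cast
    ring

theorem f_two (d : ℕ) : 6 * f 2 d = ((d : ℤ) + 2) * (d + 1) * (d - 3) := by
  induction d with
  | zero => simp [f]
  | succ d ih =>
    have h1 := f_one (d + 1)
    have h2 : f 2 (d + 1) = f 2 d + f 1 (d + 1) := f_succ 1 d
    rw [h2]
    push_cast at h1 ⊢
    linear_combination ih + 3 * h1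

theorem cc_le {d : ℕ} (h : 1 ≤ d) : 2 * cc d ≤ ((d : ℤ) - 1) * (d + 1) := by
  unfold cc
  have h1 : (0 : ℤ) ≤ (d : ℤ) - 1 := by
    have : (1 : ℤ) ≤ d := by exact_mod_cast h
    linarith
  have h2 : 2 * (((d + 1) / 2 : ℕ) : ℤ) ≤ (d : ℤ) + 1 := by omega
  nlinarith [mul_le_mul_of_nonneg_left h2 h1]

theorem cc_ge {d : ℕ} (h : 1 ≤ d) : (d : ℤ) * (d - 1) ≤ 2 * cc d := by
  unfold cc
  have h1 : (0 : ℤ) ≤ (d : ℤ) - 1 := by
    have : (1 : ℤ) ≤ d := by exact_mod_cast h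
    linarith
  have h2 : (d : ℤ) ≤ 2 * (((d + 1) / 2 : ℕ) : ℤ) := by omega
  nlinarith [mul_le_mul_of_nonneg_left h2 h1]

theorem num_cone {l d : ℕ} (hl : 2 ≤ l) (hd : l + 3 ≤ d) (h : l = 2 → 7 ≤ d) :
    2 * cc d ≤ f l d + 1 := by
  rcases le_or_gt 7 d with h7 | h7
  · have h1 : f 2 d ≤ f l d := f_mono' hl (by omega)
    have h2 := f_two d
    have h3 := cc_le (d := d) (by omega)
    have h4 : (7 : ℤ) ≤ d := by exact_mod_cast h7
    have h5 : 0 ≤ ((d : ℤ) + 1) * (d * (d - 7)) := by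
      apply mul_nonneg (by linarith) (mul_nonneg (by linarith) (by linarith))
    have h6 : ((d : ℤ) + 2) * (d + 1) * (d - 3) - 6 * ((d - 1) * (d + 1)) =
        (d + 1) * (d * (d - 7)) := by ring
    linarith
  · have h1 : l ≠ 2 := fun h2 => by
      have := h h2
      omega
    have h2 : d = 6 := by omega
    have h3 : l = 3 := by omega
    subst h2 h3
    decide

theorem num_up {l d : ℕ} (hl : 2 ≤ l) (hd : l + 2 ≤ d) (h5 : 5 ≤ d) : cc d ≤ f l d := by
  have h1 : f 2 d ≤ f l d := f_mono' hl hd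
  have h2 := f_two d
  have h3 := cc_le (d := d) (by omega)
  have h4 : (5 : ℤ) ≤ d := by exact_mod_cast h5
  have h6 : 0 ≤ ((d : ℤ) + 1) * (d * (d - 4) - 3) := by
    apply mul_nonneg (by linarith)
    nlinarith
  have h7 : ((d : ℤ) + 2) * (d + 1) * (d - 3) - 3 * ((d - 1) * (d + 1)) =
      (d + 1) * (d * (d - 4) - 3) := by ring
  linarith

end Pool.Agent.Work.MP_0ea01d_co.Det
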