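import Pool.Agent.Work.MP_0ea01d_co.Det.Arith1
import Pool.Agent.Work.MP_0ea01d_co.Det.GoodVal
import Pool.Agent.Work.MP_0ea01d_co.Det.Num

/-!
# The lower region for level 2: values just above `f 2 (N-2)`

By `rep_of_sq` (Arith1, `t = N - 1`): `x = C(α,2) + C(β,2) + γ` with `γ ≤ β ≤ α`, `α + β ≤ N - 1`.
Apply `val_good` with `s = 0`, `a = N - 1 - β`, `b = N - 1 - α`, `c = N - 1 - α - β + γ`:
`b ≤ a`, `c ≤ b` (as `γ ≤ β`), `a ≥ 1` (as `2 β ≤ N - 1`, `N ≥ 5`),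
`a + b + 1 = 2N - 1 - α - β ≤ N + c`, and `a + b ≤ N + c`.
The value is `f 2 (N-2) + x - 2`: `C(N-1-β,2) - (N-1-β)(N-1) = C(β+1,2) - C(N,2)` (write
`N - 1 - β = N - A`, `A = β + 1`: `C(N-A,2) - (N-A)(N-1) = C(A,2) - C(N,2)`), the same for `α`;
`f 2 N - 2 C(N,2) = f 2 (N-2) - N - 1` (as `f 2 N = f 2 (N-1) + (N+1)(N-2)/2` and
`f 2 (N-1) = f 2 (N-2) + N(N-3)/2`, from `f_succ`, `f_one`); and
`C(α+1,2) = C(α,2) + α`, `C(β+1,2) = C(β,2) + β`, so the sum is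
`f 2 (N-2) - N - 1 + C(α,2) + α + C(β,2) + β + N - 1 - α - β + γ = f 2 (N-2) + x - 2`.
-/

set_option autoImplicit false

namespace Pool.Agent.Work.MP_0ea01d_co.Det

private theorem ch_sq (k : ℕ) : 2 * (k.choose 2 : ℤ) = (k : ℤ) * (k - 1) := by
  induction k with
  | zero => simp
  | succ k ih =>
    rw [Nat.choose_succ_succ' k 1, Nat.choose_one_right]
    push_cast
    linear_combination ih

theorem reg2 {N x : ℕ} (hN : 5 ≤ N) (hx : 4 * x ≤ (N - 1) ^ 2) :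
    Val (2 + N) 2 (f 2 (N - 2) + x - 2) := by
  obtain ⟨α, β, γ, h1, h2, h3, h4, h5⟩ := rep_of_sq (t := N - 1) (by omega) hx
  obtain ⟨a, ha⟩ : ∃ a, a + β + 1 = N := ⟨N - 1 - β, by omega⟩
  obtain ⟨b, hb⟩ : ∃ b, b + α + 1 = N := ⟨N - 1 - α, by omega⟩
  obtain ⟨c, hc⟩ : ∃ c, c + α + β + 1 = N + γ := ⟨N - 1 - α - β + γ, by omega⟩
  have hv := val_good (N := N) (a := a) (b := b) (c := c) (s := 0) hN (by omega) (by omega)
    (by omega) (by omega) (by omega)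
  have e : f 2 N - ((a : ℤ) + b + (0 : ℕ)) * ((N : ℤ) - 1) + a.choose 2 + b.choose 2 + c =
      f 2 (N - 2) + x - 2 := by
    have f1 := f_two N
    have f2 := f_two (N - 2)
    have n2 : ((N - 2 : ℕ) : ℤ) = (N : ℤ) - 2 := by omega
    rw [n2] at f2
    have ca := ch_sq a
    have cb := ch_sq b
    have cα := ch_sq α
    have cβ := ch_sq β
    have ha' : (a : ℤ) = N - 1 - β := by omega
    have hb' : (b : ℤ) = N - 1 - α := by omega
    have hc' : (c : ℤ) = N - 1 - α - β + γ := by omega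
    have hx' : (x : ℤ) = α.choose 2 + β.choose 2 + γ := by exact_mod_cast h5
    rw [ha'] at ca ⊢
    rw [hb'] at cb ⊢
    rw [hc', hx']
    have e6 : 6 * (f 2 N - (((N : ℤ) - 1 - β) + (N - 1 - α) + (0 : ℕ)) * ((N : ℤ) - 1) +
        a.choose 2 + b.choose 2 + (N - 1 - α - β + γ)) =
        6 * (f 2 (N - 2) + (α.choose 2 + β.choose 2 + γ) - 2) := by
      push_cast
      linear_combination f1 - f2 + 3 * ca + 3 * cb - 3 * cα - 3 * cβ
    linarith
  rw [e] at hv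
  exact hv

end Pool.Agent.Work.MP_0ea01d_co.Det
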