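import Pool.Agent.Work.MP_0ea01d_co.Det.GoodVal
import Pool.Agent.Work.MP_0ea01d_co.Det.Num

/-!
# The small cases of level 2, by a table

`tab` lists, for `N = 5, ..., 13` and `y = 1, ..., N²/4`, parameters `(a, b, c, s)` of `val_good`
whose value is `f 2 (N-1) - y`.
-/

set_option autoImplicit false

namespace Pool.Agent.Work.MP_0ea01d_co.Det

def tab : List (List (ℕ × ℕ × ℕ × ℕ)) :=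
  [[(2, 1, 1, 0), (1, 1, 1, 1), (1, 0, 0, 2), (2, 2, 1, 0), (2, 1, 1, 1), (1, 1, 1, 2)], [(1, 0, 0,
  2), (2, 2, 2, 0), (2, 2, 1, 0), (2, 1, 1, 1), (1, 1, 1, 2), (1, 1, 0, 2), (2, 2, 2, 1), (2, 2,
  1, 1), (2, 1, 1, 2)], [(2, 2, 1, 0), (2, 1, 1, 1), (1, 1, 1, 2), (1, 0, 0, 3), (3, 2, 1, 0),
  (2, 2, 2, 1), (2, 2, 1, 1), (2, 1, 1, 2), (1, 1, 1, 3), (3, 2, 2, 1), (3, 2, 1, 1), (2, 2, 2,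
  2)], [(1, 0, 0, 3), (3, 2, 2, 0), (3, 2, 1, 0), (2, 2, 2, 1), (2, 2, 1, 1), (2, 1, 1, 2), (1,
  1, 1, 3), (1, 1, 0, 3), (3, 2, 2, 1), (3, 2, 1, 1), (2, 2, 2, 2), (2, 2, 1, 2), (2, 1, 1, 3),
  (3, 3, 2, 1), (3, 3, 1, 1), (3, 2, 2, 2)], [(2, 2, 2, 1), (2, 2, 1, 1), (2, 1, 1, 2), (1, 1,
  1, 3), (1, 0, 0, 4), (3, 3, 1, 0), (3, 2, 2, 1), (3, 2, 1, 1), (2, 2, 2, 2), (2, 2, 1, 2), (2,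
  1, 1, 3), (1, 1, 1, 4), (3, 3, 2, 1), (3, 3, 1, 1), (3, 2, 2, 2), (3, 2, 1, 2), (2, 2, 2, 3),
  (2, 2, 1, 3), (4, 3, 1, 1), (3, 3, 3, 2)], [(1, 0, 0, 4), (3, 3, 2, 0), (3, 3, 1, 0), (3, 2,
  2, 1), (3, 2, 1, 1), (2, 2, 2, 2), (2, 2, 1, 2), (2, 1, 1, 3), (1, 1, 1, 4), (1, 1, 0, 4), (3,
  3, 2, 1), (3, 3, 1, 1), (3, 2, 2, 2), (3, 2, 1, 2), (2, 2, 2, 3), (2, 2, 1, 3), (2, 1, 1, 4),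
  (4, 3, 1, 1), (3, 3, 3, 2), (3, 3, 2, 2), (3, 3, 1, 2), (3, 2, 2, 3), (3, 2, 1, 3), (2, 2, 2,
  4), (4, 3, 3, 2)], [(3, 2, 1, 1), (2, 2, 2, 2), (2, 2, 1, 2), (2, 1, 1, 3), (1, 1, 1, 4), (1,
  0, 0, 5), (3, 3, 3, 1), (3, 3, 2, 1), (3, 3, 1, 1), (3, 2, 2, 2), (3, 2, 1, 2), (2, 2, 2, 3),
  (2, 2, 1, 3), (2, 1, 1, 4), (1, 1, 1, 5), (4, 3, 1, 1), (3, 3, 3, 2), (3, 3, 2, 2), (3, 3, 1,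
  2), (3, 2, 2, 3), (3, 2, 1, 3), (2, 2, 2, 4), (2, 2, 1, 4), (4, 3, 3, 2), (4, 3, 2, 2), (4, 3,
  1, 2), (3, 3, 3, 3), (3, 3, 2, 3), (3, 3, 1, 3), (3, 2, 2, 4)], [(1, 0, 0, 5), (4, 3, 1, 0),
  (3, 3, 3, 1), (3, 3, 2, 1), (3, 3, 1, 1), (3, 2, 2, 2), (3, 2, 1, 2), (2, 2, 2, 3), (2, 2, 1,
  3), (2, 1, 1, 4), (1, 1, 1, 5), (1, 1, 0, 5), (4, 3, 1, 1), (3, 3, 3, 2), (3, 3, 2, 2), (3, 3,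
  1, 2), (3, 2, 2, 3), (3, 2, 1, 3), (2, 2, 2, 4), (2, 2, 1, 4), (2, 1, 1, 5), (4, 3, 3, 2), (4,
  3, 2, 2), (4, 3, 1, 2), (3, 3, 3, 3), (3, 3, 2, 3), (3, 3, 1, 3), (3, 2, 2, 4), (3, 2, 1, 4),
  (2, 2, 2, 5), (4, 4, 2, 2), (4, 4, 1, 2), (4, 3, 3, 3), (4, 3, 2, 3), (4, 3, 1, 3), (3, 3, 3,
  4)], [(3, 2, 2, 2), (3, 2, 1, 2), (2, 2, 2, 3), (2, 2, 1, 3), (2, 1, 1, 4), (1, 1, 1, 5), (1,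
  0, 0, 6), (4, 3, 2, 1), (4, 3, 1, 1), (3, 3, 3, 2), (3, 3, 2, 2), (3, 3, 1, 2), (3, 2, 2, 3),
  (3, 2, 1, 3), (2, 2, 2, 4), (2, 2, 1, 4), (2, 1, 1, 5), (1, 1, 1, 6), (4, 3, 3, 2), (4, 3, 2,
  2), (4, 3, 1, 2), (3, 3, 3, 3), (3, 3, 2, 3), (3, 3, 1, 3), (3, 2, 2, 4), (3, 2, 1, 4), (2, 2,
  2, 5), (2, 2, 1, 5), (4, 4, 2, 2), (4, 4, 1, 2), (4, 3, 3, 3), (4, 3, 2, 3), (4, 3, 1, 3), (3,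
  3, 3, 4), (3, 3, 2, 4), (3, 3, 1, 4), (3, 2, 2, 5), (5, 4, 1, 2), (4, 4, 4, 3), (4, 4, 3, 3),
  (4, 4, 2, 3), (4, 4, 1, 3)]]

/-- The condition on the parameters, `v` being the value. -/
def Cond (N : ℕ) (v : ℤ) (q : ℕ × ℕ × ℕ × ℕ) : Prop :=
  q.2.1 ≤ q.1 ∧ q.2.2.1 ≤ q.2.1 ∧ 1 ≤ q.1 ∧ q.1 + q.2.1 + 2 * q.2.2.2 ≤ N + q.2.2.1 ∧
    q.1 + q.2.1 + 1 ≤ N + q.2.2.1 ∧
    v = f 2 N - ((q.1 : ℤ) + q.2.1 + q.2.2.2) * ((N : ℤ) - 1) + q.1.choose 2 + q.2.1.choose 2 +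
      q.2.2.1

instance (N : ℕ) (v : ℤ) (q : ℕ × ℕ × ℕ × ℕ) : Decidable (Cond N v q) := by
  unfold Cond f
  infer_instance

theorem val_of_cond {N : ℕ} (hN : 5 ≤ N) {v : ℤ} {q : ℕ × ℕ × ℕ × ℕ} (h : Cond N v q) :
    Val (2 + N) 2 v := by
  obtain ⟨h1, h2, h3, h4, h5, h6⟩ := h
  rw [h6]
  exact val_good hN h1 h2 h3 h4 h5

theorem tab_ok : ∀ N : ℕ, N < 14 → 5 ≤ N → ∀ y : ℕ, y < 43 → 1 ≤ y → 4 * y ≤ N ^ 2 →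
    Cond N (f 2 (N - 1) - (y : ℤ))
      ((tab.getD (N - 5) []).getD (y - 1) (0, 0, 0, 0)) := by
  decide +kernel

theorem small_tab {N y : ℕ} (h5 : 5 ≤ N) (h14 : N < 14) (hy1 : 1 ≤ y) (hy2 : 4 * y ≤ N ^ 2) :
    Val (2 + N) 2 (f 2 (N - 1) - y) := by
  have hy : y < 43 := by nlinarith
  exact val_of_cond h5 (tab_ok N h14 h5 y hy hy1 hy2)

theorem tab7_ok : ∀ v : ℕ, v < 8 → Cond 5 ((v : ℕ) : ℤ)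
    (([(2, 1, 1, 1), (2, 2, 1, 0), (1, 0, 0, 2), (1, 1, 1, 1), (2, 1, 1, 0), (3, 0, 0, 0),
      (1, 0, 0, 1), (1, 1, 1, 0)] : List (ℕ × ℕ × ℕ × ℕ)).getD v (0, 0, 0, 0)) := by
  decide +kernel

theorem val_seven {v : ℤ} (h0 : 0 ≤ v) (h : v ≤ 7) : Val (2 + 5) 2 v := by
  obtain ⟨w, rfl⟩ := Int.eq_ofNat_of_zero_le h0
  exact val_of_cond (by omega) (tab7_ok w (by omega))

theorem tab8_ok : ∀ v : ℕ, v < 17 → Cond 6 ((v : ℕ) : ℤ)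
    (([(4, 3, 3, 1), (3, 3, 2, 1), (2, 2, 2, 2), (3, 2, 1, 1), (3, 2, 2, 1), (2, 1, 1, 2),
      (2, 2, 1, 1), (2, 2, 2, 1), (1, 1, 0, 2), (1, 1, 1, 2), (2, 1, 1, 1), (2, 2, 1, 0),
      (2, 2, 2, 0), (1, 0, 0, 2), (1, 1, 1, 1), (2, 1, 1, 0), (3, 0, 0, 0)] :
      List (ℕ × ℕ × ℕ × ℕ)).getD v (0, 0, 0, 0)) := by
  decide +kernel

theorem val_eight {v : ℤ} (h0 : 0 ≤ v) (h : v ≤ 16) : Val (2 + 6) 2 v := by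
  obtain ⟨w, rfl⟩ := Int.eq_ofNat_of_zero_le h0
  exact val_of_cond (by omega) (tab8_ok w (by omega))

end Pool.Agent.Work.MP_0ea01d_co.Det
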