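import Pool.Agent.Work.MP_0ea01d_co.Det.Reg1
import Pool.Agent.Work.MP_0ea01d_co.Det.Reg2
import Pool.Agent.Work.MP_0ea01d_co.Det.SmallTab

/-!
# The interval of level 2

`base_two`: write `d = N`. Let `v = f 2 (N-1) - y` with `y = f 2 (N-1) - v`, so
`0 ≤ y ≤ f 2 (N-1) - f 2 (N-2) = N (N-3) / 2`.
* `y = 0`: `val_top` (with `Val.mono` from `2 + (N-1)` to `2 + N`).
* `1 ≤ y`, `4 y ≤ N²`: `reg1` if `N ≥ 14`, `small_tab` if `N < 14`.
* `4 y > N²`: `x = v - f 2 (N-2) + 2`, so `4 x = 2 N (N-3) + 8 - 4 y < N² - 6 N + 8 ≤ (N-1)²`: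
  `reg2`.
-/

set_option autoImplicit false

namespace Pool.Agent.Work.MP_0ea01d_co.Det

theorem base_two {N : ℕ} (hN : 5 ≤ N) {v : ℤ} (h0 : f 2 (N - 2) ≤ v) (h1 : v ≤ f 2 (N - 1)) :
    Val (2 + N) 2 v := by
  obtain ⟨M, rfl⟩ : ∃ M, N = M + 2 := ⟨N - 2, by omega⟩
  have e1 : M + 2 - 2 = M := by omega
  have e2 : M + 2 - 1 = M + 1 := by omega
  rw [e1] at h0
  rw [e2] at h1
  have hf := f_succ 1 M
  have hf1 := f_one (M + 1)
  have hf2 : 2 * f 2 (M + 1) = 2 * f 2 M + ((M : ℤ) + 2) * ((M : ℤ) - 1) := by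
    have : f (1 + 1) (M + 1) = f 2 (M + 1) := rfl
    rw [← this, hf]
    have h3 : f (1 + 1) M = f 2 M := rfl
    rw [h3]
    push_cast at hf1
    linarith
  obtain ⟨y, hy⟩ : ∃ y : ℕ, (y : ℤ) = f 2 (M + 1) - v := ⟨(f 2 (M + 1) - v).toNat, by
    rw [Int.toNat_of_nonneg (by linarith)]⟩
  rcases Nat.eq_zero_or_pos y with hy0 | hy0
  · subst hy0
    have hv : v = f 2 (M + 1) := by
      push_cast at hy
      linarith
    rw [hv]
    exact (val_top (by norm_num) (by omega)).mono (by norm_num) (by omega)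
  · by_cases hy4 : 4 * y ≤ (M + 2) ^ 2
    · have hv : v = f 2 (M + 2 - 1) - y := by
        rw [e2]
        linarith
      rw [hv]
      by_cases h14 : 14 ≤ M + 2
      · exact reg1 h14 hy0 hy4
      · exact small_tab hN (by omega) hy0 hy4
    · push Not at hy4
      have hy4' : ((M : ℤ) + 2) ^ 2 < 4 * y := by exact_mod_cast hy4
      obtain ⟨x, hx⟩ : ∃ x : ℕ, (x : ℤ) = v - f 2 M + 2 := ⟨(v - f 2 M + 2).toNat, by
        rw [Int.toNat_of_nonneg (by linarith)]⟩
      have hx4 : 4 * x ≤ (M + 2 - 1) ^ 2 := by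
        rw [e2]
        have : 4 * (x : ℤ) ≤ ((M : ℤ) + 1) ^ 2 := by nlinarith
        exact_mod_cast this
      have h := reg2 hN hx4
      have e3 : f 2 (M + 2 - 2) + (x : ℤ) - 2 = v := by
        rw [e1, hx]
        ring
      rwa [e3] at h

/-- Every value from `0` to `f 2 d - cc d` occurs on `2 + d` points. -/
theorem base {d : ℕ} {v : ℤ} (h0 : 0 ≤ v) (h1 : v ≤ f 2 d - cc d) : Val (2 + d) 2 v := by
  have key : ∀ d : ℕ, 5 ≤ d → ∀ v : ℤ, 0 ≤ v → v ≤ f 2 (d - 1) → Val (2 + d) 2 v := by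
    intro d hd
    induction d, hd using Nat.le_induction with
    | base =>
      intro v h0 h1
      refine base_two le_rfl ?_ h1
      have : f 2 (5 - 2) = 0 := f_diag 2
      rw [this]
      exact h0
    | succ d hd ih =>
      intro v h0 h1
      by_cases h2 : v ≤ f 2 (d - 1)
      · exact (ih v h0 h2).mono (by norm_num) (by omega)
      · exact base_two (by omega) (by
          have : d + 1 - 2 = d - 1 := by omega
          rw [this]
          linarith) h1
  rcases Nat.lt_or_ge d 5 with hd | hd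
  · exfalso
    have hneg : ∀ d : ℕ, d < 5 → f 2 d - cc d < 0 := by decide +kernel
    have := hneg d hd
    linarith
  · refine key d hd v h0 (h1.trans ?_)
    obtain ⟨e, rfl⟩ : ∃ e, d = e + 1 := ⟨d - 1, by omega⟩
    have hf := f_succ 1 e
    have hf1 := f_one (e + 1)
    have hc := cc_ge (d := e + 1) (by omega)
    have h3 : f (1 + 1) (e + 1) = f 2 (e + 1) := rfl
    have h4 : f (1 + 1) e = f 2 e := rfl
    rw [h3, h4] at hf
    have e5 : e + 1 - 1 = e := rfl
    rw [e5]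
    push_cast at hf1 hc
    nlinarith

end Pool.Agent.Work.MP_0ea01d_co.Det
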