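import Pool.Agent.Work.MP_0ea01d_co.Det.Defs

/-!
# Coning with r independent new points

Let `V = Fin n ⊕ Fin r`. Let `F i` be a closed family of `(l+1)`-sets on `Fin n` with
`NN l (F i) = - v i`. Let `E` be the union of
* all sets `T.map inl` with `T.card = l + 2` (the full family on `Fin n`), and
* all sets `insert (inr i) (T.map inl)` with `i : Fin r`, `T ∈ F i`.
`Clo (l+1) E`: members have `l + 2` elements. Let `T` have `l + 2` elements and let every
`(l+1)`-subset of `T` lie in a member of `E`. Every member contains at most one point `inr i`.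
If `T` contained two points `inr i`, `inr j`, remove a third point of `T` (`l + 2 ≥ 3`): the
remaining `(l+1)`-set lies in no member. If `T` contains no point `inr i` then `T` is in the first
part. If `T = insert (inr i) (T₀.map inl)` with `T₀.card = l + 1`, then for every `l`-subset `Y` of
`T₀` the set `insert (inr i) (Y.map inl)` lies in a member containing `inr i`, so `Y ⊆ T''` for some
`T'' ∈ F i`; `F i` is closed, so `T₀ ∈ F i` and `T ∈ E`.
Counting: `Gr (l+1) E` is the disjoint union of all `(l+1)`-subsets of the `Fin n` part (each lies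
in an `(l+2)`-subset as `l + 2 ≤ n`) and of the sets `insert (inr i) (Y.map inl)`, `Y ∈ Gr l (F i)`.
So `|Gr (l+1) E| = C(n,l+1) + ∑ |Gr l (F i)|` and `|E| = C(n,l+2) + ∑ |F i|`, hence
`NN (l+1) E = C(n,l+1) - C(n,l+2) - ∑ v i`. Finally transport along `finSumFinEquiv` with
`Clo.map` and `NN_mapF` (Good).
-/

set_option autoImplicit false

namespace Pool.Agent.Work.MP_0ea01d_co.Det

open Finset

/-- The sets of `P` and the sets `T` with the new point `i`, `T ∈ Q i`. -/
private def cf {n r : ℕ} (P : Finset (Finset (Fin n))) (Q : Fin r → Finset (Finset (Fin n))) :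
    Finset (Finset (Fin n ⊕ Fin r)) :=
  P.image (fun T => T.disjSum ∅) ∪ univ.biUnion fun i => (Q i).image fun T => T.disjSum {i}

private theorem mem_cf {n r : ℕ} {P : Finset (Finset (Fin n))}
    {Q : Fin r → Finset (Finset (Fin n))} {T : Finset (Fin n)} {s : Finset (Fin r)} :
    T.disjSum s ∈ cf P Q ↔ (s = ∅ ∧ T ∈ P) ∨ ∃ i, s = {i} ∧ T ∈ Q i := by
  unfold cf
  rw [mem_union, mem_image, mem_biUnion]
  constructor
  · rintro (⟨T', h, e⟩ | ⟨i, -, h⟩)
    · obtain ⟨rfl, rfl⟩ := disjSum_inj.1 e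
      exact Or.inl ⟨rfl, h⟩
    · obtain ⟨T', h', e⟩ := mem_image.1 h
      obtain ⟨rfl, rfl⟩ := disjSum_inj.1 e
      exact Or.inr ⟨i, rfl, h'⟩
  · rintro (⟨rfl, h⟩ | ⟨i, rfl, h⟩)
    · exact Or.inl ⟨T, h, rfl⟩
    · exact Or.inr ⟨i, mem_univ i, mem_image.2 ⟨T, h, rfl⟩⟩

private theorem card_cf {n r : ℕ} (P : Finset (Finset (Fin n)))
    (Q : Fin r → Finset (Finset (Fin n))) : (cf P Q).card = P.card + ∑ i, (Q i).card := by
  unfold cf
  rw [card_union_of_disjoint, card_biUnion, card_image_of_injective]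
  · congr 1
    refine sum_congr rfl fun i _ => ?_
    rw [card_image_of_injective]
    intro T T' h
    exact (disjSum_inj.1 h).1
  · intro T T' h
    exact (disjSum_inj.1 h).1
  · intro i _ j _ hij
    rw [Function.onFun, disjoint_left]
    intro X hX hX'
    obtain ⟨T, -, rfl⟩ := mem_image.1 hX
    obtain ⟨T', -, h⟩ := mem_image.1 hX'
    exact hij (singleton_injective (disjSum_inj.1 h).2.symm)
  · rw [disjoint_left]
    intro X hX hX'
    obtain ⟨T, -, rfl⟩ := mem_image.1 hX
    obtain ⟨i, -, h1⟩ := mem_biUnion.1 hX'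
    obtain ⟨T', -, h⟩ := mem_image.1 h1
    exact (singleton_ne_empty i) (disjSum_inj.1 h).2

private theorem Gr_cf {n l r : ℕ} (hn : l + 2 ≤ n) (F : Fin r → Finset (Finset (Fin n))) :
    Gr (l + 1) (cf (powersetCard (l + 2) univ) F) =
      cf (powersetCard (l + 1) univ) (fun i => Gr l (F i)) := by
  ext Y
  rw [← toLeft_disjSum_toRight (u := Y)]
  generalize Y.toLeft = A
  generalize Y.toRight = s
  rw [mem_Gr, mem_cf]
  constructor
  · rintro ⟨X, hX, hsub, hc⟩
    rw [← toLeft_disjSum_toRight (u := X)] at hX hsub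
    rw [disjSum_subset, toLeft_disjSum, toRight_disjSum] at hsub
    rw [mem_cf] at hX
    rw [card_disjSum] at hc
    rcases hX with ⟨h1, h2⟩ | ⟨i, h1, h2⟩
    · rw [h1] at hsub
      have h3 : s = ∅ := subset_empty.1 hsub.2
      left
      refine ⟨h3, mem_powersetCard.2 ⟨subset_univ _, ?_⟩⟩
      rw [h3, card_empty] at hc
      exact hc
    · rw [h1] at hsub
      rcases subset_singleton_iff.1 hsub.2 with h3 | h3
      · left
        refine ⟨h3, mem_powersetCard.2 ⟨subset_univ _, ?_⟩⟩
        rw [h3, card_empty] at hc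
        exact hc
      · right
        refine ⟨i, h3, mem_Gr.2 ⟨_, h2, hsub.1, ?_⟩⟩
        rw [h3, card_singleton] at hc
        omega
  · rintro (⟨rfl, h⟩ | ⟨i, rfl, h⟩)
    · rw [mem_powersetCard] at h
      obtain ⟨T, hT, hTc⟩ := exists_superset_card_eq (s := A) (n := l + 2) (by omega)
        (by rw [Fintype.card_fin]; exact hn)
      refine ⟨T.disjSum ∅, mem_cf.2 (Or.inl ⟨rfl, mem_powersetCard.2 ⟨subset_univ _, hTc⟩⟩),
        disjSum_mono hT (Subset.refl _), ?_⟩
      rw [card_disjSum, h.2, card_empty]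
    · obtain ⟨T, hT, hA, hc⟩ := mem_Gr.1 h
      refine ⟨T.disjSum {i}, mem_cf.2 (Or.inr ⟨i, rfl, hT⟩), disjSum_mono hA (Subset.refl _), ?_⟩
      rw [card_disjSum, hc, card_singleton]

private theorem clo_cf {n l r : ℕ} (hl : 1 ≤ l) {F : Fin r → Finset (Finset (Fin n))}
    (hF : ∀ i, Clo l (F i)) : Clo (l + 1) (cf (powersetCard (l + 2) univ) F) := by
  refine ⟨fun X hX => ?_, fun X hXc hall => ?_⟩
  · rw [← toLeft_disjSum_toRight (u := X)] at hX ⊢
    rw [mem_cf] at hX
    rw [card_disjSum]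
    rcases hX with ⟨h1, h2⟩ | ⟨i, h1, h2⟩
    · rw [h1, (mem_powersetCard.1 h2).2, card_empty]
    · rw [h1, (hF i).card _ h2, card_singleton]
  · have hsmall : ∀ X' ∈ cf (powersetCard (l + 2) univ) F, ∀ i j, Sum.inr i ∈ X' →
        Sum.inr j ∈ X' → i = j := by
      intro X' hX' i j hi hj
      rw [← toLeft_disjSum_toRight (u := X'), mem_cf] at hX'
      rw [← mem_toRight] at hi hj
      rcases hX' with ⟨h1, _⟩ | ⟨i', h1, _⟩
      · rw [h1] at hi
        exact absurd hi (notMem_empty _)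
      · rw [h1, mem_singleton] at hi hj
        rw [hi, hj]
    have htwo : ∀ i j, Sum.inr i ∈ X → Sum.inr j ∈ X → i = j := by
      intro i j hi hj
      by_contra hij
      have h1 : 2 < X.card := by omega
      obtain ⟨x, hx, hxi, hxj⟩ : ∃ x ∈ X, x ≠ Sum.inr i ∧ x ≠ Sum.inr j := by
        by_contra hcon
        push Not at hcon
        have h2 : X ⊆ {Sum.inr i, Sum.inr j} := by
          intro x hx
          rw [mem_insert, mem_singleton]
          by_cases h : x = Sum.inr i
          · exact Or.inl h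
          · exact Or.inr (hcon x hx h)
        have h3 := card_le_card h2
        have h4 := card_le_two (a := (Sum.inr i : Fin n ⊕ Fin r)) (b := Sum.inr j)
        omega
      obtain ⟨X', hX', hsub⟩ := hall (X.erase x) (erase_subset _ _)
        (by rw [card_erase_of_mem hx, hXc]; rfl)
      exact hij (hsmall X' hX' i j (hsub (mem_erase.2 ⟨hxi.symm, hi⟩))
        (hsub (mem_erase.2 ⟨hxj.symm, hj⟩)))
    rw [← toLeft_disjSum_toRight (u := X)] at hXc hall htwo ⊢
    generalize X.toLeft = T at *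
    generalize X.toRight = s at *
    rw [card_disjSum] at hXc
    rw [mem_cf]
    rcases s.eq_empty_or_nonempty with rfl | ⟨i, hi⟩
    · left
      refine ⟨rfl, mem_powersetCard.2 ⟨subset_univ _, ?_⟩⟩
      rw [card_empty] at hXc
      omega
    · right
      have hs : s = {i} := by
        refine eq_singleton_iff_unique_mem.2 ⟨hi, fun j hj => ?_⟩
        exact htwo j i (inr_mem_disjSum.2 hj) (inr_mem_disjSum.2 hi)
      subst hs
      rw [card_singleton] at hXc
      refine ⟨i, rfl, (hF i).closed T (by omega) fun Y hY hYc => ?_⟩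
      obtain ⟨X', hX', hsub⟩ := hall (Y.disjSum {i}) (disjSum_mono hY (Subset.refl _))
        (by rw [card_disjSum, hYc, card_singleton])
      rw [← toLeft_disjSum_toRight (u := X')] at hX' hsub
      rw [disjSum_subset, toLeft_disjSum, toRight_disjSum] at hsub
      rw [mem_cf] at hX'
      rcases hX' with ⟨h1, _⟩ | ⟨i', h1, h2⟩
      · rw [h1] at hsub
        exact absurd (hsub.2 (mem_singleton_self i)) (notMem_empty _)
      · rw [h1] at hsub
        have h3 : i = i' := mem_singleton.1 (hsub.2 (mem_singleton_self i))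
        subst h3
        exact ⟨_, h2, hsub.1⟩

theorem cones {n l r : ℕ} (hl : 1 ≤ l) (hn : l + 2 ≤ n) (v : Fin r → ℤ)
    (h : ∀ i, Val n l (v i)) :
    Val (n + r) (l + 1) ((n.choose (l + 2) : ℤ) - n.choose (l + 1) + ∑ i, v i) := by
  choose F hF hv using h
  refine ⟨mapF finSumFinEquiv.toEmbedding (cf (powersetCard (l + 2) univ) F),
    (clo_cf hl hF).map (by omega) _, ?_⟩
  rw [NN_mapF]
  unfold NN
  rw [Gr_cf hn, card_cf, card_cf, card_powersetCard, card_powersetCard, card_univ,
    Fintype.card_fin]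
  have h1 : ∀ i, v i = ((F i).card : ℤ) - (Gr l (F i)).card := by
    intro i
    have h2 := hv i
    unfold NN at h2
    linarith
  simp only [h1, sum_sub_distrib]
  push_cast
  ring

/-- One new point. -/
theorem cone_one {l d : ℕ} (hl : 1 ≤ l) (hd : 2 ≤ d) {v : ℤ} (h : Val (l + d) l v) :
    Val (l + 1 + d) (l + 1) (f (l + 1) (d - 1) + v) := by
  have h1 := cones (r := 1) hl (by omega : l + 2 ≤ l + d) (fun _ => v) (fun _ => h)
  obtain ⟨e, rfl⟩ : ∃ e, d = e + 1 := ⟨d - 1, by omega⟩
  have e1 : l + (e + 1) + 1 = l + 1 + (e + 1) := by ring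
  have e2 : f (l + 1) (e + 1 - 1) + v = (((l + (e + 1)).choose (l + 2) : ℤ)) -
      (l + (e + 1)).choose (l + 1) + ∑ _i : Fin 1, v := by
    unfold f
    have e3 : l + 1 + (e + 1 - 1) = l + (e + 1) := by omega
    rw [e3]
    simp
  rw [e2, ← e1]
  exact h1

/-- Two new points. -/
theorem cone_two {l d : ℕ} (hl : 1 ≤ l) (hd : 2 ≤ d) {v w : ℤ} (hv : Val (l + d) l v)
    (hw : Val (l + d) l w) : Val (l + 1 + (d + 1)) (l + 1) (f (l + 1) (d - 1) + (v + w)) := by
  have h1 := cones (r := 2) hl (by omega : l + 2 ≤ l + d) ![v, w] (by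
    intro i
    fin_cases i
    · exact hv
    · exact hw)
  obtain ⟨e, rfl⟩ : ∃ e, d = e + 1 := ⟨d - 1, by omega⟩
  have e1 : l + (e + 1) + 2 = l + 1 + (e + 1 + 1) := by ring
  have e2 : f (l + 1) (e + 1 - 1) + (v + w) = (((l + (e + 1)).choose (l + 2) : ℤ)) -
      (l + (e + 1)).choose (l + 1) + ∑ i : Fin 2, ![v, w] i := by
    unfold f
    have e3 : l + 1 + (e + 1 - 1) = l + (e + 1) := by omega
    rw [e3]
    simp [Fin.sum_univ_two]
  rw [e2, ← e1]
  exact h1

/-- Three new points. -/
theorem cone_three {l d : ℕ} (hl : 1 ≤ l) (hd : 2 ≤ d) {u v w : ℤ} (hu : Val (l + d) l u)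
    (hv : Val (l + d) l v) (hw : Val (l + d) l w) :
    Val (l + 1 + (d + 2)) (l + 1) (f (l + 1) (d - 1) + (u + v + w)) := by
  have h1 := cones (r := 3) hl (by omega : l + 2 ≤ l + d) ![u, v, w] (by
    intro i
    fin_cases i
    · exact hu
    · exact hv
    · exact hw)
  obtain ⟨e, rfl⟩ : ∃ e, d = e + 1 := ⟨d - 1, by omega⟩
  have e1 : l + (e + 1) + 3 = l + 1 + (e + 1 + 2) := by ring
  have e2 : f (l + 1) (e + 1 - 1) + (u + v + w) = (((l + (e + 1)).choose (l + 2) : ℤ)) -
      (l + (e + 1)).choose (l + 1) + ∑ i : Fin 3, ![u, v, w] i := by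
    unfold f
    have e3 : l + 1 + (e + 1 - 1) = l + (e + 1) := by omega
    rw [e3]
    simp [Fin.sum_univ_three]
  rw [e2, ← e1]
  exact h1

end Pool.Agent.Work.MP_0ea01d_co.Det
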