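import Pool.Agent.Work.MP_0ea01d_co.GapMain
import Pool.Agent.Work.MP_0ea01d_co.Upper

/-!
# Determination of S(n,l) above a window of length O(n): definitions

Row MP_0ea01d_co, new hand-in `Determination` (folder Det). The ground set always has
`n = l + d` elements.
-/

set_option autoImplicit false

namespace Pool.Agent.Work.MP_0ea01d_co.Det

open Finset

/-- `v` is a value: some closed family `F` of `(l+1)`-sets on `n` points has
`|F| - |Gr l F| = v`. The elements of `S n l` are the numbers `C(n,l) + v` (see `val_iff`). -/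
def Val (n l : ℕ) (v : ℤ) : Prop := ∃ F : Finset (Finset (Fin n)), Clo l F ∧ NN l F = -v

/-- `f l d = C(l+d,l+1) - C(l+d,l)`, the value of the complete family on `l + d` points. -/
def f (l d : ℕ) : ℤ := ((l + d).choose (l + 1) : ℤ) - (l + d).choose l

/-- `cc d = (d - 1) * ⌈d / 2⌉`. -/
def cc (d : ℕ) : ℤ := ((d : ℤ) - 1) * ((d + 1) / 2 : ℕ)

/-- `x = C(a,2) + C(b,2) + c` with `c ≤ b ≤ a`, `1 ≤ a` and `a + b ≤ t`. -/
def Rep (t x : ℕ) : Prop :=
  ∃ a b c : ℕ, c ≤ b ∧ b ≤ a ∧ 1 ≤ a ∧ a + b ≤ t ∧ x = a.choose 2 + b.choose 2 + c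

/-- The loss of a family of `l`-sets on `n` points: `|G| (n - l) - |∂⁺ G|`. -/
def loss {n : ℕ} (l : ℕ) (G : Finset (Finset (Fin n))) : ℤ :=
  (G.card : ℤ) * ((n : ℤ) - l) - (upShadow G).card

end Pool.Agent.Work.MP_0ea01d_co.Det
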