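import Pool.Agent.Work.MP_0ea01d_co.Det.Interval

/-!
# All sizes below `T(n,l)` from the minimum plus the window on
-/

set_option autoImplicit false

namespace Pool.Agent.Work.MP_0ea01d_co.Det

theorem num_low {k : ℕ} (hk : 5 ≤ k) : ((k : ℤ) + 1) ^ 3 ≤ 2 * f k (k + 2) := by
  induction k, hk using Nat.le_induction with
  | base => decide +kernel
  | succ k hk ih =>
    obtain ⟨j, rfl⟩ : ∃ j, k = j + 1 := ⟨k - 1, by omega⟩
    obtain ⟨i, rfl⟩ : ∃ i, j = i + 1 := ⟨j - 1, by omega⟩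
    have a1 := f_succ (i + 1 + 1) (i + 1 + 1 + 2)
    have a2 : f (i + 1 + 1 + 1) (i + 1 + 1 + 2) = 0 := f_diag (i + 1 + 1 + 1)
    have a3 := f_succ (i + 1) (i + 1 + 1 + 2)
    have a4 := f_succ (i + 1) (i + 1 + 2)
    have a5 : f (i + 1 + 1) (i + 1 + 2) = 0 := f_diag (i + 1 + 1)
    have a6 := f_succ i (i + 1 + 1 + 2)
    have a7 := f_nonneg (l := i) (d := i + 1 + 1 + 2 + 1) (by omega)
    have b1 : f (i + 1 + 1 + 1) (i + 1 + 1 + 1 + 2) = f (i + 1 + 1 + 1) (i + 1 + 1 + 2 + 1) := rfl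
    have b2 : f (i + 1 + 1) (i + 1 + 1 + 2) = f (i + 1 + 1) (i + 1 + 2 + 1) := rfl
    have b3 : f (i + 1) (i + 1 + 1 + 2) = f (i + 1) (i + 1 + 2 + 1) := rfl
    have h2 : 2 * f (i + 1 + 1) (i + 1 + 1 + 2) ≤ f (i + 1 + 1 + 1) (i + 1 + 1 + 1 + 2) := by
      rw [b1]
      linarith
    have hi : (3 : ℤ) ≤ i := by
      have : 3 ≤ i := by omega
      exact_mod_cast this
    push_cast at ih ⊢
    nlinarith [mul_nonneg (show (0 : ℤ) ≤ (i : ℤ) - 3 by linarith) (sq_nonneg ((i : ℤ)))]

theorem low_gap {l d : ℕ} {v : ℤ} (hl : 6 ≤ l) (hd : l + 1 ≤ d) (h0 : -((l ^ 3 / 2 : ℕ) : ℤ) ≤ v)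
    (h1 : v ≤ 0) (h2 : v ≤ f l d - cc d) : Val (l + d) l v := by
  obtain ⟨k, rfl⟩ : ∃ k, l = k + 1 := ⟨l - 1, by omega⟩
  have hnum := num_low (k := k) (by omega)
  have hlow := f_low k
  have hint := interval k (by omega) (k + 2) (by omega)
  have hcc := cc_le (d := k + 2) (by omega)
  have hcc0 := cc_ge (d := k + 2) (by omega)
  have hv : -f k (k + 2) ≤ v := by
    refine le_trans ?_ h0
    have h3 : 2 * ((k + 1) ^ 3 / 2 : ℕ) ≤ (k + 1) ^ 3 := Nat.mul_div_le _ _
    have h4 : 2 * (((k + 1) ^ 3 / 2 : ℕ) : ℤ) ≤ ((k : ℤ) + 1) ^ 3 := by exact_mod_cast h3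
    linarith
  have hk : (5 : ℤ) ≤ k := by
    have : 5 ≤ k := by omega
    exact_mod_cast this
  push_cast at hcc hcc0
  rcases Nat.eq_or_lt_of_le hd with hd' | hd'
  · subst hd'
    have h3 : f (k + 1) (k + 1 + 1) = 0 := f_diag (k + 1)
    have h4 := hint (v + f k (k + 2)) (by linarith) (by
      rw [h3] at h2
      have e : cc (k + 1 + 1) = cc (k + 2) := rfl
      rw [e] at h2
      linarith)
    have h5 := cone_one (by omega) (by omega) h4
    have e : f (k + 1) (k + 2 - 1) + (v + f k (k + 2)) = v := by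
      have : k + 2 - 1 = k + 1 := by omega
      rw [this, hlow]
      ring
    rw [e] at h5
    exact h5
  · obtain ⟨x, y, hx0, hx1, hy0, hy1, hxy⟩ := split_two (w := v + f k (k + 2))
      (z := f k (k + 2) - cc (k + 2)) (by linarith) (by nlinarith)
    have h5 := cone_two (by omega) (by omega) (hint x hx0 hx1) (hint y hy0 hy1)
    have e : f (k + 1) (k + 2 - 1) + (x + y) = v := by
      have : k + 2 - 1 = k + 1 := by omega
      rw [this, hlow, ← hxy]
      ring
    rw [e] at h5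
    exact h5.mono (by omega) (by omega)

theorem low_gap_five {d : ℕ} {v : ℤ} (hd : 8 ≤ d) (h0 : -62 ≤ v) (h1 : v ≤ 0) :
    Val (5 + d) 5 v := by
  have k1 : f 5 5 = -42 := by decide +kernel
  have k2 : f 4 6 = 42 := by decide +kernel
  have k3 : cc 6 = 15 := by decide +kernel
  have k4 : f 4 4 = -14 := by decide +kernel
  have k5 : f 3 5 = 14 := by decide +kernel
  have k6 : cc 5 = 12 := by decide +kernel
  have hint := interval 4 (by omega) 6 (by omega)
  have hneg : Val (4 + 6) 4 (-10) := by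
    have h3 := interval 3 (by omega) 5 (by omega) 2 (by norm_num) (by rw [k5, k6]; norm_num)
    have h4 := cone_two (l := 3) (d := 5) (by omega) (by omega) h3 h3
    have e : f (3 + 1) (5 - 1) + (2 + 2) = -10 := by
      have : f (3 + 1) (5 - 1) = -14 := k4
      rw [this]
      norm_num
    rw [e] at h4
    exact h4
  have hfin : ∀ a b c : ℤ, Val (4 + 6) 4 a → Val (4 + 6) 4 b → Val (4 + 6) 4 c →
      v = -42 + (a + b + c) → Val (5 + d) 5 v := by
    intro a b c ha hb hc hv
    have h4 := cone_three (l := 4) (d := 6) (by omega) (by omega) ha hb hc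
    have e : f (4 + 1) (6 - 1) + (a + b + c) = v := by
      have : f (4 + 1) (6 - 1) = -42 := k1
      rw [this, hv]
    rw [e] at h4
    exact h4.mono (by omega) (by omega)
  rw [k2, k3] at hint
  by_cases h : -42 ≤ v
  · obtain ⟨x, y, hx0, hx1, hy0, hy1, hxy⟩ := split_two (w := v + 42) (z := 42 - 15)
      (by linarith) (by linarith)
    exact hfin x y 0 (hint x hx0 hx1) (hint y hy0 hy1) (val_zero _ _) (by linarith)
  · push Not at h
    exact hfin (-10) (-10) (v + 62) hneg hneg (hint _ (by linarith) (by linarith)) (by ring)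

/-- The window is empty in small cases. -/
theorem window_small {l n : ℕ} (hl : 3 ≤ l) (hl5 : l ≤ 5) (hn : n < 4 * l + 50)
    (h5 : l = 5 → n < 13) : n.choose l < 4 * l ^ 6 * n + 1 := by
  have h : ∀ l < 6, ∀ n < 70, (3 ≤ l ∧ n < 4 * l + 50 ∧ (l ≠ 5 ∨ n < 13)) →
      n.choose l < 4 * l ^ 6 * n + 1 := by
    decide +kernel
  exact h l (by omega) n (by omega) ⟨hl, hn, by omega⟩

/-- Every size from `min + 4 l ^ 6 n` to `C(n,l+1) - cc d = T(n,l)` occurs (`n = l + d`). -/
theorem lower_half {l d m m₀ : ℕ} (hl : 3 ≤ l) (hd : l + 1 ≤ d) (hm₀ : m₀ ∈ S (l + d) l)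
    (h1 : m₀ + 4 * l ^ 6 * (l + d) ≤ m) (h2 : (m : ℤ) ≤ (l + d).choose (l + 1) - cc d) :
    m ∈ S (l + d) l := by
  have h2' : (m : ℤ) - (l + d).choose l ≤ f l d - cc d := by
    unfold f
    linarith
  by_cases c1 : (l + d).choose l ≤ m
  · rw [val_iff (by omega)]
    have : ((l + d).choose l : ℤ) ≤ m := by exact_mod_cast c1
    exact interval l (by omega) d hd _ (by linarith) h2'
  · push Not at c1
    by_cases c2 : m + l ^ 3 / 2 ≤ (l + d).choose l
    · exact gap_final hl (by omega) hm₀ h1 (Or.inl c2)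
    · push Not at c2
      by_cases c3 : 4 * l + 50 ≤ l + d
      · exact gap_final hl (by omega) hm₀ h1 (Or.inr ⟨c3, c1.le⟩)
      · push Not at c3
        have c1' : (m : ℤ) < (l + d).choose l := by exact_mod_cast c1
        have c2' : ((l + d).choose l : ℤ) < m + (l ^ 3 / 2 : ℕ) := by exact_mod_cast c2
        by_cases c4 : 6 ≤ l
        · rw [val_iff (by omega)]
          exact low_gap c4 hd (by linarith) (by linarith) h2'
        · by_cases c5 : l = 5 ∧ 8 ≤ d
          · obtain ⟨rfl, c5⟩ := c5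
            rw [val_iff (by omega)]
            have e : ((5 ^ 3 / 2 : ℕ) : ℤ) = 62 := by norm_num
            rw [e] at c2'
            exact low_gap_five c5 (by linarith) (by linarith)
          · have := window_small (n := l + d) hl (by omega) c3 (by omega)
            omega

end Pool.Agent.Work.MP_0ea01d_co.Det
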