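import Pool.Agent.Work.MP_0ea01d_co.Det.UpHalf
import Pool.Agent.Work.MP_0ea01d_co.Det.LowGap

/-!
# Determination of S(n,l) above a window of length O(n)
-/

set_option autoImplicit false

namespace Pool.Agent.Work.MP_0ea01d_co.Det

open Finset

/-- Sufficiency of the special form. -/
theorem form_mem {l d m : ℕ} (hl : 2 ≤ l) (hd : 3 ≤ d) {t x : ℕ} (htd : t ≤ d + 1)
    (hx : Rep t x) (hme : (m : ℤ) = (l + d).choose (l + 1) - t * ((d : ℤ) - 1) + x)
    (hT : ((l + d).choose (l + 1) : ℤ) - cc d < m) : m ∈ S (l + d) l := by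
  obtain ⟨a, b, c, hcb, hba, ha, hab, rfl⟩ := hx
  obtain ⟨k, rfl⟩ : ∃ k, l = k + 2 := ⟨l - 2, by omega⟩
  push_cast at hme
  obtain ⟨m', hm', hme'⟩ := upper_all d hd hba hcb (by omega) hab htd (by
    rw [hme] at hT
    unfold cc at hT
    nlinarith) k
  have : m = m' := by
    have e : k + 2 + 1 = k + 3 := rfl
    have : (m : ℤ) = m' := by
      rw [hme, hme', e]
      ring
    exact_mod_cast this
  rw [this]
  exact hm'

theorem top_mem {l d : ℕ} (hl : 1 ≤ l) (hd : 1 ≤ d) : (l + d).choose (l + 1) ∈ S (l + d) l := by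
  rw [val_iff hd]
  exact val_top hl hd

/-- For `n = 7`, `l = 3` the window contains everything. -/
theorem tiny {m : ℕ} (hm : m ∈ S (3 + 4) 3) : m < 4 * 3 ^ 6 * (3 + 4) := by
  obtain ⟨A, -, -, rfl⟩ := hm
  have h : A.card ≤ (univ : Finset (Finset (Fin (3 + 4)))).card := card_le_card (subset_univ _)
  have h2 : (univ : Finset (Finset (Fin (3 + 4)))).card = 128 := by
    rw [card_univ, Fintype.card_finset, Fintype.card_fin]
    norm_num
  omega

theorem determination {l d m μ : ℕ} (hl : 3 ≤ l) (hd : l + 1 ≤ d) (hμ : μ ∈ S (l + d) l)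
    (h1 : μ + 4 * l ^ 6 * (l + d) ≤ m) :
    m ∈ S (l + d) l ↔
      (m : ℤ) ≤ (l + d).choose (l + 1) - cc d ∨
      (m < (l + d).choose (l + 1) ∧ ∃ t x : ℕ, 1 ≤ t ∧ t ≤ d + 1 ∧ Rep t x ∧
        (m : ℤ) = (l + d).choose (l + 1) - t * ((d : ℤ) - 1) + x) ∨
      m = (l + d).choose (l + 1) := by
  constructor
  · intro hm
    by_cases h5 : 5 ≤ d
    · exact upper_half (by omega) hd h5 hm
    · exfalso
      have hl3 : l = 3 := by omega
      have hd4 : d = 4 := by omega
      subst hl3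
      subst hd4
      have := tiny hm
      omega
  · rintro (h | ⟨h2, t, x, ht1, ht2, hx, hme⟩ | rfl)
    · exact lower_half hl hd hμ h1 h
    · by_cases hT : (m : ℤ) ≤ (l + d).choose (l + 1) - cc d
      · exact lower_half hl hd hμ h1 hT
      · push Not at hT
        exact form_mem (by omega) (by omega) ht2 hx hme hT
    · exact top_mem (by omega) (by omega)

end Pool.Agent.Work.MP_0ea01d_co.Det
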