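import Pool.Agent.Work.MP_0ea01d_co.Det.Defs

/-!
# Values: basic facts

`val_iff`: from left to right `exists_clo_of_mem_S` (GapA), from right to left `Clo.mem_S`
(Good). `Val.mono`: transport `F` along `Fin.castLEEmb h` with `Clo.map` and `NN_mapF` (Good).
`val_zero`: `Clo.empty`, `NN_empty`. `val_top`: `clo_full` (GapB) for `U = univ`, and
`Gr l (powersetCard (l+1) univ) = powersetCard l univ` as in `NN_neg` (GapE) since
`l + 1 ≤ l + d`.
-/

set_option autoImplicit false

namespace Pool.Agent.Work.MP_0ea01d_co.Det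

open Finset

theorem val_iff {l d m : ℕ} (hd : 1 ≤ d) :
    m ∈ S (l + d) l ↔ Val (l + d) l ((m : ℤ) - (l + d).choose l) := by
  constructor
  · intro h
    obtain ⟨F, hF, hm⟩ := exists_clo_of_mem_S (by omega) h
    exact ⟨F, hF, by rw [hm]; ring⟩
  · rintro ⟨F, hF, hN⟩
    obtain ⟨m', hm', he⟩ := hF.mem_S (by omega)
    have : m = m' := by
      have : (m : ℤ) = m' := by rw [he, hN]; ring
      exact_mod_cast this
    rw [this]
    exact hm'

theorem Val.mono {n n' l : ℕ} {v : ℤ} (hl : 1 ≤ l) (h : n ≤ n') (hv : Val n l v) :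
    Val n' l v := by
  obtain ⟨F, hF, hN⟩ := hv
  exact ⟨mapF (Fin.castLEEmb h) F, hF.map hl _, by rw [NN_mapF, hN]⟩

theorem val_zero (n l : ℕ) : Val n l 0 :=
  ⟨∅, Clo.empty, by rw [NN_empty]; ring⟩

theorem val_top {l d : ℕ} (hl : 1 ≤ l) (hd : 1 ≤ d) : Val (l + d) l (f l d) := by
  refine ⟨powersetCard (l + 1) univ, clo_full hl _, ?_⟩
  have h1 : Gr l (powersetCard (l + 1) (univ : Finset (Fin (l + d)))) = powersetCard l univ := by
    ext Y
    rw [mem_Gr, mem_powersetCard]
    constructor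
    · rintro ⟨T, _, _, hYc⟩
      exact ⟨subset_univ _, hYc⟩
    · rintro ⟨_, hYc⟩
      obtain ⟨T, hYT, -, hTc⟩ := exists_subsuperset_card_eq (subset_univ Y)
        (show Y.card ≤ l + 1 by omega) (by rw [card_univ, Fintype.card_fin]; omega)
      exact ⟨T, mem_powersetCard.2 ⟨subset_univ _, hTc⟩, hYT, hYc⟩
  unfold NN f
  rw [h1, card_powersetCard, card_powersetCard, card_univ, Fintype.card_fin]
  ring

end Pool.Agent.Work.MP_0ea01d_co.Det
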