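import Pool.Agent.Work.MP_0ea01d_co.Det.Cones
import Pool.Agent.Work.MP_0ea01d_co.Det.ValBasic
import Pool.Agent.Work.MP_0ea01d_co.Det.Base2

/-!
# The interval: all sizes from `C(n,l)` to `T(n,l)`

Induction on `l` (from `base`) and on `d`, with one, two new points.
-/

set_option autoImplicit false

namespace Pool.Agent.Work.MP_0ea01d_co.Det

/-- Splitting a number in two. -/
theorem split_two {w z : ℤ} (h0 : 0 ≤ w) (h1 : w ≤ 2 * z) :
    ∃ x y : ℤ, 0 ≤ x ∧ x ≤ z ∧ 0 ≤ y ∧ y ≤ z ∧ w = x + y := by
  by_cases h : w ≤ z
  · exact ⟨w, 0, h0, h, le_rfl, by linarith, by ring⟩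
  · exact ⟨z, w - z, by linarith, le_rfl, by linarith, by linarith, by ring⟩

theorem interval_step {l : ℕ} (hl : 2 ≤ l)
    (ih : ∀ d : ℕ, l + 1 ≤ d → ∀ v : ℤ, 0 ≤ v → v ≤ f l d - cc d → Val (l + d) l v) :
    ∀ d : ℕ, l + 2 ≤ d → ∀ v : ℤ, 0 ≤ v → v ≤ f (l + 1) d - cc d → Val (l + 1 + d) (l + 1) v := by
  intro d hd
  induction d, hd using Nat.le_induction with
  | base =>
    intro v h0 h1
    exfalso
    have h2 : f (l + 1) (l + 2) = 0 := f_diag (l + 1)
    have h3 := cc_ge (d := l + 2) (by omega)
    have h4 : 0 < ((l + 2 : ℕ) : ℤ) * (((l + 2 : ℕ) : ℤ) - 1) := by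
      push_cast
      have : (0 : ℤ) ≤ l := by positivity
      nlinarith
    linarith
  | succ d hd ihd =>
    intro v h0 h1
    have hs := f_succ l d
    by_cases c1 : f (l + 1) d ≤ v
    · have h2 := ih (d + 1) (by omega) (v - f (l + 1) d) (by linarith) (by linarith)
      have h3 := cone_one (by omega) (by omega) h2
      have e : f (l + 1) (d + 1 - 1) + (v - f (l + 1) d) = v := by
        have : d + 1 - 1 = d := rfl
        rw [this]
        ring
      rwa [e] at h3
    · push Not at c1
      by_cases c2 : v ≤ f (l + 1) d - cc d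
      · exact (ihd v h0 c2).mono (by omega) (by omega)
      · push Not at c2
        have hdl : l + 3 ≤ d := by
          by_contra hcon
          have : d = l + 2 := by omega
          subst this
          have h2 : f (l + 1) (l + 2) = 0 := f_diag (l + 1)
          linarith
        obtain ⟨e, rfl⟩ : ∃ e, d = e + 1 := ⟨d - 1, by omega⟩
        have hs' := f_succ l e
        -- the two new values
        have hfin : ∀ z : ℤ, (∀ x : ℤ, 0 ≤ x → x ≤ z → Val (l + (e + 1)) l x) →
            0 ≤ v - f (l + 1) e → v - f (l + 1) e ≤ 2 * z →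
            Val (l + 1 + (e + 1 + 1)) (l + 1) v := by
          intro z hz hw0 hw1
          obtain ⟨x, y, hx0, hx1, hy0, hy1, hxy⟩ := split_two hw0 hw1
          have h3 := cone_two (by omega) (by omega) (hz x hx0 hx1) (hz y hy0 hy1)
          have e2 : f (l + 1) (e + 1 - 1) + (x + y) = v := by
            have : e + 1 - 1 = e := rfl
            rw [this, ← hxy]
            ring
          rwa [e2] at h3
        by_cases hsp : l = 2 → 7 ≤ e + 1
        · have hn := num_cone hl hdl hsp
          exact hfin (f l (e + 1) - cc (e + 1)) (ih (e + 1) (by omega))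
            (by
              have hc := cc_ge (d := e + 1) (by omega)
              have h4 : 0 ≤ ((e + 1 : ℕ) : ℤ) * (((e + 1 : ℕ) : ℤ) - 1) := by
                push_cast
                have : (0 : ℤ) ≤ e := by positivity
                nlinarith
              linarith) (by linarith)
        · push Not at hsp
          obtain ⟨rfl, he⟩ := hsp
          have he' : e = 4 ∨ e = 5 := by omega
          rcases he' with rfl | rfl
          · have k1 : f (2 + 1) 4 = 0 := f_diag 3
            have k2 : f (2 + 1) (4 + 1) = 14 := by decide +kernel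
            have k3 : cc (4 + 1) = 12 := by decide +kernel
            exact hfin 7 (fun x hx0 hx1 => val_seven hx0 hx1) (by linarith) (by linarith)
          · have k1 : f (2 + 1) 5 = 14 := by decide +kernel
            have k2 : f (2 + 1) (5 + 1) = 42 := by decide +kernel
            have k3 : cc (5 + 1) = 15 := by decide +kernel
            exact hfin 16 (fun x hx0 hx1 => val_eight hx0 hx1) (by linarith) (by linarith)

/-- Every value from `0` to `f l d - cc d` occurs on `l + d` points. -/
theorem interval : ∀ l : ℕ, 2 ≤ l → ∀ d : ℕ, l + 1 ≤ d → ∀ v : ℤ, 0 ≤ v → v ≤ f l d - cc d →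
    Val (l + d) l v := by
  intro l hl
  induction l, hl using Nat.le_induction with
  | base => exact fun d _ v h0 h1 => base h0 h1
  | succ l hl ih => exact interval_step hl ih

end Pool.Agent.Work.MP_0ea01d_co.Det
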