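import Mathlib

/-!
# Initial segments of the colex order

`low n k` = the first `k` points of `Fin n`.
* `initSeg_low`: copy the last lines of the proof of `Finset.kruskal_katona_lovasz_form` in
  Mathlib (Combinatorics/SetFamily/KruskalKatona), with `low n k` in place of `range'k`
  (`Colex.forall_lt_mono`, `toColex_image_lt_toColex_image Fin.val_strictMono`).
* `exists_initSeg_card`: induction on `t`. For `t + 1 ≤ C(n,r)` take `𝒞` for `t`;
  `powersetCard r univ \ 𝒞` is not empty; let `s` be its element with the least `toColex`
  (`Finset.exists_min_image`). `insert s 𝒞` is an initial segment: if `t'` has `r` elements and is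
  below `s`, then `t' ∈ 𝒞` by minimality.
* `initSeg_between`: `Colex.IsInitSeg.total` with `initSeg_low`; in the wrong alternative the
  cardinalities force equality (`eq_of_subset_of_card_le`).
-/

set_option autoImplicit false

namespace Pool.Agent.Work.MP_0ea01d_co.Det

open Finset

/-- The first `k` points. -/
def low (n k : ℕ) : Finset (Fin n) := univ.filter fun i => i.val < k

theorem mem_low {n k : ℕ} {i : Fin n} : i ∈ low n k ↔ i.val < k := by
  simp [low]

theorem card_low {n k : ℕ} (h : k ≤ n) : (low n k).card = k := by
  have e : (low n k).map Fin.valEmbedding = range k := by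
    ext x
    simp only [mem_map, mem_low, Fin.valEmbedding_apply, mem_range]
    constructor
    · rintro ⟨i, hi, rfl⟩
      exact hi
    · intro hx
      exact ⟨⟨x, by omega⟩, hx, rfl⟩
  rw [← card_map Fin.valEmbedding, e, card_range]

theorem initSeg_low (n r k : ℕ) : Colex.IsInitSeg (powersetCard r (low n k)) r := by
  refine ⟨Set.sized_powersetCard _ _, ?_⟩
  rintro A B hA ⟨HB₁, HB₂⟩
  rw [mem_powersetCard] at hA ⊢
  refine ⟨fun t ht ↦ ?_, ‹_›⟩
  rw [mem_low]
  have h1 : toColex (image Fin.val B) < toColex (image Fin.val A) := by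
    rwa [Colex.toColex_image_lt_toColex_image Fin.val_strictMono]
  apply Colex.forall_lt_mono h1.le _ t (mem_image.2 ⟨t, ht, rfl⟩)
  simp_rw [mem_image]
  rintro _ ⟨a, ha, hab⟩
  rw [← hab]
  exact mem_low.1 (hA.1 ha)

theorem exists_initSeg_card (n r t : ℕ) (ht : t ≤ n.choose r) :
    ∃ C : Finset (Finset (Fin n)), Colex.IsInitSeg C r ∧ C.card = t := by
  induction t with
  | zero => exact ⟨∅, Colex.isInitSeg_empty, card_empty⟩
  | succ t ih =>
    obtain ⟨C, hC, hCt⟩ := ih (by omega)
    have hne : (powersetCard r (univ : Finset (Fin n)) \ C).Nonempty := by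
      rw [sdiff_nonempty]
      intro h
      have h1 := card_le_card h
      rw [card_powersetCard, card_univ, Fintype.card_fin] at h1
      omega
    obtain ⟨s, hs, hmin⟩ := exists_min_image _ (fun s : Finset (Fin n) => toColex s) hne
    rw [mem_sdiff, mem_powersetCard] at hs
    refine ⟨insert s C, ⟨?_, ?_⟩, by rw [card_insert_of_notMem hs.2, hCt]⟩
    · intro u hu
      rw [mem_coe, mem_insert] at hu
      rcases hu with rfl | hu
      · exact hs.1.2
      · exact hC.1 hu
    · rintro u v hu ⟨hvu, hv⟩
      rw [mem_insert] at hu ⊢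
      by_contra hcon
      rw [not_or] at hcon
      have h1 := hmin v (by
        rw [mem_sdiff, mem_powersetCard]
        exact ⟨⟨subset_univ _, hv⟩, hcon.2⟩)
      rcases hu with rfl | hu
      · exact absurd hvu (not_lt.2 h1)
      · exact hcon.2 (hC.2 hu ⟨hvu, hv⟩)

theorem initSeg_between {n r k : ℕ} {C : Finset (Finset (Fin n))} (h : Colex.IsInitSeg C r)
    (hk : k + 1 ≤ n) (h1 : k.choose r ≤ C.card) (h2 : C.card ≤ (k + 1).choose r) :
    powersetCard r (low n k) ⊆ C ∧ C ⊆ powersetCard r (low n (k + 1)) := by
  have c1 : (powersetCard r (low n k)).card = k.choose r := by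
    rw [card_powersetCard, card_low (by omega)]
  have c2 : (powersetCard r (low n (k + 1))).card = (k + 1).choose r := by
    rw [card_powersetCard, card_low hk]
  constructor
  · rcases (initSeg_low n r k).total h with h3 | h3
    · exact h3
    · exact (eq_of_subset_of_card_le h3 (by rw [c1]; exact h1)).symm.subset
  · rcases h.total (initSeg_low n r (k + 1)) with h3 | h3
    · exact h3
    · exact (eq_of_subset_of_card_le h3 (by rw [c2]; exact h2)).symm.subset

end Pool.Agent.Work.MP_0ea01d_co.Det
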