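import Pool.Agent.Work.MP_0ea01d_co.Det.KKa

/-!
# Splitting a family at its last point

Let `v` be the point with number `k`, so `low n (k+1) = insert v (low n k)`, `v ∉ low n k`. Members
of `C` not containing `v` are exactly the `r`-subsets of `low n k`. Let
`D = (C.filter (v ∈ ·)).image (·.erase v)`. Then `D ⊆ powersetCard (r-1) (low n k)` and
`|C| = C(k,r) + |D|` (erasing `v` is injective on sets containing `v`). The shadow of `C` contains
all `(r-1)`-subsets of `low n k` (each lies in an `r`-subset of `low n k` as `r ≤ k`), none of which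
contains `v`, and all sets `insert v R` with `R ∈ ∂ D` (if `R = A.erase x`, `A ∈ D`, `x ∈ A`, then
`insert v R = (insert v A).erase x`, `insert v A ∈ C`, `x ≠ v`); these contain `v` and
`R ↦ insert v R` is injective on sets not containing `v`.
-/

set_option autoImplicit false

namespace Pool.Agent.Work.MP_0ea01d_co.Det

open Finset

private theorem shadow_low {n r k : ℕ} (hr : 1 ≤ r) (hrk : r ≤ k) (hkn : k ≤ n)
    {C : Finset (Finset (Fin n))} (h1 : powersetCard r (low n k) ⊆ C) :
    powersetCard (r - 1) (low n k) ⊆ shadow C := by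
  intro B hB
  rw [mem_powersetCard] at hB
  have hlt : B.card < (low n k).card := by
    rw [hB.2, card_low hkn]
    omega
  obtain ⟨x, hx, hxB⟩ := exists_mem_notMem_of_card_lt_card hlt
  rw [mem_shadow_iff_insert_mem]
  refine ⟨x, hxB, h1 ?_⟩
  rw [mem_powersetCard]
  refine ⟨insert_subset hx hB.1, ?_⟩
  rw [card_insert_of_notMem hxB, hB.2]
  omega

theorem split_last {n r k : ℕ} (hk : k + 1 ≤ n) (hr : 1 ≤ r) (hrk : r ≤ k)
    {C : Finset (Finset (Fin n))} (h1 : powersetCard r (low n k) ⊆ C)
    (h2 : C ⊆ powersetCard r (low n (k + 1))) :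
    ∃ D : Finset (Finset (Fin n)), D ⊆ powersetCard (r - 1) (low n k) ∧
      C.card = k.choose r + D.card ∧ k.choose (r - 1) + (shadow D).card ≤ (shadow C).card := by
  classical
  set v : Fin n := ⟨k, by omega⟩ with hv
  have hvl : v ∉ low n k := by
    rw [mem_low]
    exact lt_irrefl _
  have hlow : ∀ i : Fin n, i ∈ low n (k + 1) → i ≠ v → i ∈ low n k := by
    intro i hi hne
    rw [mem_low] at hi ⊢
    have : i.val ≠ k := fun e => hne (Fin.ext e)
    omega
  set D := (C.filter (fun X => v ∈ X)).image (fun X => X.erase v) with hD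
  have hDsub : D ⊆ powersetCard (r - 1) (low n k) := by
    intro R hR
    rw [hD, mem_image] at hR
    obtain ⟨X, hX, rfl⟩ := hR
    rw [mem_filter] at hX
    have hX2 := mem_powersetCard.1 (h2 hX.1)
    rw [mem_powersetCard]
    refine ⟨fun i hi => ?_, ?_⟩
    · rw [mem_erase] at hi
      exact hlow i (hX2.1 hi.2) hi.1
    · rw [card_erase_of_mem hX.2, hX2.2]
  have hno : C.filter (fun X => ¬ v ∈ X) = powersetCard r (low n k) := by
    ext X
    rw [mem_filter]
    constructor
    · rintro ⟨hX, hvX⟩
      have hX2 := mem_powersetCard.1 (h2 hX)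
      rw [mem_powersetCard]
      exact ⟨fun i hi => hlow i (hX2.1 hi) (fun e => hvX (e ▸ hi)), hX2.2⟩
    · intro hX
      exact ⟨h1 hX, fun hvX => hvl ((mem_powersetCard.1 hX).1 hvX)⟩
  have hcardD : D.card = (C.filter (fun X => v ∈ X)).card := by
    rw [hD]
    apply card_image_of_injOn
    intro X hX Y hY hXY
    rw [mem_coe, mem_filter] at hX hY
    have h : insert v (X.erase v) = insert v (Y.erase v) := by
      simp only at hXY
      rw [hXY]
    rwa [insert_erase hX.2, insert_erase hY.2] at h
  have hcard : C.card = k.choose r + D.card := by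
    rw [← card_filter_add_card_filter_not (s := C) (fun X => v ∈ X), hno, card_powersetCard,
      card_low (by omega), hcardD, add_comm]
  have hvR : ∀ R ∈ shadow D, v ∉ R := by
    intro R hR
    obtain ⟨a, ha, haR⟩ := mem_shadow_iff_insert_mem.1 hR
    intro hvR
    exact hvl ((mem_powersetCard.1 (hDsub haR)).1 (mem_insert_of_mem hvR))
  have hsh : powersetCard (r - 1) (low n k) ∪ (shadow D).image (fun R => insert v R) ⊆
      shadow C := by
    refine union_subset (shadow_low hr hrk (by omega) h1) ?_
    intro Z hZ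
    rw [mem_image] at hZ
    obtain ⟨R, hR, rfl⟩ := hZ
    obtain ⟨a, ha, haR⟩ := mem_shadow_iff_insert_mem.1 hR
    have haR' := haR
    rw [hD, mem_image] at haR
    obtain ⟨X, hX, hXe⟩ := haR
    rw [mem_filter] at hX
    have hav : a ≠ v := by
      intro e
      exact hvl ((mem_powersetCard.1 (hDsub haR')).1 (e ▸ mem_insert_self a R))
    rw [mem_shadow_iff_insert_mem]
    refine ⟨a, ?_, ?_⟩
    · rw [mem_insert]
      rintro (h | h)
      · exact hav h
      · exact ha h
    · rw [Finset.insert_comm, ← hXe, insert_erase hX.2]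
      exact hX.1
  have hdisj : Disjoint (powersetCard (r - 1) (low n k))
      ((shadow D).image (fun R => insert v R)) := by
    rw [disjoint_left]
    intro Z hZ hZ'
    rw [mem_image] at hZ'
    obtain ⟨R, -, rfl⟩ := hZ'
    exact hvl ((mem_powersetCard.1 hZ).1 (mem_insert_self v R))
  refine ⟨D, hDsub, hcard, ?_⟩
  refine le_trans (le_of_eq ?_) (card_le_card hsh)
  rw [card_union_of_disjoint hdisj, card_powersetCard, card_low (by omega)]
  congr 1
  refine (card_image_of_injOn ?_).symm
  intro R hR R' hR' h
  simp only at h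
  rw [mem_coe] at hR hR'
  rw [← erase_insert (hvR R hR), ← erase_insert (hvR R' hR'), h]

end Pool.Agent.Work.MP_0ea01d_co.Det
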