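import Mathlib

/-!
# Two lower bounds for shadows

* `lym_rel` (local LYM relative to `W`): for `r = 0` clear. Otherwise `card_mul_le_card_mul` /
  `Finset.card_mul_le_card_mul'` for the relation `B ⊆ A` between `A ∈ 𝒜` and `B ∈ ∂ 𝒜`: each `A`
  has the `r` subsets `A.erase x`; each `B ∈ ∂ 𝒜` has `r - 1` elements, `B ⊆ W`, and every
  `A ∈ 𝒜` containing `B` is `insert x B` with `x ∈ W \ B`, which has `|W| - r + 1` elements. (The
  proof of `Finset.local_lubell_yamamoto_meshalkin_inequality_mul` in Mathlib, relative to `W`.)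
* `small_shadow`: induction on `𝒜`. `∂ (insert A 𝒜) = ∂ {A} ∪ ∂ 𝒜`, `|∂ {A}| = r`, and
  `|∂ {A} ∩ ∂ 𝒜| ≤ |𝒜|`: a set `B` in the intersection has `r - 1` elements and is contained in
  `A` and in some `A' ∈ 𝒜`, `A' ≠ A`, so `B = A ∩ A'`. And `C(k+1,2) = C(k,2) + k`.
-/

set_option autoImplicit false

namespace Pool.Agent.Work.MP_0ea01d_co.Det

open Finset

theorem lym_rel {α : Type} [DecidableEq α] {W : Finset α} {r : ℕ} {A : Finset (Finset α)}
    (h : A ⊆ powersetCard r W) (hr : r ≤ W.card) :
    A.card * r ≤ (shadow A).card * (W.card - r + 1) := by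
  classical
  have hA : ∀ s ∈ A, s ⊆ W ∧ s.card = r := fun s hs => mem_powersetCard.1 (h hs)
  refine card_mul_le_card_mul' (· ⊆ ·) (fun s hs => ?_) (fun s hs => ?_)
  · rw [← (hA s hs).2, ← card_image_of_injOn s.erase_injOn]
    refine card_le_card ?_
    simp_rw [image_subset_iff, mem_bipartiteBelow]
    exact fun a ha => ⟨erase_mem_shadow hs ha, erase_subset _ _⟩
  · obtain ⟨u, hu, a, ha, rfl⟩ := mem_shadow_iff.1 hs
    have hu' := hA u hu
    have hc : (u.erase a).card + 1 = r := by
      rw [card_erase_of_mem ha, hu'.2]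
      have : 0 < u.card := card_pos.2 ⟨a, ha⟩
      omega
    have hsub : u.erase a ⊆ W := (erase_subset _ _).trans hu'.1
    have h1 : (bipartiteAbove (· ⊆ ·) A (u.erase a)) ⊆
        (W \ u.erase a).image (fun x => insert x (u.erase a)) := by
      intro t ht
      rw [mem_bipartiteAbove] at ht
      have ht' := hA t ht.1
      obtain ⟨x, hx, hxt⟩ := exists_eq_insert_iff.2 ⟨ht.2, by rw [hc, ht'.2]⟩
      rw [mem_image]
      refine ⟨x, ?_, hxt⟩
      rw [mem_sdiff]
      refine ⟨ht'.1 ?_, hx⟩
      rw [← hxt]
      exact mem_insert_self _ _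
    have h2 := (card_le_card h1).trans card_image_le
    rw [card_sdiff_of_subset hsub] at h2
    omega

theorem small_shadow {α : Type} [DecidableEq α] {r : ℕ} {A : Finset (Finset α)}
    (h : ∀ X ∈ A, X.card = r) : A.card * r ≤ (shadow A).card + A.card.choose 2 := by
  classical
  induction A using Finset.induction_on with
  | empty => simp
  | insert X A hX ih =>
    have ih' := ih (fun Y hY => h Y (mem_insert_of_mem hY))
    have hXr : X.card = r := h X (mem_insert_self _ _)
    set E : Finset (Finset α) := X.image (fun x => X.erase x) with hE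
    have hEc : E.card = r := by
      rw [hE, card_image_of_injOn X.erase_injOn, hXr]
    have hsub : shadow A ∪ E ⊆ shadow (insert X A) := by
      rw [union_subset_iff]
      constructor
      · exact shadow_monotone (subset_insert _ _)
      · intro B hB
        rw [hE, mem_image] at hB
        obtain ⟨x, hx, rfl⟩ := hB
        exact erase_mem_shadow (mem_insert_self _ _) hx
    have hint : E ∩ shadow A ⊆ A.image (fun Y => X ∩ Y) := by
      intro B hB
      rw [mem_inter, hE, mem_image, mem_shadow_iff] at hB
      obtain ⟨⟨x, hx, hxB⟩, ⟨Y, hY, y, hy, hyB⟩⟩ := hB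
      rw [mem_image]
      refine ⟨Y, hY, ?_⟩
      have hYr : Y.card = r := h Y (mem_insert_of_mem hY)
      have hBs : B ⊆ X ∩ Y := by
        rw [subset_inter_iff]
        exact ⟨hxB ▸ erase_subset _ _, hyB ▸ erase_subset _ _⟩
      have hBc : B.card = r - 1 := by rw [← hxB, card_erase_of_mem hx, hXr]
      have hlt : (X ∩ Y).card < r := by
        rw [← hXr]
        refine card_lt_card ⟨inter_subset_left, fun hcon => ?_⟩
        have h1 : X ⊆ Y := fun z hz => (mem_inter.1 (hcon hz)).2
        have h2 : X = Y := eq_of_subset_of_card_le h1 (by rw [hYr, hXr])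
        rw [h2] at hX
        exact hX hY
      exact (eq_of_subset_of_card_le hBs (by omega)).symm
    have h1 := card_le_card hsub
    have h2 := card_union_add_card_inter (shadow A) E
    rw [inter_comm] at h2
    have h3 := (card_le_card hint).trans card_image_le
    rw [card_insert_of_notMem hX, Nat.succ_mul]
    have h4 : (A.card + 1).choose 2 = A.card + A.card.choose 2 := by
      rw [Nat.choose_succ_succ' A.card 1, Nat.choose_one_right]
    rw [h4]
    omega

end Pool.Agent.Work.MP_0ea01d_co.Det
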