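import Pool.Agent.Work.MP_0ea01d_co.Det.KKb
import Pool.Agent.Work.MP_0ea01d_co.Det.KKc
import Pool.Agent.Work.MP_0ea01d_co.Det.Num

/-!
# Families with at least `d + 2` members have a large shadow

`kk_core`: the common part. Let `t = |A|`, `n = l + d`. By `exists_initSeg_card` take an initial
segment `C` of `d`-sets with `t` members; `Finset.kruskal_katona` gives `|∂ C| ≤ |∂ A|`. If
`t = C(n,d)` then `C` consists of all `d`-sets and `|∂ C| = C(n,d-1)`. Otherwise let `k < n` be the
greatest number with `C(k,d) ≤ t` (`Nat.findGreatest`), so `t < C(k+1,d)`, `k ≥ d + 1` because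
`C(d+1,d) = d + 1 ≤ t` (and `d + 1 ≤ n` because `t ≤ C(n,d)`). `initSeg_between` and `split_last`
(with `r = d`) give `D` with `D ⊆ powersetCard (d-1) (low n k)`, `t = C(k,d) + |D|`,
`C(k,d-1) + |∂ D| ≤ |∂ C|`. With `k = d + i` (`i ≥ 1`): `C(k,d) = C(i+d,i)`,
`C(k,d-1) = C(i+d,i+1)` (symmetry), so `|∂ A| - t ≥ f i d + |∂ D| - |D|`, and `lym_rel` with
`W = low n k`, `r = d - 1`: `|D| (d-1) ≤ |∂ D| (i + 2)`.

`shadow_ge`: `n = l + d ≤ 2d - 2`. If `t = C(n,d)`: `|∂ A| - t ≥ f l d ≥ cc d` (`num_up`; `l ≥ 2`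
because `t ≥ d + 2 > C(d+1,d)`). Otherwise `kk_core` with `1 ≤ i < l`. If `i ≥ 2`:
`i + 2 ≤ d - 1` gives `|D| ≤ |∂ D|` and `f i d ≥ cc d` (`num_up`). If `i = 1`: `|D| ≥ 1`;
`3 |∂ D| ≥ (d-1) |D|` and `|∂ D| + C(|D|,2) ≥ (d-1) |D|` (`small_shadow`) give
`|∂ D| - |D| ≥ d - 2`: with `e = |D|`, if `1 ≤ e ≤ 2d - 4` then
`e (d-2) - e(e-1)/2 ≥ d - 2` since `(e-1)(d-2) ≥ e(e-1)/2`; if `e ≥ 2d - 3` then
`3 (|∂ D| - e) ≥ (2d-3)(d-4) > 3 (d-3)` (`d ≥ 5`). Then
`f 1 d + d - 2 = (d-2)(d+3)/2 ≥ (d²-1)/2 ≥ cc d`.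

`shadow_ge_mid` (`n = 2d - 1`, so `l = d - 1`): `t < C(n,d)` because `cc d ≥ 1`. `kk_core` with
`1 ≤ i ≤ d - 2`. For `i ≤ d - 3` as before. For `i = d - 2`, `k = 2d - 2`: `d |∂ D| ≥ (d-1) |D|`,
`|D| = t - C(2d-2,d) ≤ C(2d-1,d) - d cc d - C(2d-2,d) = C(2d-2,d-1) - d cc d`, and
`d * f (d-2) d = C(2d-2,d-1)` (as `C(2d-2,d) * d = C(2d-2,d-1) * (d-1)`,
`Nat.choose_succ_right_eq`), so `d (|∂ A| - t) ≥ C(2d-2,d-1) - |D| ≥ d cc d`.
-/

set_option autoImplicit false

namespace Pool.Agent.Work.MP_0ea01d_co.Det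

open Finset

private theorem cards_le {n d : ℕ} {A : Finset (Finset (Fin n))} (hA : ∀ X ∈ A, X.card = d) :
    A ⊆ powersetCard d univ := by
  intro X hX
  rw [mem_powersetCard]
  exact ⟨subset_univ _, hA X hX⟩

theorem kk_core {l d : ℕ} (hd : 1 ≤ d) {A : Finset (Finset (Fin (l + d)))}
    (hA : ∀ X ∈ A, X.card = d) (ht : d + 2 ≤ A.card) :
    (A.card = (l + d).choose l ∧ ((l + d).choose (l + 1) : ℤ) ≤ (shadow A).card) ∨
    ∃ (i : ℕ) (D : Finset (Finset (Fin (l + d)))), 1 ≤ i ∧ i < l ∧ (∀ X ∈ D, X.card = d - 1) ∧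
      (A.card : ℤ) = (i + d).choose i + D.card ∧
      f i d + (shadow D).card - D.card + A.card ≤ (shadow A).card ∧
      D.card * (d - 1) ≤ (shadow D).card * (i + 2) := by
  classical
  have hsub := cards_le hA
  have hAle : A.card ≤ (l + d).choose d := by
    have h := card_le_card hsub
    rwa [card_powersetCard, card_univ, Fintype.card_fin] at h
  have hl : 1 ≤ l := by
    by_contra hl
    have hl0 : l = 0 := by omega
    subst hl0
    have h0 : (0 + d).choose d = 1 := by rw [zero_add, Nat.choose_self]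
    omega
  have hsym : (l + d).choose d = (l + d).choose l := Nat.choose_symm_of_eq_add (by ring)
  by_cases hfull : A.card = (l + d).choose d
  · left
    refine ⟨hfull.trans hsym, ?_⟩
    have hAeq : A = powersetCard d univ := by
      refine eq_of_subset_of_card_le hsub ?_
      rw [card_powersetCard, card_univ, Fintype.card_fin, hfull]
    have hsh : powersetCard (d - 1) univ ⊆ shadow A := by
      intro B hB
      rw [mem_powersetCard] at hB
      have hlt : B.card < (univ : Finset (Fin (l + d))).card := by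
        rw [hB.2, card_univ, Fintype.card_fin]
        omega
      obtain ⟨x, hx, hxB⟩ := exists_mem_notMem_of_card_lt_card hlt
      rw [mem_shadow_iff_insert_mem]
      refine ⟨x, hxB, ?_⟩
      rw [hAeq, mem_powersetCard]
      refine ⟨subset_univ _, ?_⟩
      rw [card_insert_of_notMem hxB, hB.2]
      omega
    have h := card_le_card hsh
    rw [card_powersetCard, card_univ, Fintype.card_fin] at h
    have hs : (l + d).choose (l + 1) = (l + d).choose (d - 1) :=
      Nat.choose_symm_of_eq_add (by omega)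
    rw [hs]
    exact_mod_cast h
  · right
    have hlt : A.card < (l + d).choose d := lt_of_le_of_ne hAle hfull
    obtain ⟨C, hC, hCcard⟩ := exists_initSeg_card (l + d) d A.card hAle
    have hkk := kruskal_katona (𝒜 := A) (𝒞 := C) (r := d) (fun X hX => hA X hX)
      (le_of_eq hCcard) hC
    set k := Nat.findGreatest (fun k => k.choose d ≤ A.card) (l + d) with hk
    have hP : (d + 1).choose d ≤ A.card := by
      rw [Nat.choose_succ_self_right]
      omega
    have hk1 : k.choose d ≤ A.card :=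
      Nat.findGreatest_spec (P := fun k => k.choose d ≤ A.card) (show d + 1 ≤ l + d by omega) hP
    have hkd : d + 1 ≤ k := Nat.le_findGreatest (by omega) hP
    have hkn : k < l + d := by
      refine lt_of_le_of_ne (Nat.findGreatest_le _) fun e => ?_
      rw [e] at hk1
      omega
    have hk2 : A.card < (k + 1).choose d := by
      have h := Nat.findGreatest_is_greatest (P := fun k => k.choose d ≤ A.card) (n := l + d)
        (k := k + 1) (by omega) (by omega)
      simp only [not_le] at h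
      exact h
    have hbt := initSeg_between hC (k := k) (by omega) (by rw [hCcard]; exact hk1)
      (by rw [hCcard]; exact hk2.le)
    obtain ⟨D, hD, hDc, hDs⟩ := split_last (r := d) (k := k) (by omega) hd (by omega) hbt.1 hbt.2
    obtain ⟨i, hi⟩ : ∃ i, k = i + d := ⟨k - d, by omega⟩
    refine ⟨i, D, by omega, by omega, fun X hX => (mem_powersetCard.1 (hD hX)).2, ?_, ?_, ?_⟩
    · rw [hCcard, hi] at hDc
      have hs : (i + d).choose d = (i + d).choose i := Nat.choose_symm_of_eq_add (by ring)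
      rw [hs] at hDc
      exact_mod_cast hDc
    · rw [hCcard, hi] at hDc
      rw [hi] at hDs
      have hs : (i + d).choose d = (i + d).choose i := Nat.choose_symm_of_eq_add (by ring)
      have hs' : (i + d).choose (d - 1) = (i + d).choose (i + 1) :=
        Nat.choose_symm_of_eq_add (by omega)
      rw [hs] at hDc
      rw [hs'] at hDs
      have h1 : ((i + d).choose (i + 1) : ℤ) + (shadow D).card ≤ (shadow A).card := by
        exact_mod_cast hDs.trans hkk
      have h2 : (A.card : ℤ) = (i + d).choose i + D.card := by exact_mod_cast hDc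
      unfold f
      linarith
    · have hlc : (low (l + d) k).card = k := card_low (by omega)
      have h := lym_rel hD (by rw [hlc]; omega)
      rw [hlc] at h
      have e : k - (d - 1) + 1 = i + 2 := by omega
      rwa [e] at h

/-- the case `i = 1` -/
private theorem one_case {d : ℕ} (h5 : 5 ≤ d) {e s : ℕ} (he : 1 ≤ e) (h1 : e * (d - 1) ≤ s * 3)
    (h2 : e * (d - 1) ≤ s + e.choose 2) : cc d ≤ f 1 d + s - e := by
  have hf := f_one d
  have hcc := cc_le (d := d) (by omega)
  have hc2 : (2 : ℤ) * (e.choose 2 : ℕ) = (e : ℤ) * (e - 1) := by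
    clear h1 h2
    induction e with
    | zero => simp
    | succ n ih =>
      rcases Nat.eq_zero_or_pos n with h | h
      · subst h
        simp
      · rw [Nat.choose_succ_succ' n 1, Nat.choose_one_right]
        have := ih h
        push_cast
        linarith
  have hd1 : ((d - 1 : ℕ) : ℤ) = (d : ℤ) - 1 := by
    rw [Nat.cast_sub (by omega)]
    rfl
  have h5' : (5 : ℤ) ≤ d := by exact_mod_cast h5
  have he' : (1 : ℤ) ≤ e := by exact_mod_cast he
  have h1' : (e : ℤ) * ((d : ℤ) - 1) ≤ s * 3 := by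
    rw [← hd1]
    exact_mod_cast h1
  have h2' : (e : ℤ) * ((d : ℤ) - 1) ≤ s + (e.choose 2 : ℕ) := by
    rw [← hd1]
    exact_mod_cast h2
  have key : (d : ℤ) - 2 ≤ s - e := by
    by_cases hle : (e : ℤ) ≤ 2 * d - 4
    · nlinarith
    · push Not at hle
      have h6 : (2 : ℤ) * d - 3 ≤ e := by linarith
      have h7 : ((2 : ℤ) * d - 3) * (d - 4) ≤ e * (d - 4) :=
        mul_le_mul_of_nonneg_right h6 (by linarith)
      have h8 : 3 * ((d : ℤ) - 3) < 3 * (s - e) := by nlinarith
      linarith
  nlinarith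

private theorem deg_le {a b x : ℕ} (hx : 0 < x) {i : ℕ} (hi : i + 2 ≤ x)
    (h : a * x ≤ b * (i + 2)) : a ≤ b := by
  by_contra hc
  push Not at hc
  have h1 : b * (i + 2) ≤ b * x := Nat.mul_le_mul_left b hi
  have h2 : b * x < a * x := Nat.mul_lt_mul_of_pos_right hc hx
  omega

/-- the common case `i + 2 ≤ d - 1` -/
private theorem low_case {l d : ℕ} (h5 : 5 ≤ d) {A : Finset (Finset (Fin (l + d)))}
    (ht : d + 2 ≤ A.card) {i : ℕ} {D : Finset (Finset (Fin (l + d)))} (h1 : 1 ≤ i)
    (hid : i + 3 ≤ d) (hD : ∀ X ∈ D, X.card = d - 1)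
    (hAc : (A.card : ℤ) = (i + d).choose i + D.card)
    (hsh : f i d + (shadow D).card - D.card + A.card ≤ (shadow A).card)
    (hdeg : D.card * (d - 1) ≤ (shadow D).card * (i + 2)) :
    (A.card : ℤ) + cc d ≤ (shadow A).card := by
  rcases Nat.lt_or_ge i 2 with hi | hi
  · have hi1 : i = 1 := by omega
    subst hi1
    have he : 1 ≤ D.card := by
      have h : ((1 + d).choose 1 : ℤ) = 1 + d := by
        rw [Nat.choose_one_right]
        push_cast
        ring
      rw [h] at hAc
      have ht' : (d : ℤ) + 2 ≤ A.card := by exact_mod_cast ht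
      have : (1 : ℤ) ≤ D.card := by linarith
      exact_mod_cast this
    have h := one_case h5 he hdeg (small_shadow hD)
    linarith
  · have h2 := num_up hi (show i + 2 ≤ d by omega) h5
    have h3 := deg_le (show 0 < d - 1 by omega) (show i + 2 ≤ d - 1 by omega) hdeg
    have h3' : (D.card : ℤ) ≤ (shadow D).card := by exact_mod_cast h3
    linarith

theorem shadow_ge {l d : ℕ} (hd : l + 2 ≤ d) (h5 : 5 ≤ d) {A : Finset (Finset (Fin (l + d)))}
    (hA : ∀ X ∈ A, X.card = d) (ht : d + 2 ≤ A.card) :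
    (A.card : ℤ) + cc d ≤ (shadow A).card := by
  rcases kk_core (by omega) hA ht with ⟨h1, h2⟩ | ⟨i, D, h1, hil, hD, hAc, hsh, hdeg⟩
  · have hl : 2 ≤ l := by
      by_contra hl
      have : l = 0 ∨ l = 1 := by omega
      rcases this with h | h
      · subst h
        rw [Nat.choose_zero_right] at h1
        omega
      · subst h
        rw [Nat.choose_one_right] at h1
        omega
    have h3 := num_up hl hd h5
    unfold f at h3
    have h4 : (A.card : ℤ) = (l + d).choose l := by exact_mod_cast h1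
    linarith
  · exact low_case h5 ht h1 (by omega) hD hAc hsh hdeg

private theorem mid_f (m : ℕ) : ((m : ℤ) + 2) * f m (m + 2) = (2 * m + 2).choose (m + 1) := by
  unfold f
  have e1 : m + (m + 2) = 2 * m + 2 := by ring
  rw [e1]
  have h := Nat.choose_succ_right_eq (2 * m + 2) m
  have e2 : 2 * m + 2 - m = m + 2 := by omega
  rw [e2] at h
  have h' : ((2 * m + 2).choose (m + 1) : ℤ) * (m + 1) = (2 * m + 2).choose m * (m + 2) := by
    exact_mod_cast h
  linarith

theorem shadow_ge_mid {l d : ℕ} (hd : d = l + 1) (h5 : 5 ≤ d)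
    {A : Finset (Finset (Fin (l + d)))} (hA : ∀ X ∈ A, X.card = d) (ht : d + 2 ≤ A.card)
    (ht' : (A.card : ℤ) + d * cc d ≤ (l + d).choose l) :
    (A.card : ℤ) + cc d ≤ (shadow A).card := by
  have h5' : (5 : ℤ) ≤ d := by exact_mod_cast h5
  have hcc : (1 : ℤ) ≤ cc d := by
    have h := cc_ge (d := d) (by omega)
    nlinarith
  rcases kk_core (by omega) hA ht with ⟨h1, h2⟩ | ⟨i, D, h1, hil, hD, hAc, hsh, hdeg⟩
  · have h4 : (A.card : ℤ) = (l + d).choose l := by exact_mod_cast h1
    nlinarith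
  · rcases Nat.lt_or_ge i (d - 2) with hi | hi
    · exact low_case h5 ht h1 (by omega) hD hAc hsh hdeg
    · obtain ⟨m, rfl⟩ : ∃ m, d = m + 2 := ⟨d - 2, by omega⟩
      have hi' : i = m := by omega
      have hl' : l = m + 1 := by omega
      subst hi' hl'
      have hmid := mid_f i
      have e1 : i + (i + 2) = 2 * i + 2 := by ring
      have e2 : i + 1 + (i + 2) = (2 * i + 2) + 1 := by ring
      have e3 : i + 2 - 1 = i + 1 := by omega
      rw [e1] at hAc
      rw [e3] at hdeg
      have hpas : ((i + 1 + (i + 2)).choose (i + 1) : ℤ) =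
          (2 * i + 2).choose i + (2 * i + 2).choose (i + 1) := by
        rw [e2, Nat.choose_succ_succ' (2 * i + 2) i]
        push_cast
        ring
      rw [hpas] at ht'
      have hdeg' : (D.card : ℤ) * (i + 1) ≤ (shadow D).card * (i + 2) := by exact_mod_cast hdeg
      have hi0 : (0 : ℤ) ≤ i := Int.natCast_nonneg i
      push_cast at ht'
      have hfin : ((i : ℤ) + 2) * (A.card + cc (i + 2)) ≤ (i + 2) * (shadow A).card := by
        have h6 : ((i : ℤ) + 2) * (f i (i + 2) + (shadow D).card - D.card + A.card) ≤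
            (i + 2) * (shadow A).card := mul_le_mul_of_nonneg_left hsh (by linarith)
        linarith
      exact le_of_mul_le_mul_left hfin (by linarith)

end Pool.Agent.Work.MP_0ea01d_co.Det
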