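import Pool.Agent.Work.MP_0ea01d_co.Det.Defs

/-!
# The loss of a family, basic facts

`loss l G = |G| (n - l) - |∂⁺ G|` for a family `G` of `l`-sets on `n` points.
Use `Finset.mem_upShadow_iff_exists_mem_card_add_one`:
`T ∈ ∂⁺ G ↔ ∃ X ∈ G, X ⊆ T ∧ #T = #X + 1`, so `∂⁺ (G₁ ∪ G₂) = ∂⁺ G₁ ∪ ∂⁺ G₂`.
* `loss_union`: inclusion exclusion for `∂⁺ G₁ ∪ ∂⁺ G₂` and `|G₁ ∪ G₂| = |G₁| + |G₂|`.
* `loss_singleton`: `∂⁺ {X}` is the injective image of `Xᶜ` under `a ↦ insert a X`, so it has
  `n - l` elements.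
* `cross_le`: let `X` be an `l`-set, `X ∉ G`. Every `T ∈ ∂⁺ {X} ∩ ∂⁺ G` contains `X` and some
  `X' ∈ G`, `X' ≠ X`, both with `l` elements, `#T = l + 1`, so `T = X ∪ X'`; hence
  `∂⁺ {X} ∩ ∂⁺ G ⊆ G.image (X ∪ ·)`.
* `loss_insert`: `loss (insert X G) = loss G + #(∂⁺ {X} ∩ ∂⁺ G)`, from the first two.
* `loss_nonneg`, `loss_le_choose`: induction on `G` with `loss_insert`, `cross_le`
  (`C(k+1,2) = C(k,2) + k`).
* `loss_star`: induction on `G`. If `X = insert x Z ∉ G`, all members of `G` contain `Z`,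
  `#Z + 1 = l`, then `∂⁺ {X} ∩ ∂⁺ G` is the image of `G` under `X' ↦ X ∪ X'` (each `X ∪ X'` has
  `l + 1` elements), and this map is injective on `G`: `X' = Z ∪ (X ∪ X') \ X`. So the cross term
  is exactly `|G|`.
* `cross_star`: every `T ∈ ∂⁺ G₁ ∩ ∂⁺ G₂` contains `Z` and some `X ∈ G₂`; since `Z ⊄ X`,
  `#(X ∪ Z) ≥ l + 1 = #T`, so `T = X ∪ Z`; hence the intersection is contained in
  `G₂.image (· ∪ Z)`.
-/

set_option autoImplicit false

namespace Pool.Agent.Work.MP_0ea01d_co.Det

open Finset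

variable {n l : ℕ}

private theorem us_union (G₁ G₂ : Finset (Finset (Fin n))) :
    upShadow (G₁ ∪ G₂) = upShadow G₁ ∪ upShadow G₂ := by
  ext T
  simp only [mem_upShadow_iff_exists_mem_card_add_one, mem_union]
  constructor
  · rintro ⟨X, hX | hX, h⟩
    · exact Or.inl ⟨X, hX, h⟩
    · exact Or.inr ⟨X, hX, h⟩
  · rintro (⟨X, hX, h⟩ | ⟨X, hX, h⟩)
    · exact ⟨X, Or.inl hX, h⟩
    · exact ⟨X, Or.inr hX, h⟩

theorem loss_union {G₁ G₂ : Finset (Finset (Fin n))} (hd : Disjoint G₁ G₂) :
    loss l (G₁ ∪ G₂) = loss l G₁ + loss l G₂ + ((upShadow G₁ ∩ upShadow G₂).card : ℤ) := by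
  have h1 : ((upShadow G₁ ∪ upShadow G₂).card : ℤ) + (upShadow G₁ ∩ upShadow G₂).card =
      (upShadow G₁).card + (upShadow G₂).card := by
    exact_mod_cast card_union_add_card_inter (upShadow G₁) (upShadow G₂)
  unfold loss
  rw [us_union, card_union_of_disjoint hd]
  push_cast
  linarith

theorem loss_singleton {X : Finset (Fin n)} (hX : X.card = l) :
    loss l ({X} : Finset (Finset (Fin n))) = 0 := by
  have h1 : upShadow ({X} : Finset (Finset (Fin n))) = Xᶜ.image (fun a => insert a X) := by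
    ext T
    simp only [mem_upShadow_iff, mem_singleton, mem_image, mem_compl, exists_eq_left]
  have h2 : (Xᶜ.image (fun a => insert a X)).card = n - l := by
    rw [card_image_of_injOn, card_compl, Fintype.card_fin, hX]
    intro a ha b _ hab
    have ha' : a ∉ X := by simpa using ha
    have hab' : insert a X = insert b X := hab
    exact (insert_inj ha').1 hab'
  have h3 : l ≤ n := by
    rw [← hX]
    exact card_finset_fin_le X
  unfold loss
  rw [h1, h2, card_singleton, Nat.cast_sub h3]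
  ring

private theorem lt_union {X Y : Finset (Fin n)} (hX : X.card = l) (hY : Y.card = l)
    (h : X ≠ Y) : l + 1 ≤ (X ∪ Y).card := by
  have h1 : X ⊂ X ∪ Y := by
    refine ⟨subset_union_left, fun h2 => h ?_⟩
    have h3 : Y ⊆ X := subset_union_right.trans h2
    exact (eq_of_subset_of_card_le h3 (by omega)).symm
  have := card_lt_card h1
  omega

theorem cross_le {G : Finset (Finset (Fin n))} (hG : ∀ Y ∈ G, Y.card = l) {X : Finset (Fin n)}
    (hX : X.card = l) (hXG : X ∉ G) :
    (upShadow ({X} : Finset (Finset (Fin n))) ∩ upShadow G).card ≤ G.card := by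
  have h1 : upShadow ({X} : Finset (Finset (Fin n))) ∩ upShadow G ⊆ G.image (fun Y => X ∪ Y) := by
    intro T hT
    rw [mem_inter, mem_upShadow_iff_exists_mem_card_add_one,
      mem_upShadow_iff_exists_mem_card_add_one] at hT
    obtain ⟨⟨X', hX', h2, h3⟩, ⟨Y, hY, h4, h5⟩⟩ := hT
    rw [mem_singleton] at hX'
    subst hX'
    rw [mem_image]
    refine ⟨Y, hY, eq_of_subset_of_card_le (union_subset h2 h4) ?_⟩
    have := lt_union hX (hG Y hY) (fun h => hXG (h ▸ hY))
    omega
  exact (card_le_card h1).trans card_image_le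

theorem loss_insert {G : Finset (Finset (Fin n))} {X : Finset (Fin n)} (hX : X.card = l)
    (hXG : X ∉ G) :
    loss l (insert X G) = loss l G + ((upShadow {X} ∩ upShadow G).card : ℤ) := by
  rw [insert_eq, loss_union (disjoint_singleton_left.2 hXG), loss_singleton hX, zero_add]

private theorem loss_empty : loss l (∅ : Finset (Finset (Fin n))) = 0 := by
  unfold loss
  rw [upShadow_empty]
  simp

theorem loss_nonneg {G : Finset (Finset (Fin n))} (hG : ∀ Y ∈ G, Y.card = l) : 0 ≤ loss l G := by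
  induction G using Finset.induction_on with
  | empty => rw [loss_empty]
  | insert X G hX ih =>
    rw [loss_insert (hG X (mem_insert_self _ _)) hX]
    have := ih fun Y hY => hG Y (mem_insert_of_mem hY)
    positivity

private theorem choose_two_succ (k : ℕ) : (k + 1).choose 2 = k.choose 2 + k := by
  rw [Nat.choose_succ_succ' k 1, Nat.choose_one_right, add_comm]

theorem loss_le_choose {G : Finset (Finset (Fin n))} (hG : ∀ Y ∈ G, Y.card = l) :
    loss l G ≤ G.card.choose 2 := by
  induction G using Finset.induction_on with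
  | empty => rw [loss_empty]; simp
  | insert X G hX ih =>
    have h1 := ih fun Y hY => hG Y (mem_insert_of_mem hY)
    have h2 := cross_le (fun Y hY => hG Y (mem_insert_of_mem hY)) (hG X (mem_insert_self _ _)) hX
    rw [loss_insert (hG X (mem_insert_self _ _)) hX, card_insert_of_notMem hX, choose_two_succ]
    push_cast
    have h3 : ((upShadow {X} ∩ upShadow G).card : ℤ) ≤ G.card := by exact_mod_cast h2
    linarith

theorem loss_star {G : Finset (Finset (Fin n))} (hG : ∀ Y ∈ G, Y.card = l)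
    {Z : Finset (Fin n)} (hZ : Z.card + 1 = l) (hZG : ∀ Y ∈ G, Z ⊆ Y) :
    loss l G = G.card.choose 2 := by
  induction G using Finset.induction_on with
  | empty => rw [loss_empty]; simp
  | insert X G hX ih =>
    have hG' : ∀ Y ∈ G, Y.card = l := fun Y hY => hG Y (mem_insert_of_mem hY)
    have h1 := ih hG' fun Y hY => hZG Y (mem_insert_of_mem hY)
    have hXl := hG X (mem_insert_self _ _)
    have hXZ := hZG X (mem_insert_self _ _)
    have h2 := cross_le hG' hXl hX
    have key : ∀ Y ∈ G, (X ∪ Y).card = l + 1 ∧ X ∩ Y = Z := by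
      intro Y hY
      have e1 := lt_union hXl (hG' Y hY) (fun h => hX (h ▸ hY))
      have e2 := card_union_add_card_inter X Y
      have e3 : Z ⊆ X ∩ Y := subset_inter hXZ (hZG Y (mem_insert_of_mem hY))
      have e4 := card_le_card e3
      have e5 := hG' Y hY
      refine ⟨by omega, (eq_of_subset_of_card_le e3 (by omega)).symm⟩
    have h3 : G.card ≤ (upShadow ({X} : Finset (Finset (Fin n))) ∩ upShadow G).card := by
      have h4 : (G.image (fun Y => X ∪ Y)).card = G.card := by
        refine card_image_of_injOn ?_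
        intro Y hY Y' hY' h
        have h' : X ∪ Y = X ∪ Y' := h
        have f1 := (key Y hY).2
        have f2 := (key Y' hY').2
        ext a
        by_cases ha : a ∈ X
        · have g1 : a ∈ X ∩ Y ↔ a ∈ X ∩ Y' := by rw [f1, f2]
          simpa [ha] using g1
        · have g1 : a ∈ X ∪ Y ↔ a ∈ X ∪ Y' := by rw [h']
          simpa [ha] using g1
      rw [← h4]
      refine card_le_card fun T hT => ?_
      rw [mem_image] at hT
      obtain ⟨Y, hY, rfl⟩ := hT
      rw [mem_inter, mem_upShadow_iff_exists_mem_card_add_one,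
        mem_upShadow_iff_exists_mem_card_add_one]
      refine ⟨⟨X, mem_singleton_self X, subset_union_left, ?_⟩, ⟨Y, hY, subset_union_right, ?_⟩⟩
      · rw [(key Y hY).1, hXl]
      · rw [(key Y hY).1, hG' Y hY]
    rw [loss_insert hXl hX, card_insert_of_notMem hX, choose_two_succ, h1]
    push_cast
    have h5 : (upShadow ({X} : Finset (Finset (Fin n))) ∩ upShadow G).card = G.card :=
      le_antisymm h2 h3
    rw [h5]

theorem cross_star {G₁ G₂ : Finset (Finset (Fin n))} (h₁ : ∀ Y ∈ G₁, Y.card = l)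
    (h₂ : ∀ Y ∈ G₂, Y.card = l) {Z : Finset (Fin n)} (hZ : Z.card + 1 = l)
    (hZ₁ : ∀ Y ∈ G₁, Z ⊆ Y) (hZ₂ : ∀ Y ∈ G₂, ¬ Z ⊆ Y) :
    (upShadow G₁ ∩ upShadow G₂).card ≤ G₂.card := by
  have h1 : upShadow G₁ ∩ upShadow G₂ ⊆ G₂.image (fun Y => Y ∪ Z) := by
    intro T hT
    rw [mem_inter, mem_upShadow_iff_exists_mem_card_add_one,
      mem_upShadow_iff_exists_mem_card_add_one] at hT
    obtain ⟨⟨X, hX, h2, h3⟩, ⟨Y, hY, h4, h5⟩⟩ := hT
    rw [mem_image]
    refine ⟨Y, hY, eq_of_subset_of_card_le (union_subset h4 ((hZ₁ X hX).trans h2)) ?_⟩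
    have h6 : Y ⊂ Y ∪ Z := by
      refine ⟨subset_union_left, fun h7 => hZ₂ Y hY ?_⟩
      exact subset_union_right.trans h7
    have h8 := card_lt_card h6
    omega
  exact (card_le_card h1).trans card_image_le

end Pool.Agent.Work.MP_0ea01d_co.Det
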