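import Pool.Agent.Work.MP_0ea01d_co.Det.LossA
import Pool.Agent.Work.MP_0ea01d_co.Det.Arith1
import Pool.Agent.Work.MP_0ea01d_co.Det.Arith1

/-!
# The loss of a family, main bound

`star G Z` = the members of `G` containing `Z` (`#Z + 1 = l`).
`star_lower`, `star_upper`: `G = star ∪ rest` (disjoint), `loss_union`, `loss_star` for the star,
`loss_nonneg` resp. `loss_le_choose` for the rest, cross term between `0` and `|rest|`
(`cross_star`); `C(r,2) + r = C(r+1,2)` with `r = |rest| = t - a`.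

`loss_sq`: if every star has at most `a` members and `2 a ≤ t = |G|` then `4 loss ≤ t²`.
Strong induction on `t`, for all `a`. If `G = ∅` clear. Let `a₀` be the maximal size of a star
(`1 ≤ a₀ ≤ a`), attained at `Z`.
* `a₀ = 1`: `loss l G = 0`. Indeed, by induction over subfamilies with `loss_insert`: if
  `T ∈ ∂⁺ {X} ∩ ∂⁺ G'`, `X' ∈ G'`, `X' ⊆ T`, `X ⊆ T`, then `#(X ∩ X') = l - 1`, a star with two
  members. (Separate lemma `loss_far`.)
* `a₀ ≥ 2`: `G' = G \ star G Z`, `t' = t - a₀ ≥ a₀`, all stars of `G'` have at most `a₀` members,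
  `loss G ≤ C(a₀,2) + t' + loss G'`. Let `b` be the maximal size of a star of `G'` (`t' ≥ 1`,
  `b ≥ 1`, `b ≤ a₀`).
  - If `2 b ≤ t'`: induction: `4 loss G' ≤ t'²`, so
    `4 loss G ≤ 2 a₀ (a₀-1) + 4 t' + t'² ≤ (a₀ + t')²` since
    `(a₀+t')² - t'² - 2a₀² + 2a₀ - 4t' = (a₀ - 2)(2 t' - a₀) ≥ 0`.
  - If `t' < 2 b`: `star_upper` for `G'`: `loss G' ≤ C(b,2) + C(s+1,2)` with `s = t' - b < b`, so
    `4 loss G ≤ 2a₀(a₀-1) + 4(b+s) + 2b(b-1) + 2s(s+1)`. With `a₀ = b + δ`, `0 ≤ δ ≤ s` (as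
    `a₀ ≤ t' = b + s`): `(a₀+b+s)²` minus this is
    `-δ² - s² + 4bs + 2δs + 2δ - 6s ≥ s (4b - s - 6) + 2δ ≥ s (3b - 5) + 2δ ≥ 0`
    (`δ² ≤ δ s`, `s ≤ b - 1`; if `b = 1` then `s = 0`).

`loss_rep`: let `a` be the maximal size of a star. If `t < 2a`: `star_lower`, `star_upper` and
`rep_of_star`. If `2a ≤ t`: `loss_sq` and `rep_of_sq` (Arith1).
-/

set_option autoImplicit false

namespace Pool.Agent.Work.MP_0ea01d_co.Det

open Finset

variable {n l : ℕ}

private theorem two_choose (r : ℕ) : (2 : ℤ) * (r.choose 2 : ℕ) = r * (r - 1) := by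
  induction r with
  | zero => simp
  | succ r ih =>
    rw [Nat.choose_succ_succ' r 1, Nat.choose_one_right]
    push_cast
    linarith

private theorem split_star (G : Finset (Finset (Fin n))) (Z : Finset (Fin n)) :
    loss l G = loss l (G.filter fun Y => Z ⊆ Y) + loss l (G.filter fun Y => ¬ Z ⊆ Y) +
      ((upShadow (G.filter fun Y => Z ⊆ Y) ∩ upShadow (G.filter fun Y => ¬ Z ⊆ Y)).card : ℤ) := by
  rw [← loss_union (Finset.disjoint_filter_filter_not _ _ _), Finset.filter_union_filter_not_eq]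

private theorem card_rest (G : Finset (Finset (Fin n))) (Z : Finset (Fin n)) :
    (G.filter fun Y => Z ⊆ Y).card + (G.filter fun Y => ¬ Z ⊆ Y).card = G.card :=
  Finset.card_filter_add_card_filter_not _

theorem star_lower {G : Finset (Finset (Fin n))} (hG : ∀ Y ∈ G, Y.card = l)
    {Z : Finset (Fin n)} (hZ : Z.card + 1 = l) :
    ((G.filter fun Y => Z ⊆ Y).card.choose 2 : ℤ) ≤ loss l G := by
  rw [split_star G Z]
  have h1 := loss_star (G := G.filter fun Y => Z ⊆ Y)
    (fun Y hY => hG Y (Finset.mem_of_mem_filter Y hY)) hZ (fun Y hY => (Finset.mem_filter.1 hY).2)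
  have h2 := loss_nonneg (G := G.filter fun Y => ¬ Z ⊆ Y)
    (fun Y hY => hG Y (Finset.mem_of_mem_filter Y hY))
  rw [h1]
  have h3 : (0 : ℤ) ≤ ((upShadow (G.filter fun Y => Z ⊆ Y) ∩
    upShadow (G.filter fun Y => ¬ Z ⊆ Y)).card : ℤ) := Int.natCast_nonneg _
  linarith

private theorem star_upper' {G : Finset (Finset (Fin n))} (hG : ∀ Y ∈ G, Y.card = l)
    {Z : Finset (Fin n)} (hZ : Z.card + 1 = l) :
    loss l G ≤ ((G.filter fun Y => Z ⊆ Y).card.choose 2 : ℤ) +
      loss l (G.filter fun Y => ¬ Z ⊆ Y) + (G.filter fun Y => ¬ Z ⊆ Y).card := by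
  rw [split_star G Z]
  have h1 := loss_star (G := G.filter fun Y => Z ⊆ Y)
    (fun Y hY => hG Y (Finset.mem_of_mem_filter Y hY)) hZ (fun Y hY => (Finset.mem_filter.1 hY).2)
  have h2 := cross_star (G₁ := G.filter fun Y => Z ⊆ Y) (G₂ := G.filter fun Y => ¬ Z ⊆ Y)
    (fun Y hY => hG Y (Finset.mem_of_mem_filter Y hY))
    (fun Y hY => hG Y (Finset.mem_of_mem_filter Y hY)) hZ (fun Y hY => (Finset.mem_filter.1 hY).2)
    (fun Y hY => (Finset.mem_filter.1 hY).2)
  rw [h1]
  have h3 : ((upShadow (G.filter fun Y => Z ⊆ Y) ∩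
    upShadow (G.filter fun Y => ¬ Z ⊆ Y)).card : ℤ) ≤ (G.filter fun Y => ¬ Z ⊆ Y).card := by
    exact_mod_cast h2
  linarith

theorem star_upper {G : Finset (Finset (Fin n))} (hG : ∀ Y ∈ G, Y.card = l)
    {Z : Finset (Fin n)} (hZ : Z.card + 1 = l) {a : ℕ} (ha : (G.filter fun Y => Z ⊆ Y).card = a) :
    loss l G ≤ (a.choose 2 : ℤ) + (G.card - a + 1).choose 2 := by
  have h1 := star_upper' hG hZ
  have h2 := loss_le_choose (G := G.filter fun Y => ¬ Z ⊆ Y)
    (fun Y hY => hG Y (Finset.mem_of_mem_filter Y hY))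
  have h3 := card_rest G Z
  rw [ha] at h1 h3
  have h4 : (G.filter fun Y => ¬ Z ⊆ Y).card = G.card - a := by omega
  rw [h4] at h1 h2
  rw [Nat.choose_succ_succ' (G.card - a) 1, Nat.choose_one_right]
  push_cast
  push_cast at h1 h2
  linarith

theorem loss_far {G : Finset (Finset (Fin n))} (hG : ∀ Y ∈ G, Y.card = l)
    (h : ∀ Z : Finset (Fin n), Z.card + 1 = l → (G.filter fun Y => Z ⊆ Y).card ≤ 1) :
    loss l G = 0 := by
  induction G using Finset.induction_on with
  | empty => simp [loss]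
  | insert X G hXG ih =>
    have hX : X.card = l := hG X (Finset.mem_insert_self X G)
    have hG' : ∀ Y ∈ G, Y.card = l := fun Y hY => hG Y (Finset.mem_insert_of_mem hY)
    have h' : ∀ Z : Finset (Fin n), Z.card + 1 = l → (G.filter fun Y => Z ⊆ Y).card ≤ 1 :=
      fun Z hZ => (Finset.card_le_card (Finset.filter_subset_filter _
        (Finset.subset_insert X G))).trans (h Z hZ)
    rw [loss_insert hX hXG, ih hG' h']
    have he : upShadow {X} ∩ upShadow G = ∅ := by
      rw [Finset.eq_empty_iff_forall_notMem]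
      intro T hT
      rw [Finset.mem_inter, Finset.mem_upShadow_iff_exists_mem_card_add_one,
        Finset.mem_upShadow_iff_exists_mem_card_add_one] at hT
      obtain ⟨⟨X₁, hX₁, hs₁, hc₁⟩, ⟨X₂, hX₂, hs₂, hc₂⟩⟩ := hT
      rw [Finset.mem_singleton] at hX₁
      subst hX₁
      have hne : X₁ ≠ X₂ := fun e => hXG (e ▸ hX₂)
      have hX2 : X₂.card = l := hG' X₂ hX₂
      have hu : (X₁ ∪ X₂).card ≤ T.card := Finset.card_le_card (Finset.union_subset hs₁ hs₂)
      have hi := Finset.card_union_add_card_inter X₁ X₂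
      have hlt : (X₁ ∩ X₂).card < l := by
        by_contra hcon
        have e1 : X₁ ∩ X₂ = X₁ := Finset.eq_of_subset_of_card_le Finset.inter_subset_left
          (by omega)
        have e2 : X₁ ∩ X₂ = X₂ := Finset.eq_of_subset_of_card_le Finset.inter_subset_right
          (by omega)
        exact hne (e1.symm.trans e2)
      have hZ : (X₁ ∩ X₂).card + 1 = l := by omega
      have h2 := h (X₁ ∩ X₂) hZ
      have h3 : ({X₁, X₂} : Finset (Finset (Fin n))) ⊆
          (insert X₁ G).filter fun Y => X₁ ∩ X₂ ⊆ Y := by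
        intro Y hY
        rw [Finset.mem_insert, Finset.mem_singleton] at hY
        rw [Finset.mem_filter]
        rcases hY with rfl | rfl
        · exact ⟨Finset.mem_insert_self _ _, Finset.inter_subset_left⟩
        · exact ⟨Finset.mem_insert_of_mem hX₂, Finset.inter_subset_right⟩
      have h4 := Finset.card_le_card h3
      rw [Finset.card_pair hne] at h4
      omega
    rw [he]
    simp

private theorem exists_max {G : Finset (Finset (Fin n))} (hl : 1 ≤ l) (hG : ∀ Y ∈ G, Y.card = l)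
    (hne : G.Nonempty) : ∃ Z : Finset (Fin n), Z.card + 1 = l ∧
      1 ≤ (G.filter fun Y => Z ⊆ Y).card ∧
      ∀ Z' : Finset (Fin n), Z'.card + 1 = l →
        (G.filter fun Y => Z' ⊆ Y).card ≤ (G.filter fun Y => Z ⊆ Y).card := by
  obtain ⟨X, hX⟩ := hne
  have hXc := hG X hX
  have hXne : X.Nonempty := by
    rw [← Finset.card_pos]
    omega
  obtain ⟨x, hx⟩ := hXne
  have hE : (X.erase x).card + 1 = l := by
    rw [Finset.card_erase_add_one hx, hXc]
  obtain ⟨Z, hZ, hmax⟩ := Finset.exists_max_image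
    (Finset.univ.filter fun Z : Finset (Fin n) => Z.card + 1 = l)
    (fun Z => (G.filter fun Y => Z ⊆ Y).card) ⟨X.erase x, by simpa using hE⟩
  have hZ' : Z.card + 1 = l := by simpa using hZ
  have hmax' : ∀ Z' : Finset (Fin n), Z'.card + 1 = l →
        (G.filter fun Y => Z' ⊆ Y).card ≤ (G.filter fun Y => Z ⊆ Y).card := by
    intro Z₁ h1
    exact hmax Z₁ (by simpa using h1)
  refine ⟨Z, hZ', ?_, hmax'⟩
  refine le_trans ?_ (hmax' _ hE)
  rw [Nat.one_le_iff_ne_zero, ← Nat.pos_iff_ne_zero, Finset.card_pos]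
  exact ⟨X, Finset.mem_filter.2 ⟨hX, Finset.erase_subset x X⟩⟩

private theorem arith1 {A T C : ℤ} (hA : 2 ≤ A) (hT : A ≤ T) (hC : 4 * C ≤ T ^ 2) (c : ℤ)
    (hc : 2 * c = A * (A - 1)) : 4 * (c + C + T) ≤ (A + T) ^ 2 := by
  nlinarith [mul_nonneg (sub_nonneg.2 hA) (by linarith : (0 : ℤ) ≤ 2 * T - A)]

private theorem arith2 {A B S C c d e : ℤ} (hB : 1 ≤ B) (hBA : B ≤ A) (hS : 0 ≤ S)
    (hAS : A ≤ B + S) (hSB : S + 1 ≤ B) (hc : 2 * c = A * (A - 1)) (hd : 2 * d = B * (B - 1))
    (he : 2 * e = (S + 1) * S) (hC : C ≤ d + e) : 4 * (c + C + (B + S)) ≤ (A + (B + S)) ^ 2 := by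
  obtain ⟨D, rfl⟩ : ∃ D, A = B + D := ⟨A - B, by ring⟩
  have hD : 0 ≤ D := by linarith
  have hDS : D ≤ S := by linarith
  have key : 0 ≤ 4 * B * S + 2 * D * S - D ^ 2 + 2 * D - 6 * S - S ^ 2 := by
    rcases hS.eq_or_lt with h | h
    · subst h
      have : D = 0 := by linarith
      subst this
      norm_num
    · have h1 : 1 ≤ S := h
      have h2 : 2 ≤ B := by linarith
      nlinarith [mul_nonneg hD (sub_nonneg.2 hDS), mul_nonneg hS (sub_nonneg.2 hSB),
        mul_nonneg hS (sub_nonneg.2 h2), mul_nonneg hD hS]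
  nlinarith

theorem loss_sq (t : ℕ) : ∀ (G : Finset (Finset (Fin n))) (a : ℕ), (∀ Y ∈ G, Y.card = l) →
    1 ≤ l → G.card = t →
    (∀ Z : Finset (Fin n), Z.card + 1 = l → (G.filter fun Y => Z ⊆ Y).card ≤ a) → 2 * a ≤ t →
    4 * loss l G ≤ (t : ℤ) ^ 2 := by
  induction t using Nat.strong_induction_on with
  | _ t ih =>
    intro G a hG hl hcard hstar h2a
    rcases G.eq_empty_or_nonempty with rfl | hne
    · have : loss l (∅ : Finset (Finset (Fin n))) = 0 := by simp [loss]
      rw [this]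
      positivity
    obtain ⟨Z, hZ, h1, hmax⟩ := exists_max hl hG hne
    have ha0 := hstar Z hZ
    rcases Nat.lt_or_ge 1 (G.filter fun Y => Z ⊆ Y).card with hA | hA
    swap
    · rw [loss_far hG (fun Z' hZ' => (hmax Z' hZ').trans hA)]
      positivity
    have hup := star_upper' hG hZ
    have hrest := card_rest G Z
    rw [hcard] at hrest
    set G' := G.filter fun Y => ¬ Z ⊆ Y with hG'
    set A := (G.filter fun Y => Z ⊆ Y).card with hAdef
    have hG'l : ∀ Y ∈ G', Y.card = l := fun Y hY => hG Y (Finset.mem_of_mem_filter Y hY)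
    have hG'ne : G'.Nonempty := by
      rw [← Finset.card_pos]
      omega
    obtain ⟨Z₁, hZ₁, h1', hmax'⟩ := exists_max hl hG'l hG'ne
    have hbA : (G'.filter fun Y => Z₁ ⊆ Y).card ≤ A :=
      (Finset.card_le_card (Finset.filter_subset_filter _ (Finset.filter_subset _ _))).trans
        (hmax Z₁ hZ₁)
    set b := (G'.filter fun Y => Z₁ ⊆ Y).card with hb
    have htt : (t : ℤ) = A + G'.card := by exact_mod_cast hrest.symm
    rw [htt]
    refine le_trans (mul_le_mul_of_nonneg_left hup (by norm_num)) ?_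
    rcases Nat.lt_or_ge G'.card (2 * b) with h2b | h2b
    · have hu2 := star_upper hG'l hZ₁ hb.symm
      have hbG : b ≤ G'.card := Finset.card_le_card (Finset.filter_subset _ _)
      obtain ⟨s, hs⟩ : ∃ s, G'.card = b + s := ⟨G'.card - b, by omega⟩
      rw [hs, Nat.add_sub_cancel_left] at hu2
      rw [hs]
      push_cast
      refine arith2 (B := b) (S := s) (by exact_mod_cast h1') (by exact_mod_cast hbA)
        (by positivity) (by omega) (by omega) (two_choose A) (two_choose b) ?_ hu2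
      rw [two_choose (s + 1)]
      push_cast
      ring
    · have := ih G'.card (by omega) G' b hG'l hl rfl hmax' h2b
      exact arith1 (by exact_mod_cast hA) (by omega) this _ (two_choose A)

theorem loss_rep {G : Finset (Finset (Fin n))} (hl : 1 ≤ l) (hG : ∀ Y ∈ G, Y.card = l)
    (hne : G.Nonempty) : ∃ x : ℕ, Rep G.card x ∧ loss l G = x := by
  obtain ⟨x, hx⟩ := Int.eq_ofNat_of_zero_le (loss_nonneg hG)
  obtain ⟨Z, hZ, h1, hmax⟩ := exists_max hl hG hne
  refine ⟨x, ?_, hx⟩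
  have hle : (G.filter fun Y => Z ⊆ Y).card ≤ G.card :=
    Finset.card_le_card (Finset.filter_subset _ _)
  rcases Nat.lt_or_ge G.card (2 * (G.filter fun Y => Z ⊆ Y).card) with h2 | h2
  · have h3 := star_lower hG hZ
    have h4 := star_upper hG hZ rfl
    rw [hx] at h3 h4
    exact rep_of_star h1 hle h2 (by exact_mod_cast h3) (by exact_mod_cast h4)
  · have h3 := loss_sq G.card G _ hG hl rfl hmax h2
    rw [hx] at h3
    exact rep_of_sq (Finset.card_pos.2 hne) (by exact_mod_cast h3)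

end Pool.Agent.Work.MP_0ea01d_co.Det
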