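import Pool.Agent.Work.MP_0ea01d_co.Det.Reg1Arith
import Pool.Agent.Work.MP_0ea01d_co.Det.GoodVal
import Pool.Agent.Work.MP_0ea01d_co.Det.Num

/-!
# The upper region for level 2: values just below `f 2 (N-1)`

`reg1_val`: take `j, b, c` from `reg1_arith`, `a = N - j` (so `a ≥ e ≥ b`, `a ≥ 1`), `s = e - b`.
`val_good` applies: `a + b + 2s = N - j - b + 2e ≤ N + c`, `a + b + 1 = N - j + b + 1 ≤ N + c`.
The value: `f 2 N = f 2 (N-1) + (N+1)(N-2)/2` (`f_succ`, `f_one`), `a + b + s = N - j + e`,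
`(N-j)(N-1) - C(N-j,2) = C(N,2) - C(j,2)`, `(N+1)(N-2)/2 = C(N,2) - 1`. So the value is
`f 2 (N-1) - 1 + C(j,2) + C(b,2) + c - e (N-1) = f 2 (N-1) - y`.

`reg1` (N ≥ 14, `1 ≤ y`, `4 y ≤ N²`): let `e₀ = (N+3)/4`, so `N ≤ 4 e₀ ≤ N + 3`.
* If `y ≤ e₀ (N - e₀)` use `reg1_val` with `e = e₀`. `hc`: `N ≤ C(e₀+1,2) + e₀ + 2`: from
  `N ≤ 4 e₀` it is enough that `6 e₀ ≤ e₀ (e₀+1) + 4`, i.e. `(e₀-1)(e₀-4) ≥ 0`; fine (`e₀ ≥ 4`).
  `hlo`: enough `2 e₀ (N-1) ≤ (N-e₀)(N-e₀-1) + e₀(e₀+1)`, i.e. (in integers)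
  `0 ≤ N² - N - 4 N e₀ + 2 e₀² + 4 e₀`; with `4 e₀ = N + r`, `0 ≤ r ≤ 3`, the right side times 8 is
  `8N² - 8N - 8N(N+r) + (N+r)² + 8(N+r) = N² - 6 r N + r² + 8 r`, which is `≥ 0` if `N ≥ 6 r`,
  so for `N ≥ 18`; for `14 ≤ N ≤ 17` (`interval_cases N`) it is an explicit number.
* Otherwise let `e` be the least number in `(e₀, N/2]` with `y ≤ e (N - e)` (`Nat.find`; `e = N/2`
  works, because `4 y ≤ N²` and `(N/2)(N - N/2) = ⌊N²/4⌋`), so `y ≥ (e-1)(N-e+1) + 1`. `hc`: as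
  above (only `N ≤ 4 e`, `e ≥ 4` was used). `hlo`: enough that
  `2 e (N-1) ≤ 2 (e-1)(N-e+1) + (N-e)(N-e-1) + e (e+1)`; the right side minus the left side is
  `N² - 3N - 2 - 2e (N-4)`, and `2e ≤ N` gives `2e (N-4) ≤ N² - 4N`, so it is `≥ N - 2 ≥ 0`.
-/

set_option autoImplicit false

namespace Pool.Agent.Work.MP_0ea01d_co.Det

private theorem two_choose (n : ℕ) : (2 : ℤ) * (n.choose 2 : ℕ) = (n : ℤ) * (n - 1) := by
  induction n with
  | zero => simp
  | succ n ih =>
    rw [Nat.choose_succ_succ' n 1, Nat.choose_one_right]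
    push_cast
    linarith

theorem reg1_val {N e y : ℕ} (hN : 5 ≤ N) (he : 1 ≤ e) (heN : 2 * e ≤ N)
    (hc : N ≤ (e + 1).choose 2 + e + 2)
    (hlo : e * (N - 1) + 1 ≤ y + (N - e).choose 2 + (e + 1).choose 2) (hhi : y ≤ e * (N - e)) :
    Val (2 + N) 2 (f 2 (N - 1) - y) := by
  obtain ⟨j, b, c, hcb, hbe, hej, hjN, h5, h6, h7⟩ := reg1_arith he heN hc hlo hhi
  have hv := val_good (N := N) (a := N - j) (b := b) (c := c) (s := e - b) hN (by omega) hcb
    (by omega) (by omega) (by omega)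
  have e0 : f 2 (N - 1) - (y : ℤ) = f 2 N - (((N - j : ℕ) : ℤ) + b + ((e - b : ℕ) : ℤ)) *
      ((N : ℤ) - 1) + ((N - j).choose 2 : ℕ) + (b.choose 2 : ℕ) + c := by
    obtain ⟨M, rfl⟩ : ∃ M, N = M + 1 := ⟨N - 1, by omega⟩
    have s1 := f_succ 1 M
    have s2 := f_one (M + 1)
    have s3 := two_choose (M + 1 - j)
    have s4 := two_choose j
    have s5 : (((M + 1 - j : ℕ) : ℕ) : ℤ) = (M : ℤ) + 1 - j := by
      rw [Nat.cast_sub (by omega)]
      push_cast
      ring
    have s6 : (((e - b : ℕ) : ℕ) : ℤ) = (e : ℤ) - b := Nat.cast_sub hbe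
    have h7' : (e : ℤ) * M + 1 = y + (j.choose 2 : ℕ) + (b.choose 2 : ℕ) + c := by
      have e1 : M + 1 - 1 = M := rfl
      rw [e1] at h7
      exact_mod_cast h7
    have e1 : M + 1 - 1 = M := rfl
    have e2 : (1 : ℕ) + 1 = 2 := rfl
    rw [e2] at s1
    rw [e1, s1, s6]
    rw [s5] at s3 ⊢
    push_cast at s2 s3 ⊢
    linarith
  rw [e0]
  exact hv

private theorem hc_aux {N e : ℕ} (h4 : N ≤ 4 * e) (he : 4 ≤ e) : N ≤ (e + 1).choose 2 + e + 2 := by
  have h := two_choose (e + 1)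
  have h' : (2 : ℤ) * ((e + 1).choose 2 : ℕ) = ((e : ℤ) + 1) * e := by
    rw [h]
    push_cast
    ring
  zify at h4 he ⊢
  nlinarith

theorem reg1 {N y : ℕ} (hN : 14 ≤ N) (hy1 : 1 ≤ y) (hy2 : 4 * y ≤ N ^ 2) :
    Val (2 + N) 2 (f 2 (N - 1) - y) := by
  set e0 := (N + 3) / 4 with he0
  by_cases hy : y ≤ e0 * (N - e0)
  · refine reg1_val (by omega) (by omega) (by omega) (hc_aux (by omega) (by omega)) ?_ hy
    obtain ⟨r, hr, hr3⟩ : ∃ r, N + r = 4 * e0 ∧ r ≤ 3 := ⟨4 * e0 - N, by omega, by omega⟩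
    obtain ⟨g, hg⟩ : ∃ g, N = e0 + g := ⟨N - e0, by omega⟩
    have e1 : N - e0 = g := by omega
    have e2 : N - 1 = e0 + g - 1 := by omega
    rw [e1]
    have h1 := two_choose g
    have h2 := two_choose (e0 + 1)
    have h3 : ((N - 1 : ℕ) : ℤ) = (N : ℤ) - 1 := by
      rw [Nat.cast_sub (by omega)]
      rfl
    have h4 : 4 ≤ e0 := by omega
    have h5 : r = 3 → 5 ≤ e0 := by omega
    have h6 : g + r = 3 * e0 := by omega
    have goal : ((e0 * (N - 1) + 1 : ℕ) : ℤ) ≤ ((y + g.choose 2 + (e0 + 1).choose 2 : ℕ) : ℤ) := by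
      push_cast at h2 ⊢
      rw [h3, hg]
      push_cast
      have hy1' : (1 : ℤ) ≤ y := by exact_mod_cast hy1
      have h6' : (g : ℤ) = 3 * e0 - r := by
        have : (g : ℤ) + r = 3 * e0 := by exact_mod_cast h6
        linarith
      have h4' : (4 : ℤ) ≤ e0 := by exact_mod_cast h4
      rw [h6'] at h1 ⊢
      interval_cases r
      · push_cast at h1 ⊢
        nlinarith
      · push_cast at h1 ⊢
        nlinarith
      · push_cast at h1 ⊢
        nlinarith
      · have h5' : (5 : ℤ) ≤ e0 := by exact_mod_cast h5 rfl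
        push_cast at h1 ⊢
        nlinarith
    exact_mod_cast goal
  · have hex : ∃ e, e0 < e ∧ y ≤ e * (N - e) := by
      refine ⟨N / 2, by omega, ?_⟩
      rcases Nat.even_or_odd' N with ⟨m, rfl | rfl⟩
      · have e1 : 2 * m / 2 = m := by omega
        have e2 : 2 * m - m = m := by omega
        rw [e1, e2]
        nlinarith
      · have e1 : (2 * m + 1) / 2 = m := by omega
        have e2 : 2 * m + 1 - m = m + 1 := by omega
        rw [e1, e2]
        have : 4 * y ≤ 4 * (m * m + m) + 1 := by nlinarith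
        have : y ≤ m * m + m := by omega
        nlinarith
    classical
    set e := Nat.find hex with he
    have hs := Nat.find_spec hex
    rw [← he] at hs
    have heN : 2 * e ≤ N := by
      have h1 : e ≤ N / 2 := by
        refine Nat.find_min' hex ⟨by omega, ?_⟩
        rcases Nat.even_or_odd' N with ⟨m, rfl | rfl⟩
        · have e1 : 2 * m / 2 = m := by omega
          have e2 : 2 * m - m = m := by omega
          rw [e1, e2]
          nlinarith
        · have e1 : (2 * m + 1) / 2 = m := by omega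
          have e2 : 2 * m + 1 - m = m + 1 := by omega
          rw [e1, e2]
          have : 4 * y ≤ 4 * (m * m + m) + 1 := by nlinarith
          have : y ≤ m * m + m := by omega
          nlinarith
      omega
    have hprev : (e - 1) * (N - (e - 1)) + 1 ≤ y := by
      by_cases h1 : e0 < e - 1
      · have h2 := Nat.find_min hex (m := e - 1) (by omega)
        have h3 : ¬ y ≤ (e - 1) * (N - (e - 1)) := fun h => h2 ⟨h1, h⟩
        omega
      · have h2 : e - 1 = e0 := by omega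
        rw [h2]
        omega
    refine reg1_val (by omega) (by omega) heN (hc_aux (by omega) (by omega)) ?_ hs.2
    obtain ⟨g, hg⟩ : ∃ g, N = e + g := ⟨N - e, by omega⟩
    obtain ⟨u, hu⟩ : ∃ u, e = u + 1 := ⟨e - 1, by omega⟩
    have e1 : N - e = g := by omega
    have e3 : e - 1 = u := by omega
    have e4 : N - u = g + 1 := by omega
    have e5 : N - 1 = u + g := by omega
    rw [e3, e4] at hprev
    rw [e1, e5]
    have h1 := two_choose g
    have h2 := two_choose (e + 1)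
    have goal : ((e * (u + g) + 1 : ℕ) : ℤ) ≤ ((y + g.choose 2 + (e + 1).choose 2 : ℕ) : ℤ) := by
      have hp : ((u : ℤ) * (g + 1) + 1) ≤ y := by exact_mod_cast hprev
      have hug : (u : ℤ) + 1 ≤ g := by
        have : u + 1 ≤ g := by omega
        exact_mod_cast this
      have hu0 : (0 : ℤ) ≤ u := Int.natCast_nonneg u
      push_cast at h2 ⊢
      have he' : (e : ℤ) = u + 1 := by exact_mod_cast hu
      rw [he'] at h2 ⊢
      nlinarith
    exact_mod_cast goal

end Pool.Agent.Work.MP_0ea01d_co.Det
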