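import Pool.Agent.Work.MP_0ea01d_co.Det.Arith1

/-!
# Arithmetic of the upper region (pure arithmetic, induction-free)

Write `C2 k = k.choose 2`, `C2 (k+1) = C2 k + k`, `2 * C2 k = k (k-1)`.
Let `x = e (N-1) + 1 - y`. From `y ≤ e (N-e)` we get `2 C2 e + 1 ≤ x` (as
`e (N-1) + 1 - e (N-e) = e (e-1) + 1`), and `hlo` says `x ≤ C2 (N-e) + C2 (e+1)`.
For `e ≤ j ≤ N-e` let `low j = C2 j + C2 (2e-j)` (truncated subtraction). `low e = 2 C2 e ≤ x`.
Let `j` be the largest `j ≤ N-e`, `j ≥ e`, with `low j ≤ x` (`Nat.findGreatest`).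
Claim `x ≤ C2 j + C2 (e+1)`. If `j = N-e` this is `hlo`. Otherwise `x < low (j+1)`, i.e.
`x + 1 ≤ C2 j + j + C2 (2e-j-1)`, so it is enough that `j + C2 (2e-j-1) ≤ C2 (e+1) + 1`:
* if `j ≥ 2e-1` the second term is `0` and `j ≤ N-e-1 ≤ C2 (e+1) + 1` by `hc`;
* if `j = 2e-1-i` with `0 ≤ i ≤ e-1`: twice the inequality is
  `4e-2-2i + i(i-1) ≤ e(e+1) + 2`, i.e. `i(i-3) ≤ e²-3e+4`; true since `i(i-3) ≤ (e-1)(e-4)`
  for `3 ≤ i ≤ e-1`, and `i(i-3) ≤ 0 ≤ e²-3e+4` for `i ≤ 3`.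
So `y' = x - C2 j` satisfies `C2 (2e-j) ≤ y' ≤ C2 (e+1)`. By `split_choose` (Arith1):
`y' = C2 b + c`, `c ≤ b ≤ e`, and `2e-j ≤ e` gives `2e-j ≤ b`, so `2e ≤ j + b + c`.
`b + 1 ≤ j + c`: if `b < j` clear. If `b = j` then `j = e = b` and
`y' = x - C2 e ≥ C2 e + 1 = C2 b + 1`, so `c ≥ 1`.
-/

set_option autoImplicit false

namespace Pool.Agent.Work.MP_0ea01d_co.Det

private theorem ch_succ (k : ℕ) : (k + 1).choose 2 = k + k.choose 2 := by
  rw [Nat.choose_succ_succ' k 1, Nat.choose_one_right]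

private theorem ch_sq (k : ℕ) : 2 * k.choose 2 + k = k * k := by
  induction k with
  | zero => rfl
  | succ k ih =>
    rw [ch_succ]
    nlinarith

private theorem key {e i : ℕ} (hi : i + 1 ≤ e) :
    2 * e - 1 - i + i.choose 2 ≤ (e + 1).choose 2 + 1 := by
  have e1 := ch_sq i
  have e2 := ch_sq (e + 1)
  zify at e1 e2
  have h1 : ((2 * e - 1 - i : ℕ) : ℤ) = 2 * e - 1 - i := by omega
  have h2 : ((2 * e - 1 - i : ℕ) : ℤ) + (i.choose 2 : ℤ) ≤ ((e + 1).choose 2 : ℤ) + 1 := by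
    rw [h1]
    have hie : (i : ℤ) + 1 ≤ e := by exact_mod_cast hi
    have hi0 : (0 : ℤ) ≤ i := by positivity
    nlinarith [sq_nonneg ((e : ℤ) - i - 1), sq_nonneg ((e : ℤ) - 2), sq_nonneg ((i : ℤ) - 2),
      mul_nonneg hi0 (sub_nonneg.2 hie)]
  exact_mod_cast h2

theorem reg1_arith {N e y : ℕ} (he : 1 ≤ e) (heN : 2 * e ≤ N)
    (hc : N ≤ (e + 1).choose 2 + e + 2)
    (hlo : e * (N - 1) + 1 ≤ y + (N - e).choose 2 + (e + 1).choose 2) (hhi : y ≤ e * (N - e)) :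
    ∃ j b c : ℕ, c ≤ b ∧ b ≤ e ∧ e ≤ j ∧ j + e ≤ N ∧ 2 * e ≤ j + b + c ∧ b + 1 ≤ j + c ∧
      e * (N - 1) + 1 = y + j.choose 2 + b.choose 2 + c := by
  have e1 : e * (N - 1) = e * (N - e) + e * (e - 1) := by
    rw [← Nat.mul_add]
    congr 1
    omega
  have e2 : e * (e - 1) = 2 * e.choose 2 := by
    have h1 := ch_sq e
    have h2 : e * (e - 1) + e = e * e := by
      obtain ⟨m, rfl⟩ : ∃ m, e = m + 1 := ⟨e - 1, by omega⟩
      simp only [Nat.add_sub_cancel]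
      ring
    omega
  obtain ⟨x, hx⟩ : ∃ x, e * (N - 1) + 1 = y + x := ⟨e * (N - 1) + 1 - y, by omega⟩
  have hx1 : 2 * e.choose 2 + 1 ≤ x := by omega
  have hPe : e ≤ e ∧ e.choose 2 + (2 * e - e).choose 2 ≤ x := by
    refine ⟨le_rfl, ?_⟩
    have : 2 * e - e = e := by omega
    rw [this]
    omega
  obtain ⟨h1, h2⟩ := Nat.findGreatest_spec
    (P := fun j => e ≤ j ∧ j.choose 2 + (2 * e - j).choose 2 ≤ x) (n := N - e)
    (by omega : e ≤ N - e) hPe
  have h3 : Nat.findGreatest (fun j => e ≤ j ∧ j.choose 2 + (2 * e - j).choose 2 ≤ x) (N - e) ≤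
    N - e := Nat.findGreatest_le _
  have h4 : ∀ i, i ≤ N - e → (e ≤ i ∧ i.choose 2 + (2 * e - i).choose 2 ≤ x) →
      i ≤ Nat.findGreatest (fun j => e ≤ j ∧ j.choose 2 + (2 * e - j).choose 2 ≤ x) (N - e) :=
    fun i hi hy => Nat.le_findGreatest hi hy
  set j := Nat.findGreatest (fun j => e ≤ j ∧ j.choose 2 + (2 * e - j).choose 2 ≤ x) (N - e)
    with hj
  have h5 : x ≤ j.choose 2 + (e + 1).choose 2 := by
    rcases Nat.lt_or_ge j (N - e) with h6 | h6
    · have h7 : x < (j + 1).choose 2 + (2 * e - (j + 1)).choose 2 := by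
        by_contra h8
        push Not at h8
        have := h4 (j + 1) h6 ⟨by omega, h8⟩
        omega
      rw [ch_succ] at h7
      rcases Nat.lt_or_ge j (2 * e) with h8 | h8
      · have h9 := key (e := e) (i := 2 * e - (j + 1)) (by omega)
        omega
      · have h9 : 2 * e - (j + 1) = 0 := by omega
        rw [h9] at h7
        simp only [Nat.choose_zero_succ] at h7
        omega
    · have h7 : j = N - e := le_antisymm h3 h6
      rw [h7]
      omega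
  obtain ⟨b, c, hcb, hbe, hy, hmax⟩ := split_choose (x - j.choose 2) e (by omega)
  have h6 : 2 * e - j ≤ b := hmax _ (by omega) (by omega)
  refine ⟨j, b, c, hcb, hbe, h1, by omega, by omega, ?_, by omega⟩
  rcases Nat.lt_or_ge b j with h7 | h7
  · omega
  · have h8 : j = e := by omega
    have h9 : b = e := by omega
    rw [h8, h9] at hy
    omega

end Pool.Agent.Work.MP_0ea01d_co.Det
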