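import Pool.Agent.Work.MP_0ea01d_co.Det.KKd

/-!
# From elements of S(n,l) to families with a small upper shadow

Let `n = l + d`, let `F` be the closed family of `m` (`exists_clo_of_mem_S`, GapA), so
`m = C(n,l) - |Gr l F| + |F|`. Let `G = powersetCard l univ \ Gr l F`. Then
`∂⁺ G = powersetCard (l+1) univ \ F`: an `(l+1)`-set `T` contains a member of `G` iff one of its
`l`-subsets is not in `Gr l F`, iff `T ∉ F` (members of `F` have all their `l`-subsets in `Gr l F`,
and `F` is closed). So `|G| = C(n,l) - |Gr l F|`, `|∂⁺ G| = C(n,l+1) - |F|`.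
The dual family: `H = Fᶜˢ` (complements of the members of `F`) consists of sets with
`n - (l+1) = d - 1` elements. For `d = l + 1` these are `l`-sets, and
`∂⁺ H = (∂ F)ᶜˢ = (Gr l F)ᶜˢ` (`Finset.upShadow_compls`; `∂ F = Gr l F`), so
`|H| = |F|`, `|∂⁺ H| = |Gr l F|`.
`up_ge`, `up_ge_mid`: apply `shadow_ge`, `shadow_ge_mid` to `A = Gᶜˢ` (sets with `d` elements);
`∂ A = (∂⁺ G)ᶜˢ` (`Finset.shadow_compls`), `Finset.card_compls`.
`up_lym`: `Finset.local_lubell_yamamoto_meshalkin_inequality_mul` for `A = Gᶜˢ`, `r = d`: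
`|G| d ≤ |∂⁺ G| (n - d + 1) = |∂⁺ G| (l + 1) ≤ |∂⁺ G| d`.
-/

set_option autoImplicit false

namespace Pool.Agent.Work.MP_0ea01d_co.Det

open Finset

/-- The family and its upper shadow. -/
private theorem clo_compl {l d : ℕ} (hl : 1 ≤ l) {F : Finset (Finset (Fin (l + d)))}
    (hF : Clo l F) :
    (∀ X ∈ powersetCard l univ \ Gr l F, X.card = l) ∧
    (((powersetCard l univ \ Gr l F).card : ℕ) : ℤ) = (l + d).choose l - (Gr l F).card ∧
    ((upShadow (powersetCard l univ \ Gr l F)).card : ℤ) = (l + d).choose (l + 1) - F.card := by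
  have hGrsub : Gr l F ⊆ powersetCard l univ := by
    intro Y hY
    obtain ⟨T, _, _, hYc⟩ := mem_Gr.1 hY
    exact mem_powersetCard.2 ⟨subset_univ _, hYc⟩
  have hFsub : F ⊆ powersetCard (l + 1) univ := by
    intro T hT
    exact mem_powersetCard.2 ⟨subset_univ _, hF.card T hT⟩
  have hG : ∀ X ∈ powersetCard l univ \ Gr l F, X.card = l := by
    intro X hX
    exact (mem_powersetCard.1 (mem_sdiff.1 hX).1).2
  have hup : upShadow (powersetCard l univ \ Gr l F) = powersetCard (l + 1) univ \ F := by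
    ext T
    rw [mem_upShadow_iff_exists_mem_card_add_one, mem_sdiff, mem_powersetCard]
    constructor
    · rintro ⟨X, hX, hXT, hc⟩
      refine ⟨⟨subset_univ _, by rw [hc, hG X hX]⟩, fun hTF => ?_⟩
      exact (mem_sdiff.1 hX).2 (mem_Gr.2 ⟨T, hTF, hXT, hG X hX⟩)
    · rintro ⟨⟨_, hTc⟩, hTF⟩
      by_contra hcon
      apply hTF
      apply hF.closed T hTc
      intro Y hY hYc
      by_contra hno
      apply hcon
      refine ⟨Y, mem_sdiff.2 ⟨mem_powersetCard.2 ⟨subset_univ _, hYc⟩, fun hYG => ?_⟩, hY, by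
        rw [hTc, hYc]⟩
      obtain ⟨T', hT', hYT', _⟩ := mem_Gr.1 hYG
      exact hno ⟨T', hT', hYT'⟩
  refine ⟨hG, ?_, ?_⟩
  · have h := card_sdiff_add_card_eq_card hGrsub
    rw [card_powersetCard, card_univ, Fintype.card_fin] at h
    have : ((powersetCard l univ \ Gr l F).card : ℤ) + (Gr l F).card = (l + d).choose l := by
      exact_mod_cast h
    linarith
  · rw [hup]
    have h := card_sdiff_add_card_eq_card hFsub
    rw [card_powersetCard, card_univ, Fintype.card_fin] at h
    have : ((powersetCard (l + 1) (univ : Finset (Fin (l + d))) \ F).card : ℤ) + F.card =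
        (l + d).choose (l + 1) := by
      exact_mod_cast h
    linarith

theorem exists_family {l d m : ℕ} (hl : 1 ≤ l) (hd : 1 ≤ d) (hm : m ∈ S (l + d) l) :
    ∃ G : Finset (Finset (Fin (l + d))), (∀ X ∈ G, X.card = l) ∧
      (m : ℤ) = (l + d).choose (l + 1) - ((upShadow G).card - G.card) := by
  obtain ⟨F, hF, hmF⟩ := exists_clo_of_mem_S (by omega) hm
  obtain ⟨h1, h2, h3⟩ := clo_compl hl hF
  refine ⟨_, h1, ?_⟩
  rw [h2, h3, hmF]
  unfold NN
  ring

private theorem shadow_eq_Gr {n l : ℕ} {F : Finset (Finset (Fin n))}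
    (hF : ∀ T ∈ F, T.card = l + 1) : shadow F = Gr l F := by
  ext Y
  rw [mem_shadow_iff_exists_mem_card_add_one, mem_Gr]
  constructor
  · rintro ⟨T, hT, hYT, hc⟩
    refine ⟨T, hT, hYT, ?_⟩
    rw [hF T hT] at hc
    omega
  · rintro ⟨T, hT, hYT, hc⟩
    exact ⟨T, hT, hYT, by rw [hF T hT, hc]⟩

/-- The same with the dual family, in the middle case `n = 2 l + 1`. -/
theorem exists_family_mid {l d m : ℕ} (hl : 1 ≤ l) (hd : d = l + 1) (hm : m ∈ S (l + d) l) :
    ∃ G H : Finset (Finset (Fin (l + d))), (∀ X ∈ G, X.card = l) ∧ (∀ X ∈ H, X.card = l) ∧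
      (m : ℤ) = (l + d).choose (l + 1) - ((upShadow G).card - G.card) ∧
      (H.card : ℤ) = (l + d).choose (l + 1) - (upShadow G).card ∧
      ((upShadow H).card : ℤ) = (l + d).choose l - G.card := by
  obtain ⟨F, hF, hmF⟩ := exists_clo_of_mem_S (by omega) hm
  obtain ⟨h1, h2, h3⟩ := clo_compl hl hF
  refine ⟨_, F.compls, h1, ?_, ?_, ?_, ?_⟩
  · intro X hX
    rw [mem_compls] at hX
    have h4 := hF.card _ hX
    rw [card_compl, Fintype.card_fin] at h4
    omega
  · rw [h2, h3, hmF]
    unfold NN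
    ring
  · rw [card_compls, h3]
    ring
  · rw [upShadow_compls, card_compls, h2, shadow_eq_Gr hF.card]
    ring

theorem up_ge {l d : ℕ} (hd : l + 2 ≤ d) (h5 : 5 ≤ d) {G : Finset (Finset (Fin (l + d)))}
    (hG : ∀ X ∈ G, X.card = l) (ht : d + 2 ≤ G.card) :
    (G.card : ℤ) + cc d ≤ (upShadow G).card := by
  have h := shadow_ge hd h5 (A := G.compls) (by
    intro X hX
    rw [mem_compls] at hX
    have h4 := hG _ hX
    rw [card_compl, Fintype.card_fin] at h4
    have h5 := card_le_univ X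
    rw [Fintype.card_fin] at h5
    omega) (by rwa [card_compls])
  rwa [shadow_compls, card_compls, card_compls] at h

theorem up_ge_mid {l d : ℕ} (hd : d = l + 1) (h5 : 5 ≤ d) {G : Finset (Finset (Fin (l + d)))}
    (hG : ∀ X ∈ G, X.card = l) (ht : d + 2 ≤ G.card)
    (ht' : (G.card : ℤ) + d * cc d ≤ (l + d).choose l) :
    (G.card : ℤ) + cc d ≤ (upShadow G).card := by
  have h := shadow_ge_mid hd h5 (A := G.compls) (by
    intro X hX
    rw [mem_compls] at hX
    have h4 := hG _ hX
    rw [card_compl, Fintype.card_fin] at h4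
    have h5 := card_le_univ X
    rw [Fintype.card_fin] at h5
    omega) (by rwa [card_compls]) (by rwa [card_compls])
  rwa [shadow_compls, card_compls, card_compls] at h

theorem up_lym {l d : ℕ} (hd : l + 1 ≤ d) {G : Finset (Finset (Fin (l + d)))}
    (hG : ∀ X ∈ G, X.card = l) : G.card ≤ (upShadow G).card := by
  have hs : (G.compls : Set (Finset (Fin (l + d)))).Sized d := by
    intro X hX
    rw [mem_coe, mem_compls] at hX
    have h4 := hG _ hX
    rw [card_compl, Fintype.card_fin] at h4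
    have h5 := card_le_univ X
    rw [Fintype.card_fin] at h5
    omega
  have h := local_lubell_yamamoto_meshalkin_inequality_mul hs
  rw [shadow_compls, card_compls, card_compls, Fintype.card_fin] at h
  have e : l + d - d + 1 = l + 1 := by omega
  rw [e] at h
  have h2 : (upShadow G).card * (l + 1) ≤ (upShadow G).card * d := Nat.mul_le_mul_left _ hd
  exact Nat.le_of_mul_le_mul_right (h.trans h2) (by omega)

private theorem num_mid_aux (k : ℕ) : (k + 5) * ((k + 5 - 1) * (k + 6)) ≤
    (2 * k + 9).choose (k + 4) := by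
  induction k with
  | zero => decide +kernel
  | succ k ih =>
    have e1 : 2 * (k + 1) + 9 = 2 * k + 9 + 2 := by ring
    have b1 : (2 * k + 9 + 2).choose (k + 1 + 4) =
        (2 * k + 9 + 1).choose (k + 4) + (2 * k + 9 + 1).choose (k + 1 + 4) := rfl
    have b2 : (2 * k + 9 + 1).choose (k + 1 + 4) =
        (2 * k + 9).choose (k + 4) + (2 * k + 9).choose (k + 1 + 4) := rfl
    have b3 : (2 * k + 9 + 1).choose (k + 4) =
        (2 * k + 9).choose (k + 3) + (2 * k + 9).choose (k + 4) := rfl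
    have b4 : (2 * k + 9).choose (k + 1 + 4) = (2 * k + 9).choose (k + 4) :=
      Nat.choose_symm_of_eq_add (by ring)
    have e2 : k + 5 - 1 = k + 4 := by omega
    have e3 : k + 1 + 5 - 1 = k + 5 := by omega
    rw [e2] at ih
    rw [e1, e3, b1, b2, b3, b4]
    have h3 : (k + 1 + 5) * ((k + 5) * (k + 1 + 6)) ≤ 3 * ((k + 5) * ((k + 4) * (k + 6))) := by
      nlinarith [sq_nonneg k, Nat.zero_le (k ^ 3)]
    omega

/-- Large middle layers. -/
theorem num_mid {l d : ℕ} (hd : d = l + 1) (h5 : 5 ≤ d) : 2 * (d * cc d) ≤ (l + d).choose l := by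
  subst hd
  obtain ⟨k, rfl⟩ : ∃ k, l = k + 4 := ⟨l - 4, by omega⟩
  have h1 := cc_le (d := k + 4 + 1) (by omega)
  have h2 := num_mid_aux k
  have e1 : k + 5 - 1 = k + 4 := by omega
  have e2 : k + 4 + (k + 4 + 1) = 2 * k + 9 := by ring
  rw [e1] at h2
  have h3 : ((k : ℤ) + 5) * ((k + 4) * (k + 6)) ≤ (2 * k + 9).choose (k + 4) := by
    exact_mod_cast h2
  rw [e2]
  push_cast at h1 ⊢
  have hk : (0 : ℤ) ≤ k := by positivity
  nlinarith

end Pool.Agent.Work.MP_0ea01d_co.Det
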