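import Pool.Agent.Work.MP_0ea01d_co.Det.UpA
import Pool.Agent.Work.MP_0ea01d_co.Det.LossB

/-!
# The part above `T(n,l)`: necessity
-/

set_option autoImplicit false

namespace Pool.Agent.Work.MP_0ea01d_co.Det

open Finset

/-- A family with at most `d + 1` members has a shadow of the special form. -/
theorem small_form {l d : ℕ} (hl : 1 ≤ l) {G : Finset (Finset (Fin (l + d)))}
    (hG : ∀ X ∈ G, X.card = l) (hne : G.Nonempty) (ht : G.card ≤ d + 1) :
    ∃ t x : ℕ, 1 ≤ t ∧ t ≤ d + 1 ∧ Rep t x ∧
      ((upShadow G).card : ℤ) - G.card = t * ((d : ℤ) - 1) - x := by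
  obtain ⟨x, hx, hlx⟩ := loss_rep hl hG hne
  refine ⟨G.card, x, card_pos.2 hne, ht, hx, ?_⟩
  unfold loss at hlx
  push_cast at hlx
  linarith

/-- Every element of `S(n,l)` is at most `T(n,l)`, or of the special form, or `C(n,l+1)`. -/
theorem upper_half {l d m : ℕ} (hl : 1 ≤ l) (hd : l + 1 ≤ d) (h5 : 5 ≤ d) (hm : m ∈ S (l + d) l) :
    (m : ℤ) ≤ (l + d).choose (l + 1) - cc d ∨
    (m < (l + d).choose (l + 1) ∧ ∃ t x : ℕ, 1 ≤ t ∧ t ≤ d + 1 ∧ Rep t x ∧
      (m : ℤ) = (l + d).choose (l + 1) - t * ((d : ℤ) - 1) + x) ∨
    m = (l + d).choose (l + 1) := by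
  by_cases c1 : (m : ℤ) ≤ (l + d).choose (l + 1) - cc d
  · exact Or.inl c1
  right
  push Not at c1
  by_cases c2 : m = (l + d).choose (l + 1)
  · exact Or.inr c2
  left
  rcases Nat.eq_or_lt_of_le hd with hd' | hd'
  · -- the middle case
    obtain ⟨G, H, hG, hH, hm1, hH1, hH2⟩ := exists_family_mid (by omega) hd'.symm hm
    have hlym := up_lym hd hG
    have hlym' : (G.card : ℤ) ≤ (upShadow G).card := by exact_mod_cast hlym
    have hlt : m < (l + d).choose (l + 1) := by
      have : (m : ℤ) ≤ (l + d).choose (l + 1) := by linarith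
      have : m ≤ (l + d).choose (l + 1) := by exact_mod_cast this
      omega
    refine ⟨hlt, ?_⟩
    by_cases c3 : G.card ≤ d + 1
    · have hne : G.Nonempty := by
        rw [nonempty_iff_ne_empty]
        rintro rfl
        apply c2
        have : (m : ℤ) = (l + d).choose (l + 1) := by
          rw [hm1]
          simp
        exact_mod_cast this
      obtain ⟨t, x, h1, h2, h3, h4⟩ := small_form (by omega) hG hne c3
      exact ⟨t, x, h1, h2, h3, by rw [hm1]; linarith⟩
    · push Not at c3
      have hsym : (l + d).choose (l + 1) = (l + d).choose l :=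
        Nat.choose_symm_of_eq_add (by omega)
      have hbig : ((l + d).choose l : ℤ) < G.card + d * cc d := by
        by_contra hcon
        push Not at hcon
        have := up_ge_mid hd'.symm h5 hG (by omega) hcon
        linarith
      have hnum := num_mid hd'.symm h5
      have hc : H.card ≤ d + 1 := by
        by_contra hcon
        push Not at hcon
        have h6 := up_ge_mid hd'.symm h5 hH (by omega) (by
          rw [hH1, hsym]
          linarith)
        rw [hH1, hH2, hsym] at h6
        rw [hsym] at hm1 c1
        linarith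
      have hne : H.Nonempty := by
        rw [nonempty_iff_ne_empty]
        rintro rfl
        apply c2
        have h7 : ((upShadow (∅ : Finset (Finset (Fin (l + d))))).card : ℤ) = 0 := by simp
        rw [h7] at hH2
        have : (m : ℤ) = (l + d).choose (l + 1) := by
          rw [hm1]
          simp only [card_empty, Nat.cast_zero] at hH1
          rw [hsym] at hH1 ⊢
          linarith
        exact_mod_cast this
      obtain ⟨t, x, h1, h2, h3, h4⟩ := small_form (by omega) hH hne hc
      refine ⟨t, x, h1, h2, h3, ?_⟩
      rw [hm1]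
      rw [hH1, hH2, hsym] at h4
      rw [hsym]
      linarith
  · obtain ⟨G, hG, hm1⟩ := exists_family (by omega) (by omega) hm
    have hlym := up_lym hd hG
    have hlym' : (G.card : ℤ) ≤ (upShadow G).card := by exact_mod_cast hlym
    have hlt : m < (l + d).choose (l + 1) := by
      have : (m : ℤ) ≤ (l + d).choose (l + 1) := by linarith
      have : m ≤ (l + d).choose (l + 1) := by exact_mod_cast this
      omega
    refine ⟨hlt, ?_⟩
    have c3 : G.card ≤ d + 1 := by
      by_contra hcon
      push Not at hcon
      have := up_ge (by omega) h5 hG (by omega)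
      linarith
    have hne : G.Nonempty := by
      rw [nonempty_iff_ne_empty]
      rintro rfl
      apply c2
      have : (m : ℤ) = (l + d).choose (l + 1) := by
        rw [hm1]
        simp
      exact_mod_cast this
    obtain ⟨t, x, h1, h2, h3, h4⟩ := small_form (by omega) hG hne c3
    exact ⟨t, x, h1, h2, h3, by rw [hm1]; linarith⟩

end Pool.Agent.Work.MP_0ea01d_co.Det
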